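import Pool.Agent.Lib.MP_7f8c3e_co.Defs

/-!
# Specs of the modules for the density theorem (Beanstalk).

Text with a proof of every module: `/team-store/MP_7f8c3e_co_DENSITY.md`.
Module `XXX`: file `Xxx.lean`, theorem `specXxx (other Specs as hypotheses) : SpecXxx`,
own lemmas in the namespace `Pool.Agent.Lib.MP7f8c3e.XxxM`.
-/

namespace Pool.Agent.Lib.MP7f8c3e

open Filter

/-- GAME: winning positions are closed backwards along solitaire paths. -/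
def SpecGame : Prop := BackClosed WZ

/-- RES: arbitrarily large odd winners in every class modulo `3^j`. -/
def SpecRes : Prop :=
  ∀ (j : ℕ) (ζ : ℤ) (B : ℝ), ∃ y : ℤ, Odd y ∧ B < y ∧ y ∈ WZ ∧ y ≡ ζ [ZMOD 3 ^ j]

/-- TINF: all but an exponentially small fraction of the classes modulo `2^(16N+1)` is
represented in `Lv N`. -/
def SpecTinf : Prop :=
  ∃ κ C : ℝ, 0 < κ ∧ κ < 1 ∧ 0 < C ∧ ∀ N : ℕ,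
    (1 - C * κ ^ N) * 2 ^ (16 * N) ≤ (g N ((3 / 2 : ℝ) ^ (10 * N)) : ℝ)

/-- SUB: submultiplicativity of the represented classes. -/
def SpecSub : Prop :=
  ∀ (N N' : ℕ) (M M' : ℝ), 1 ≤ N → 1 ≤ N' → 0 ≤ M → 0 ≤ M' →
    g N M * g N' M' ≤ g (N + N') (M' + rho ^ N' * M)

/-- TIGHT: tightness with a window of size `(3/2)^(20 b)`. -/
def SpecTight : Prop :=
  ∃ κ C : ℝ, 0 < κ ∧ κ < 1 ∧ 0 < C ∧ ∀ N b : ℕ, b ≤ N →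
    (1 - C * κ ^ b) * 2 ^ (16 * N) ≤ (g N ((3 / 2 : ℝ) ^ (20 * b)) : ℝ)

/-- IGN: ignition. -/
def SpecIgn : Prop :=
  ∀ N : ℕ, g N ((3 / 2 : ℝ) ^ (10 * N)) ≤ g2 (N + 1)

/-- MONO: the basic monotonicity inequality. -/
def SpecMono : Prop :=
  ∀ (N N' : ℕ) (R : ℝ), 1 ≤ N → 1 ≤ N' →
    g N ((3 / 2 : ℝ) ^ (10 * N)) * u N' (R - rho ^ N' * (3 / 2) ^ (10 * N)) +
      g2 N * d N' (R - rho ^ N' * (3 / 2) ^ (10 * N)) ≤ u (N + N') R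

/-- PIG: on average over `N ∈ [L, 2L)` there are few disagreements. -/
def SpecPig : Prop :=
  ∃ C : ℝ, 0 < C ∧ ∃ L₀ : ℕ, ∀ (L : ℕ) (R : ℝ), L₀ ≤ L → 1 ≤ R →
    ∑ N ∈ Finset.Ico L (2 * L), (dis N R : ℝ) / 2 ^ (16 * N) ≤ C * R * Real.sqrt L

/-- BAD: most `N ∈ [L, 2L]` are good at scale `L`. -/
def SpecBad : Prop :=
  ∃ L₀ : ℕ, ∀ L : ℕ, L₀ ≤ L →
    8 * {N : ℕ | L ≤ N ∧ N < 2 * L ∧ ¬ Good L N}.ncard ≤ L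

/-- STAGE: one stage of the chain. -/
def SpecStage : Prop :=
  ∀ W : Set ℤ, BackClosed W → ∃ (C c : ℝ) (S₀ : ℕ), 0 < C ∧ 0 < c ∧
    ∀ S L N : ℕ, S₀ ≤ S → S ≤ 2000 * L → 400 * L ≤ S → L ≤ N → N ≤ 2 * L → Good L N →
      Tr W S (S + N) (C * (S : ℝ) ^ (-c))

/-- COMP: composition of transfers. -/
def SpecComp : Prop :=
  ∀ (W : Set ℤ) (Sa S Sb : ℕ) (ε₁ ε₂ : ℝ), Sa < S → S + 7 ≤ Sb → (Sb - S) + 30 ≤ S →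
    0 ≤ ε₁ → ε₁ ≤ 1 → Tr W Sa S ε₁ → Tr W S Sb ε₂ →
      Tr W Sa Sb (ε₁ + ε₂ + 2 * rho ^ (Sb - S))

/-- CHAIN: transfers with small error between any two heights. -/
def SpecChain : Prop :=
  ∀ W : Set ℤ, BackClosed W → ∀ ε : ℝ, 0 < ε → ∃ S₀ : ℕ, ∀ Sa Sb : ℕ, S₀ ≤ Sa →
    101 * Sa ≤ 100 * Sb → Tr W Sa Sb ε

/-- Backward closed sets with arbitrarily large odd elements in every class modulo `3^j`. -/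
def Rich (W : Set ℤ) : Prop :=
  ∀ (j : ℕ) (ζ : ℤ) (B : ℝ), ∃ y : ℤ, Odd y ∧ B < y ∧ y ∈ W ∧ y ≡ ζ [ZMOD 3 ^ j]

/-- START: a cell with a positive fraction of full positions. -/
def SpecStart : Prop :=
  ∀ W : Set ℤ, BackClosed W → Rich W → ∃ R₀ : ℝ, 1 ≤ R₀ ∧ ∀ S₁ : ℕ, ∃ Sa : ℕ, S₁ ≤ Sa ∧
    ∃ y : ℤ, 3 * R₀ + 10 ≤ (y : ℝ) ∧
      rho⁻¹ ^ Sa / 4 ≤ (({m : ℤ | Odd m ∧ |(m : ℝ) - rho⁻¹ ^ Sa * y| ≤ R₀ * rho⁻¹ ^ Sa ∧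
        Full W (rad Sa + 4) m}.ncard : ℕ) : ℝ)

/-- PHA: cells with a positive fraction of full positions at all large heights. -/
def PhaseA (W : Set ℤ) : Prop :=
  ∃ (R₀ : ℝ) (y : ℤ) (S₁ : ℕ), 1 ≤ R₀ ∧ 3 * R₀ + 10 ≤ (y : ℝ) ∧ ∀ S : ℕ, S₁ ≤ S →
      rho⁻¹ ^ S / 8 ≤ (({m : ℤ | Odd m ∧ |(m : ℝ) - rho⁻¹ ^ S * y| ≤ (R₀ + 1) * rho⁻¹ ^ S ∧
        Full W (rad S + 4) m}.ncard : ℕ) : ℝ)

def SpecPha : Prop := ∀ W : Set ℤ, BackClosed W → Rich W → PhaseA W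

/-- ROUTE: routes `i` moves `U`, then down to the height `Sj`. -/
def Routes (W : Set ℤ) : Prop :=
  ∀ ε : ℝ, 0 < ε → ∃ S₀ : ℕ, ∀ Sj i : ℕ, S₀ ≤ Sj → ∃ S₁ : ℕ, ∀ S : ℕ, S₁ ≤ S →
    ∃ Exc : Set ℤ,
      (∀ n : ℤ, Odd n → 0 < n → n ∉ Exc →
        Full W (rad Sj + 3) (rho ^ (S - Sj) * (3 / 2) ^ i * n) → n ∈ W) ∧
      (∀ X : ℕ, rho⁻¹ ^ S ≤ (3 / 2 : ℝ) ^ i * X →
        (({n : ℤ | n ∈ Exc ∧ Odd n ∧ (X : ℤ) ≤ n ∧ n < 2 * X}.ncard : ℕ) : ℝ) ≤ ε * X)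

def SpecRoute : Prop := ∀ W : Set ℤ, BackClosed W → Routes W

/-- THETA: scaling factors close to one. -/
def SpecTheta : Prop :=
  ∀ δ : ℝ, 0 < δ → ∃ i N : ℕ, 1 ≤ i ∧ 1 ≤ N ∧ 1 < (3 / 2 : ℝ) ^ i * rho ^ N ∧
    (3 / 2 : ℝ) ^ i * rho ^ N < 1 + δ

/-- FIN: the double counting. -/
def SpecFin : Prop :=
  ∀ W : Set ℤ, PhaseA W → Routes W → ∀ ε : ℝ, 0 < ε → ∃ X₀ : ℕ, ∀ X : ℕ, X₀ ≤ X →
    (({n : ℤ | Odd n ∧ (X : ℤ) ≤ n ∧ n < 2 * X ∧ n ∉ W}.ncard : ℕ) : ℝ) ≤ ε * X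

/-- TOP: the density theorem. -/
def SpecTop : Prop :=
  Tendsto (fun X : ℕ => (({n : ℕ | n < X ∧ Odd n ∧ 1 < n ∧ n ∉ Win}.ncard : ℕ) : ℝ) / X)
    atTop (nhds 0)

end Pool.Agent.Lib.MP7f8c3e
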