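import Pool.Agent.Lib.MP_7f8c3e_co.Defs
import Pool.Agent.Lib.MP_7f8c3e_co.Spec

section
/-!
# Basic facts on the sets `CS t K` and counting tools.
-/
namespace Pool.Agent.Lib.MP7f8c3e

theorem mem_CS_zero {K : ℕ} {c : ℤ} : c ∈ CS 0 K ↔ c = 0 ∧ K = 0 := Iff.rfl

theorem mem_CS_succ {t K : ℕ} {c : ℤ} : c ∈ CS (t + 1) K ↔
    ∃ (s : ℤ) (k : ℕ) (c' : ℤ), (s = 1 ∨ s = -1) ∧ Odd k ∧ k ≤ K ∧
      c' ∈ CS t (K - k) ∧ c = 3 ^ t * s + 2 ^ k * c' := Iff.rfl

theorem CS_cons {t K k : ℕ} {s c : ℤ} (hs : s = 1 ∨ s = -1) (hk : Odd k) (hc : c ∈ CS t K) :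
    3 ^ t * s + 2 ^ k * c ∈ CS (t + 1) (k + K) := by
  rw [mem_CS_succ]
  refine ⟨s, k, c, hs, hk, by omega, ?_, rfl⟩
  rwa [Nat.add_sub_cancel_left]

theorem CS_cases {t K : ℕ} {c : ℤ} (h : c ∈ CS (t + 1) K) :
    ∃ (s : ℤ) (k K' : ℕ) (c' : ℤ), (s = 1 ∨ s = -1) ∧ Odd k ∧ K = k + K' ∧
      c' ∈ CS t K' ∧ c = 3 ^ t * s + 2 ^ k * c' := by
  rw [mem_CS_succ] at h
  obtain ⟨s, k, c', hs, hk, hkK, hc', rfl⟩ := h
  exact ⟨s, k, K - k, c', hs, hk, by omega, hc', rfl⟩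

theorem CS_le : ∀ {t K : ℕ} {c : ℤ}, c ∈ CS t K → t ≤ K
  | 0, _, _, _ => Nat.zero_le _
  | t + 1, K, c, h => by
    obtain ⟨s, k, K', c', hs, hk, rfl, hc', rfl⟩ := CS_cases h
    have := CS_le hc'
    have := hk.pos
    omega

theorem CS_neg : ∀ {t K : ℕ} {c : ℤ}, c ∈ CS t K → -c ∈ CS t K
  | 0, K, c, h => by
    rw [mem_CS_zero] at h ⊢
    simpa using h
  | t + 1, K, c, h => by
    obtain ⟨s, k, K', c', hs, hk, rfl, hc', rfl⟩ := CS_cases h
    have h1 := CS_cons (s := -s) (by rcases hs with rfl | rfl <;> simp) hk (CS_neg hc')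
    have : -(3 ^ t * s + 2 ^ k * c') = 3 ^ t * (-s) + 2 ^ k * (-c') := by ring
    rwa [this]

theorem CS_neg_iff {t K : ℕ} {c : ℤ} : -c ∈ CS t K ↔ c ∈ CS t K :=
  ⟨fun h => by simpa using CS_neg h, CS_neg⟩

theorem odd_three_pow (t : ℕ) : Odd ((3 : ℤ) ^ t) := Odd.pow (by decide)

theorem CS_odd {t K : ℕ} {c : ℤ} (h : c ∈ CS (t + 1) K) : Odd c := by
  obtain ⟨s, k, K', c', hs, hk, rfl, hc', rfl⟩ := CS_cases h
  have hs' : Odd s := by rcases hs with rfl | rfl <;> decide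
  have h1 : Odd ((3 : ℤ) ^ t * s) := (odd_three_pow t).mul hs'
  have h2 : Even ((2 : ℤ) ^ k * c') := by
    obtain ⟨j, rfl⟩ := hk
    rw [pow_succ]
    exact ⟨2 ^ (2 * j) * c', by ring⟩
  exact h1.add_even h2

theorem CS_odd' {t K : ℕ} {c : ℤ} (ht : 1 ≤ t) (h : c ∈ CS t K) : Odd c := by
  obtain ⟨t, rfl⟩ : ∃ t', t = t' + 1 := ⟨t - 1, by omega⟩
  exact CS_odd h

theorem Lv_odd {N : ℕ} {c : ℤ} (hN : 1 ≤ N) (h : c ∈ Lv N) : Odd c :=
  CS_odd' (by omega) h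

theorem Lv_neg {N : ℕ} {c : ℤ} (h : c ∈ Lv N) : -c ∈ Lv N := CS_neg h

theorem CS_bound_int : ∀ {t K : ℕ} {c : ℤ}, c ∈ CS t K →
    |c| * 2 ^ t ≤ 2 ^ K * (3 ^ t - 2 ^ t)
  | 0, K, c, h => by
    rw [mem_CS_zero] at h
    obtain ⟨rfl, rfl⟩ := h
    simp
  | t + 1, K, c, h => by
    have hle := CS_le h
    obtain ⟨s, k, K', c', hs, hk, rfl, hc', rfl⟩ := CS_cases h
    have ih := CS_bound_int hc'
    have h1 : |(3 : ℤ) ^ t * s + 2 ^ k * c'| ≤ 3 ^ t + 2 ^ k * |c'| := by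
      refine (abs_add_le _ _).trans ?_
      rw [abs_mul, abs_mul, abs_of_pos (by positivity : (0 : ℤ) < 3 ^ t),
        abs_of_pos (by positivity : (0 : ℤ) < 2 ^ k)]
      rcases hs with rfl | rfl <;> simp
    have h2 : (2 : ℤ) ^ (t + 1) ≤ 2 ^ (k + K') := pow_le_pow_right₀ (by norm_num) hle
    calc |(3 : ℤ) ^ t * s + 2 ^ k * c'| * 2 ^ (t + 1)
        ≤ (3 ^ t + 2 ^ k * |c'|) * 2 ^ (t + 1) := by gcongr
      _ = 3 ^ t * 2 ^ (t + 1) + 2 * 2 ^ k * (|c'| * 2 ^ t) := by ring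
      _ ≤ 3 ^ t * 2 ^ (k + K') + 2 * 2 ^ k * (2 ^ K' * (3 ^ t - 2 ^ t)) := by gcongr
      _ = 2 ^ (k + K') * (3 ^ (t + 1) - 2 ^ (t + 1)) := by ring

theorem CS_bound {t K : ℕ} {c : ℤ} (h : c ∈ CS t K) : |(c : ℝ)| ≤ 2 ^ K * (3 / 2) ^ t := by
  have h1 := CS_bound_int h
  have h2 : (|(c : ℝ)|) * 2 ^ t ≤ 2 ^ K * (3 ^ t - 2 ^ t) := by exact_mod_cast h1
  have h3 : (0 : ℝ) < 2 ^ t := by positivity
  rw [div_pow, ← mul_div_assoc, le_div_iff₀ h3]
  refine h2.trans ?_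
  have : (0 : ℝ) < 2 ^ K * 2 ^ t := by positivity
  nlinarith

theorem Lv_bound {N : ℕ} {c : ℤ} (h : c ∈ Lv N) :
    |(c : ℝ)| ≤ (3 / 2 : ℝ) ^ (10 * N) * 2 ^ (16 * N) := by
  rw [mul_comm]; exact CS_bound h

theorem CS_comp : ∀ {t K t' K' : ℕ} {c c' : ℤ}, c ∈ CS t K → c' ∈ CS t' K' →
    3 ^ t' * c + 2 ^ K * c' ∈ CS (t + t') (K + K')
  | 0, K, t', K', c, c', h, h' => by
    rw [mem_CS_zero] at h
    obtain ⟨rfl, rfl⟩ := h
    simpa using h'
  | t + 1, K, t', K', c, c', h, h' => by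
    obtain ⟨s, k, K₁, c₁, hs, hk, rfl, hc₁, rfl⟩ := CS_cases h
    have ih := CS_comp hc₁ h'
    have h1 := CS_cons hs hk ih
    have e1 : (3 : ℤ) ^ t' * (3 ^ t * s + 2 ^ k * c₁) + 2 ^ (k + K₁) * c' =
        3 ^ (t + t') * s + 2 ^ k * (3 ^ t' * c₁ + 2 ^ K₁ * c') := by ring
    rw [e1]
    have e2 : t + 1 + t' = (t + t') + 1 := by ring
    have e3 : k + K₁ + K' = k + (K₁ + K') := by ring
    rw [e2, e3]
    exact h1

theorem Lv_comp {N N' : ℕ} {c c' : ℤ} (h : c ∈ Lv N) (h' : c' ∈ Lv N') :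
    3 ^ (10 * N') * c + 2 ^ (16 * N) * c' ∈ Lv (N + N') := by
  have := CS_comp (show c ∈ CS (10 * N) (16 * N) from h) (show c' ∈ CS (10 * N') (16 * N') from h')
  unfold Lv
  rw [mul_add, mul_add]
  exact this

/-- The `U`-moves. -/
theorem CS_U : ∀ (i : ℕ) (n : ℤ), Odd n → ∃ c ∈ CS i i, ∃ n' : ℤ, Odd n' ∧
    2 ^ i * n' = 3 ^ i * n + c
  | 0, n, hn => ⟨0, by simp [mem_CS_zero], n, hn, by simp⟩
  | i + 1, n, hn => by
    -- one move first
    obtain ⟨s, m, hs, hm, hmn⟩ : ∃ s m : ℤ, (s = 1 ∨ s = -1) ∧ Odd m ∧ 2 * m = 3 * n + s := by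
      obtain ⟨a, rfl⟩ := hn
      rcases Int.even_or_odd a with ⟨b, rfl⟩ | ⟨b, rfl⟩
      · exact ⟨-1, 6 * b + 1, Or.inr rfl, ⟨3 * b, by ring⟩, by ring⟩
      · exact ⟨1, 6 * b + 5, Or.inl rfl, ⟨3 * b + 2, by ring⟩, by ring⟩
    obtain ⟨c, hc, n', hn', h⟩ := CS_U i m hm
    refine ⟨3 ^ i * s + 2 ^ 1 * c, ?_, n', hn', ?_⟩
    · have := CS_cons hs (by decide : Odd 1) hc
      rwa [Nat.add_comm 1 i] at this
    · have : (2 : ℤ) ^ (i + 1) * n' = 2 * (2 ^ i * n') := by ring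
      rw [this, h]
      have h3 : (3 : ℤ) ^ i * (2 * m) = 3 ^ i * (3 * n + s) := by rw [hmn]
      linear_combination h3

/-! ## rho -/

theorem rho_pos : 0 < rho := by norm_num [rho]
theorem rho_lt_one : rho < 1 := by norm_num [rho]
theorem rho_eq : rho = 3 ^ 10 / 2 ^ 16 := by norm_num [rho]
theorem rho_pow (N : ℕ) : rho ^ N = 3 ^ (10 * N) / 2 ^ (16 * N) := by
  rw [rho_eq, div_pow, pow_mul, pow_mul]
theorem rho_pow_mul (N : ℕ) : rho ^ N * 2 ^ (16 * N) = 3 ^ (10 * N) := by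
  rw [rho_pow]; field_simp
theorem rho_pow_le_one (N : ℕ) : rho ^ N ≤ 1 := pow_le_one₀ rho_pos.le rho_lt_one.le
theorem rho_pow_pos (N : ℕ) : 0 < rho ^ N := pow_pos rho_pos N
theorem rho_pow_anti {M N : ℕ} (h : M ≤ N) : rho ^ N ≤ rho ^ M :=
  pow_le_pow_of_le_one rho_pos.le rho_lt_one.le h
theorem rho_inv_pow (N : ℕ) : rho⁻¹ ^ N = (rho ^ N)⁻¹ := inv_pow _ _
theorem one_le_rho_inv_pow (N : ℕ) : 1 ≤ rho⁻¹ ^ N :=
  one_le_pow₀ (one_le_inv_iff₀.mpr ⟨rho_pos, rho_lt_one.le⟩)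
theorem rho_seven : rho ^ 7 ≤ 1 / 2 := by norm_num [rho]
theorem rho_thirty : rho ^ 30 ≤ 1 / 8 := by norm_num [rho]

theorem Full.mono {W : Set ℤ} {R R' x x' : ℝ} (h : Full W R x) (hR : R' + |x' - x| ≤ R) :
    Full W R' x' := by
  intro z hz hzx
  refine h z hz ?_
  calc |(z : ℝ) - x| = |((z : ℝ) - x') + (x' - x)| := by ring_nf
    _ ≤ |(z : ℝ) - x'| + |x' - x| := abs_add_le _ _
    _ ≤ R' + |x' - x| := by gcongr
    _ ≤ R := hR

theorem Full.anti {W : Set ℤ} {R R' x : ℝ} (h : Full W R x) (hR : R' ≤ R) : Full W R' x :=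
  h.mono (by simpa using hR)

/-! ## Finiteness -/

theorem finite_window (a b : ℝ) (P : ℤ → Prop) : {n : ℤ | P n ∧ a ≤ n ∧ n ≤ b}.Finite := by
  refine (Set.finite_Icc (⌈a⌉) (⌊b⌋)).subset ?_
  rintro n ⟨-, h1, h2⟩
  exact ⟨Int.ceil_le.mpr h1, Int.le_floor.mpr h2⟩

theorem finite_abs (B : ℝ) : {n : ℤ | |(n : ℝ)| ≤ B}.Finite := by
  refine (finite_window (-B) B (fun _ => True)).subset ?_
  intro n hn
  have := abs_le.mp (show |(n : ℝ)| ≤ B from hn)
  exact ⟨trivial, this.1, this.2⟩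

theorem uSet_finite (N : ℕ) (R : ℝ) : (uSet N R).Finite :=
  (finite_abs (R * 2 ^ (16 * N))).subset fun _ h => h.2
theorem dSet_finite (N : ℕ) (R : ℝ) : (dSet N R).Finite :=
  (finite_abs (R * 2 ^ (16 * N))).subset fun _ h => h.1
theorem disSet_finite (N : ℕ) (R : ℝ) : (disSet N R).Finite :=
  (finite_abs (R * 2 ^ (16 * N))).subset fun _ h => h.1
theorem Cls_finite (N : ℕ) (M : ℝ) : (Cls N M).Finite :=
  (Set.finite_Iio (2 ^ (16 * N + 1))).subset fun _ h => h.1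
theorem Cls2_finite (N : ℕ) : (Cls2 N).Finite :=
  (Set.finite_Iio (2 ^ (16 * N + 1))).subset fun _ h => h.1

theorem Cls_mono (N : ℕ) {M M' : ℝ} (h : M ≤ M') : Cls N M ⊆ Cls N M' := by
  rintro a ⟨ha, c, hc, hcM, hca⟩
  exact ⟨ha, c, hc, hcM.trans (by gcongr), hca⟩

theorem g_mono (N : ℕ) {M M' : ℝ} (h : M ≤ M') : g N M ≤ g N M' :=
  Set.ncard_le_ncard (Cls_mono N h) (Cls_finite N M')

theorem dis_mono (N : ℕ) {R R' : ℝ} (h : R ≤ R') : dis N R ≤ dis N R' :=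
  Set.ncard_le_ncard (fun _ hx => ⟨hx.1.trans (by gcongr), hx.2⟩) (disSet_finite N R')

theorem u_mono (N : ℕ) {R R' : ℝ} (h : R ≤ R') : u N R ≤ u N R' :=
  Set.ncard_le_ncard (fun _ hx => ⟨hx.1, hx.2.trans (by gcongr)⟩) (uSet_finite N R')

/-! ## Counting integers in intervals -/

theorem ncard_int_Ico_le (x y : ℝ) (h : x ≤ y) :
    (({n : ℤ | x ≤ n ∧ (n : ℝ) < y}.ncard : ℕ) : ℝ) ≤ y - x + 1 := by
  have hs : {n : ℤ | x ≤ n ∧ (n : ℝ) < y} = ((Finset.Ico ⌈x⌉ ⌈y⌉ : Finset ℤ) : Set ℤ) := by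
    ext n
    simp [Int.ceil_le, Int.lt_ceil]
  rw [hs, Set.ncard_coe_finset, Int.card_Ico]
  have h1 : (⌈x⌉ : ℤ) ≤ ⌈y⌉ := Int.ceil_mono h
  have h2 : (((⌈y⌉ - ⌈x⌉).toNat : ℤ) : ℝ) = ⌈y⌉ - ⌈x⌉ := by
    rw [Int.toNat_of_nonneg (by omega)]; push_cast; ring
  have h3 : ((⌈y⌉ - ⌈x⌉).toNat : ℝ) = ⌈y⌉ - ⌈x⌉ := by exact_mod_cast h2
  rw [h3]
  linarith [Int.ceil_lt_add_one y, Int.le_ceil x]

theorem le_ncard_int_Ico (x y : ℝ) :
    y - x - 1 ≤ (({n : ℤ | x ≤ n ∧ (n : ℝ) < y}.ncard : ℕ) : ℝ) := by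
  have hs : {n : ℤ | x ≤ n ∧ (n : ℝ) < y} = ((Finset.Ico ⌈x⌉ ⌈y⌉ : Finset ℤ) : Set ℤ) := by
    ext n
    simp [Int.ceil_le, Int.lt_ceil]
  rw [hs, Set.ncard_coe_finset, Int.card_Ico]
  have h2 : ((⌈y⌉ - ⌈x⌉ : ℤ) : ℝ) ≤ ((⌈y⌉ - ⌈x⌉).toNat : ℝ) := by
    exact_mod_cast Int.self_le_toNat _
  refine le_trans ?_ h2
  push_cast
  linarith [Int.ceil_lt_add_one x, Int.le_ceil y]

/-- Odd integers in `[x, y)`: the parametrisation. -/
theorem odd_Ico_eq (x y : ℝ) : {n : ℤ | Odd n ∧ x ≤ n ∧ (n : ℝ) < y} =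
    (fun m : ℤ => 2 * m + 1) '' {m : ℤ | (x - 1) / 2 ≤ m ∧ (m : ℝ) < (y - 1) / 2} := by
  ext n
  constructor
  · rintro ⟨⟨m, rfl⟩, h1, h2⟩
    push_cast at h1 h2
    exact ⟨m, ⟨by linarith, by linarith⟩, rfl⟩
  · rintro ⟨m, ⟨h1, h2⟩, rfl⟩
    refine ⟨⟨m, rfl⟩, ?_, ?_⟩ <;> push_cast <;> linarith

theorem odd_finite (x y : ℝ) : {n : ℤ | Odd n ∧ x ≤ n ∧ (n : ℝ) < y}.Finite := by
  refine (finite_window x y (fun n => Odd n)).subset ?_
  rintro n ⟨h0, h1, h2⟩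
  exact ⟨h0, h1, h2.le⟩

theorem ncard_odd_Ico_le (x y : ℝ) (h : x ≤ y) :
    (({n : ℤ | Odd n ∧ x ≤ n ∧ (n : ℝ) < y}.ncard : ℕ) : ℝ) ≤ (y - x) / 2 + 1 := by
  rw [odd_Ico_eq, Set.ncard_image_of_injective _ (fun a b hab => by
    have hab' : 2 * a + 1 = 2 * b + 1 := hab
    omega)]
  refine (ncard_int_Ico_le _ _ (by linarith)).trans (le_of_eq (by ring))

theorem le_ncard_odd_Ico (x y : ℝ) :
    (y - x) / 2 - 1 ≤ (({n : ℤ | Odd n ∧ x ≤ n ∧ (n : ℝ) < y}.ncard : ℕ) : ℝ) := by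
  rw [odd_Ico_eq, Set.ncard_image_of_injective _ (fun a b hab => by
    have hab' : 2 * a + 1 = 2 * b + 1 := hab
    omega)]
  refine le_trans (le_of_eq (by ring)) (le_ncard_int_Ico _ _)

/-- Fibres: if every fibre of `f` on `A` has at most `k` elements then `|A| ≤ k |f(A)|`. -/
theorem ncard_le_mul_ncard {A B : Set ℤ} (f : ℤ → ℤ) (k : ℝ) (hA : A.Finite) (hB : B.Finite)
    (hf : ∀ a ∈ A, f a ∈ B) (hk : ∀ b ∈ B, (({a ∈ A | f a = b}.ncard : ℕ) : ℝ) ≤ k) :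
    (A.ncard : ℝ) ≤ k * B.ncard := by
  classical
  have h1 : A.ncard = ∑ b ∈ hB.toFinset, {a ∈ A | f a = b}.ncard := by
    rw [Set.ncard_eq_toFinset_card A hA]
    rw [Finset.card_eq_sum_card_fiberwise (f := f) (t := hB.toFinset)]
    · refine Finset.sum_congr rfl fun b _ => ?_
      rw [← Set.ncard_coe_finset]
      congr 1
      ext a; simp
    · intro a ha
      simp only [Finset.mem_coe, Set.Finite.mem_toFinset] at ha ⊢
      exact hf a ha
  rw [h1, Set.ncard_eq_toFinset_card B hB]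
  push_cast
  calc ∑ b ∈ hB.toFinset, (({a ∈ A | f a = b}.ncard : ℕ) : ℝ) ≤ ∑ _b ∈ hB.toFinset, k :=
        Finset.sum_le_sum fun b hb => hk b (by simpa using hb)
    _ = k * hB.toFinset.card := by rw [Finset.sum_const, nsmul_eq_mul]; ring

/-- Periodic sets: if membership in `E` depends only on the class modulo `m`, then in `[a,b)`
there are at most `r ((b-a)/m + 1)` elements of `E`, where `r` is the number of classes. -/
theorem periodic_count (E : Set ℤ) (m : ℕ) (hm : 0 < m) (hE : ∀ n : ℤ, n ∈ E ↔ n % m ∈ E)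
    (a b : ℤ) (hab : a ≤ b) :
    (({n : ℤ | n ∈ E ∧ a ≤ n ∧ n < b}.ncard : ℕ) : ℝ) ≤
      (({n : ℤ | n ∈ E ∧ 0 ≤ n ∧ n < m}.ncard : ℕ) : ℝ) * (((b : ℝ) - a) / m + 1) := by
  have hm' : (0 : ℝ) < m := by exact_mod_cast hm
  have hfin1 : {n : ℤ | n ∈ E ∧ a ≤ n ∧ n < b}.Finite :=
    (Set.finite_Ico a b).subset fun n hn => ⟨hn.2.1, hn.2.2⟩
  have hfin2 : {n : ℤ | n ∈ E ∧ 0 ≤ n ∧ n < m}.Finite :=
    (Set.finite_Ico (0 : ℤ) m).subset fun n hn => ⟨hn.2.1, hn.2.2⟩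
  have key := ncard_le_mul_ncard (A := {n : ℤ | n ∈ E ∧ a ≤ n ∧ n < b})
    (B := {n : ℤ | n ∈ E ∧ 0 ≤ n ∧ n < m}) (fun n => n % m) (((b : ℝ) - a) / m + 1) hfin1 hfin2 ?_ ?_
  · rw [mul_comm]; exact key
  · rintro n ⟨h1, h2, h3⟩
    refine ⟨(hE n).mp h1, Int.emod_nonneg _ (by omega), Int.emod_lt_of_pos _ (by omega)⟩
  · rintro r ⟨h1, h2, h3⟩
    have hsub : {n ∈ {n : ℤ | n ∈ E ∧ a ≤ n ∧ n < b} | n % (m : ℤ) = r} ⊆
        (fun q : ℤ => r + m * q) '' {q : ℤ | ((a : ℝ) - r) / m ≤ q ∧ (q : ℝ) < ((b : ℝ) - r) / m} := by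
      rintro n ⟨⟨_, h5, h6⟩, h7⟩
      have h7' : n % (m : ℤ) = r := h7
      have h8 : n = r + m * (n / m) := by
        have := Int.emod_add_mul_ediv n m
        rw [h7'] at this; exact this.symm
      refine ⟨n / m, ⟨?_, ?_⟩, h8.symm⟩
      · rw [div_le_iff₀ hm']
        have : (a : ℝ) ≤ r + m * ((n / m : ℤ) : ℝ) := by
          have : a ≤ r + m * (n / m) := by rw [← h8]; exact h5
          exact_mod_cast this
        linarith
      · rw [lt_div_iff₀ hm']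
        have : (r : ℝ) + m * ((n / m : ℤ) : ℝ) < b := by
          have : r + m * (n / m) < b := by rw [← h8]; exact h6
          exact_mod_cast this
        linarith
    have hfin3 : {q : ℤ | ((a : ℝ) - r) / m ≤ q ∧ (q : ℝ) < ((b : ℝ) - r) / m}.Finite := by
      refine (finite_window (((a : ℝ) - r) / m) (((b : ℝ) - r) / m) (fun _ => True)).subset ?_
      rintro q ⟨h1, h2⟩
      exact ⟨trivial, h1, h2.le⟩
    have h9 := Set.ncard_le_ncard hsub (hfin3.image _)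
    have h10 := Set.ncard_image_le (f := fun q : ℤ => r + m * q) hfin3
    have h11 := ncard_int_Ico_le (((a : ℝ) - r) / m) (((b : ℝ) - r) / m) (by
      have : (a : ℝ) ≤ b := by exact_mod_cast hab
      gcongr)
    have h12 : ((b : ℝ) - r) / m - ((a : ℝ) - r) / m + 1 = ((b : ℝ) - a) / m + 1 := by ring
    rw [h12] at h11
    refine le_trans ?_ h11
    exact_mod_cast h9.trans h10

/-- The nearest odd integer. -/
noncomputable def nod (x : ℝ) : ℤ := 2 * ⌊x / 2⌋ + 1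

theorem nod_odd (x : ℝ) : Odd (nod x) := ⟨_, rfl⟩

theorem nod_le (x : ℝ) : (nod x : ℝ) - 1 ≤ x := by
  unfold nod; push_cast
  linarith [Int.floor_le (x / 2)]

theorem lt_nod (x : ℝ) : x < (nod x : ℝ) + 1 := by
  unfold nod; push_cast
  linarith [Int.lt_floor_add_one (x / 2)]

theorem abs_nod_sub (x : ℝ) : |(nod x : ℝ) - x| ≤ 1 := by
  rw [abs_le]; constructor <;> linarith [nod_le x, lt_nod x]

theorem nod_eq_iff (x : ℝ) (m : ℤ) (hm : Odd m) : nod x = m ↔ (m : ℝ) - 1 ≤ x ∧ x < m + 1 := by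
  constructor
  · rintro rfl; exact ⟨nod_le x, lt_nod x⟩
  · rintro ⟨h1, h2⟩
    obtain ⟨k, rfl⟩ := hm
    unfold nod
    have : ⌊x / 2⌋ = k := by
      rw [Int.floor_eq_iff]
      push_cast at h1 h2
      constructor <;> linarith
    rw [this]

end Pool.Agent.Lib.MP7f8c3e
end

section
/-! # TINF: the potential function -/
namespace Pool.Agent.Lib.MP7f8c3e.TinfM

open Pool.Agent.Lib.MP7f8c3e

/-- `x` has a solitaire path with `T` steps and `T + 2 A` halvings to an odd number. -/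
def Rep (T A : ℕ) : Set ℤ :=
  {x | ∃ c ∈ CS T (T + 2 * A), ∃ z : ℤ, Odd z ∧ 2 ^ (T + 2 * A) * z = 3 ^ T * x + c}

theorem Rep_neg {T A : ℕ} {x : ℤ} (h : x ∈ Rep T A) : -x ∈ Rep T A := by
  obtain ⟨c, hc, z, hz, e⟩ := h
  exact ⟨-c, CS_neg hc, -z, hz.neg, by linear_combination -e⟩

theorem Rep_add {T A : ℕ} {x : ℤ} (q : ℤ) (h : x ∈ Rep T A) : x + 2 ^ (T + 2 * A + 1) * q ∈ Rep T A := by
  obtain ⟨c, hc, z, hz, e⟩ := h
  refine ⟨c, hc, z + 2 * (3 ^ T * q), hz.add_even ⟨3 ^ T * q, by ring⟩, ?_⟩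
  rw [pow_succ]
  linear_combination e

theorem Rep_step {T A j : ℕ} {x x' s : ℤ} (hs : s = 1 ∨ s = -1) (e : 3 * x + s = 2 ^ (1 + 2 * j) * x')
    (h : x' ∈ Rep T A) : x ∈ Rep (T + 1) (A + j) := by
  obtain ⟨c, hc, z, hz, e'⟩ := h
  refine ⟨3 ^ T * s + 2 ^ (1 + 2 * j) * c, ?_, z, hz, ?_⟩
  · have := CS_cons hs (⟨j, by ring⟩ : Odd (1 + 2 * j)) hc
    rwa [show T + 1 + 2 * (A + j) = 1 + 2 * j + (T + 2 * A) by ring]
  · have h1 : (2 : ℤ) ^ (T + 1 + 2 * (A + j)) = 2 ^ (1 + 2 * j) * 2 ^ (T + 2 * A) := by ring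
    rw [h1]
    linear_combination (2 : ℤ) ^ (1 + 2 * j) * e' - 3 ^ T * e

/-- `U` moves. -/
theorem Rep_U {T A : ℕ} {x x' s : ℤ} (hs : s = 1 ∨ s = -1) (e : 3 * x + s = 2 * x')
    (h : x' ∈ Rep T A) : x ∈ Rep (T + 1) A := by
  have := Rep_step (j := 0) hs (by simpa using e) h
  simpa using this

theorem Rep_zero {T : ℕ} {x : ℤ} (hx : Odd x) : x ∈ Rep T 0 := by
  obtain ⟨c, hc, n', hn', e⟩ := CS_U T x hx
  exact ⟨c, by simpa using hc, n', hn', by simpa using e⟩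

/-- Counting on `[0, 2^j)`. -/
noncomputable def cnt (P : ℤ → Prop) (j : ℕ) : ℕ := by
  classical exact ((Finset.range (2 ^ j)).filter (fun m : ℕ => P (m : ℤ))).card

theorem cnt_mono {P Q : ℤ → Prop} (j : ℕ) (h : ∀ m, P m → Q m) : cnt P j ≤ cnt Q j := by
  classical
  unfold cnt
  exact Finset.card_le_card (Finset.monotone_filter_right _ fun m _ => h m)

theorem cnt_le (P : ℤ → Prop) (j : ℕ) : cnt P j ≤ 2 ^ j := by
  classical
  unfold cnt
  exact (Finset.card_filter_le _ _).trans (by simp)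

theorem cnt_split (P : ℤ → Prop) (j : ℕ) :
    cnt P (j + 1) = cnt (fun m => P (2 * m)) j + cnt (fun m => P (2 * m + 1)) j := by
  classical
  unfold cnt
  have h0 : (Finset.range (2 ^ (j + 1))).filter (fun m : ℕ => P (m : ℤ)) =
      ((Finset.range (2 ^ j)).filter (fun m : ℕ => P (2 * (m : ℤ)))).image (fun m : ℕ => 2 * m) ∪
      ((Finset.range (2 ^ j)).filter (fun m : ℕ => P (2 * (m : ℤ) + 1))).image
        (fun m : ℕ => 2 * m + 1) := by
    ext m
    simp only [Finset.mem_filter, Finset.mem_range, Finset.mem_union, Finset.mem_image, pow_succ]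
    constructor
    · rintro ⟨h1, h2⟩
      rcases Nat.even_or_odd' m with ⟨q, rfl | rfl⟩
      · left; exact ⟨q, ⟨by omega, by push_cast at h2; exact h2⟩, rfl⟩
      · right; exact ⟨q, ⟨by omega, by push_cast at h2; exact h2⟩, rfl⟩
    · rintro (⟨q, ⟨h1, h2⟩, rfl⟩ | ⟨q, ⟨h1, h2⟩, rfl⟩)
      · exact ⟨by omega, by push_cast; exact h2⟩
      · exact ⟨by omega, by push_cast; exact h2⟩
  rw [h0, Finset.card_union_of_disjoint, Finset.card_image_of_injective, Finset.card_image_of_injective]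
  · intro a b hab; simpa using hab
  · intro a b hab; simpa using hab
  · rw [Finset.disjoint_left]
    intro m hm hm'
    simp only [Finset.mem_image] at hm hm'
    obtain ⟨a, _, rfl⟩ := hm
    obtain ⟨b, _, h⟩ := hm'
    omega

/-- Affine invariance. -/
theorem cnt_affine (P : ℤ → Prop) (j : ℕ) (hP : ∀ m q : ℤ, P m → P (m + 2 ^ j * q)) (α β : ℤ)
    (hα : Odd α) : cnt (fun m => P (α * m + β)) j ≤ cnt P j := by
  classical
  unfold cnt
  have hpos : (0 : ℤ) < 2 ^ j := by positivity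
  refine Finset.card_le_card_of_injOn (fun m : ℕ => ((α * m + β) % 2 ^ j).toNat) ?_ ?_
  · intro m hm
    simp only [Finset.coe_filter, Finset.mem_range, Set.mem_ofPred_eq] at hm ⊢
    have h1 := Int.emod_nonneg (α * m + β) hpos.ne'
    have h2 := Int.emod_lt_of_pos (α * m + β) hpos
    refine ⟨?_, ?_⟩
    · have : (((α * m + β) % 2 ^ j).toNat : ℤ) < ((2 ^ j : ℕ) : ℤ) := by
        rw [Int.toNat_of_nonneg h1]; push_cast; exact h2
      exact_mod_cast this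
    · rw [Int.toNat_of_nonneg h1]
      have := hP _ (-((α * m + β) / 2 ^ j)) hm.2
      have e : (α * m + β) + 2 ^ j * (-((α * m + β) / 2 ^ j)) = (α * m + β) % 2 ^ j := by
        have := Int.emod_add_mul_ediv (α * m + β) (2 ^ j)
        linarith
      rwa [e] at this
  · intro m hm m' hm' h
    simp only [Finset.coe_filter, Finset.mem_range, Set.mem_ofPred_eq] at hm hm'
    have h1 := Int.emod_nonneg (α * m + β) hpos.ne'
    have h1' := Int.emod_nonneg (α * m' + β) hpos.ne'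
    have h2 : (α * m + β) % 2 ^ j = (α * m' + β) % 2 ^ j := by
      have : (((α * m + β) % 2 ^ j).toNat : ℤ) = (((α * m' + β) % 2 ^ j).toNat : ℤ) := by
        exact_mod_cast h
      rwa [Int.toNat_of_nonneg h1, Int.toNat_of_nonneg h1'] at this
    have h3 : (2 : ℤ) ^ j ∣ α * m - α * m' := by
      have := (Int.emod_emod_of_dvd (α * m + β) (dvd_refl ((2 : ℤ) ^ j)))
      have h4 := Int.ModEq.dvd (show (α * m' + β) ≡ (α * m + β) [ZMOD 2 ^ j] from h2.symm)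
      have e : α * m + β - (α * m' + β) = α * m - α * m' := by ring
      rwa [e] at h4
    have h4 : (2 : ℤ) ^ j ∣ ((m : ℤ) - m') := by
      have hc : IsCoprime ((2 : ℤ) ^ j) α := by
        refine IsCoprime.pow_left ?_
        obtain ⟨a, rfl⟩ := hα
        exact ⟨-a, 1, by ring⟩
      refine hc.dvd_of_dvd_mul_left ?_
      rwa [mul_sub]
    have h5 : |(m : ℤ) - m'| < 2 ^ j := by
      have a1 : (m : ℤ) < 2 ^ j := by exact_mod_cast hm.1
      have a2 : (m' : ℤ) < 2 ^ j := by exact_mod_cast hm'.1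
      rw [abs_lt]; constructor <;> omega
    have h6 := Int.eq_zero_of_abs_lt_dvd h4 h5
    omega

def bN (T A : ℕ) : ℤ → Prop := fun m => 1 + 4 * m ∉ Rep T A
def bR (T A : ℕ) : ℤ → Prop := fun m => 5 + 8 * m ∉ Rep T A

theorem bN_per (T A j : ℕ) (hj : j + 2 = T + 2 * A + 1) (m q : ℤ) (h : bN T A m) :
    bN T A (m + 2 ^ j * q) := by
  intro h'
  apply h
  have := Rep_add (-q) h'
  have e : (2 : ℤ) ^ (T + 2 * A + 1) = 4 * 2 ^ j := by rw [← hj, pow_add]; ring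
  rw [e] at this
  convert this using 1; ring

theorem bR_per (T A j : ℕ) (hj : j + 3 = T + 2 * A + 1) (m q : ℤ) (h : bR T A m) :
    bR T A (m + 2 ^ j * q) := by
  intro h'
  apply h
  have := Rep_add (-q) h'
  have e : (2 : ℤ) ^ (T + 2 * A + 1) = 8 * 2 ^ j := by rw [← hj, pow_add]; ring
  rw [e] at this
  convert this using 1; ring

noncomputable def BN (T A : ℕ) : ℕ := cnt (bN T A) (T + 2 * A - 1)
noncomputable def BR (T A : ℕ) : ℕ := cnt (bR T A) (T + 2 * A - 2)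

theorem cnt_bN {T A j : ℕ} (hj : j + 1 = T + 2 * A) (α β : ℤ) (hα : Odd α) :
    cnt (fun m => bN T A (α * m + β)) j ≤ BN T A := by
  have : BN T A = cnt (bN T A) j := by unfold BN; congr 1; omega
  rw [this]
  exact cnt_affine _ _ (bN_per T A j (by omega)) α β hα

theorem cnt_bR {T A j : ℕ} (hj : j + 2 = T + 2 * A) (α β : ℤ) (hα : Odd α) :
    cnt (fun m => bR T A (α * m + β)) j ≤ BR T A := by
  have : BR T A = cnt (bR T A) j := by unfold BR; congr 1; omega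
  rw [this]
  exact cnt_affine _ _ (bR_per T A j (by omega)) α β hα

/-- `5 + 6 m`, `m` running over a full period: type `N` twice. -/
theorem cnt_odd6 {T A j : ℕ} (hj : j + 1 = T + 2 * A) :
    cnt (fun m => 5 + 6 * m ∉ Rep T A) (j + 1) ≤ 2 * BN T A := by
  rw [cnt_split]
  have h1 : cnt (fun m => 5 + 6 * (2 * m) ∉ Rep T A) j ≤ BN T A := by
    refine (cnt_mono j ?_).trans (cnt_bN hj 3 1 (by decide))
    intro m hm h
    apply hm; convert h using 1; ring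
  have h2 : cnt (fun m => 5 + 6 * (2 * m + 1) ∉ Rep T A) j ≤ BN T A := by
    refine (cnt_mono j ?_).trans (cnt_bN hj (-3) (-3) (by decide))
    intro m hm h
    apply hm
    have := Rep_neg h
    convert this using 1; ring
  omega

theorem recN {T A : ℕ} (hA : 1 ≤ A) : BN (T + 1) A ≤ BN T A + BR (T + 1) A := by
  obtain ⟨j, hj⟩ : ∃ j, T + 2 * A = j + 1 := ⟨T + 2 * A - 1, by omega⟩
  have h0 : BN (T + 1) A = cnt (bN (T + 1) A) (j + 1) := by unfold BN; congr 1; omega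
  rw [h0, cnt_split]
  have h1 : cnt (fun m => bN (T + 1) A (2 * m)) j ≤ BN T A := by
    refine (cnt_mono j ?_).trans (cnt_bN (by omega) 3 0 (by decide))
    intro m hm h
    apply hm
    refine Rep_U (s := -1) (Or.inr rfl) ?_ h
    ring
  have h2 : cnt (fun m => bN (T + 1) A (2 * m + 1)) j ≤ BR (T + 1) A := by
    have : BR (T + 1) A = cnt (bR (T + 1) A) j := by unfold BR; congr 1; omega
    rw [this]
    refine cnt_mono j ?_
    intro m hm h
    apply hm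
    have h' : 5 + 8 * m ∈ Rep (T + 1) A := h
    convert h' using 1; ring
  omega

/-- Three of the four lines of (R). -/
theorem recR_aux {T A : ℕ} :
    BR (T + 4) (A + 1) ≤ 2 * BN (T + 3) A + BR (T + 2) (A + 1) +
      cnt (fun m => 53 + 64 * m ∉ Rep (T + 4) (A + 1)) (T + 2 * A + 1) + BN T (A + 1) := by
  -- K = T + 4 + 2 A + 2 = T + 2 A + 6; K - 2 = T + 2 A + 4
  have h0 : BR (T + 4) (A + 1) = cnt (bR (T + 4) (A + 1)) (T + 2 * A + 3 + 1) := by
    unfold BR; congr 1; omega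
  rw [h0, cnt_split]
  have h1 : cnt (fun m => bR (T + 4) (A + 1) (2 * m + 1)) (T + 2 * A + 3) ≤ 2 * BN (T + 3) A := by
    refine (cnt_mono _ ?_).trans (cnt_odd6 (T := T + 3) (A := A) (j := T + 2 * A + 2) (by omega))
    intro m hm h
    apply hm
    refine Rep_step (T := T + 3) (A := A) (j := 1) (s := 1) (Or.inl rfl) ?_ h
    ring
  have h2 : cnt (fun m => bR (T + 4) (A + 1) (2 * m)) (T + 2 * A + 3) ≤ BR (T + 2) (A + 1) +
      cnt (fun m => 53 + 64 * m ∉ Rep (T + 4) (A + 1)) (T + 2 * A + 1) + BN T (A + 1) := by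
    rw [show T + 2 * A + 3 = (T + 2 * A + 2) + 1 by ring, cnt_split]
    have h3 : cnt (fun m => bR (T + 4) (A + 1) (2 * (2 * m))) (T + 2 * A + 2) ≤
        BR (T + 2) (A + 1) := by
      refine (cnt_mono _ ?_).trans (cnt_bR (T := T + 2) (A := A + 1) (by omega) (-9) (-2) (by decide))
      intro m hm h
      apply hm
      have h' : 5 + 8 * (-9 * m + -2) ∈ Rep (T + 2) (A + 1) := h
      have h4 := Rep_neg h'
      have h5 : 7 + 48 * m ∈ Rep (T + 3) (A + 1) :=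
        Rep_U (s := 1) (Or.inl rfl) (by ring) h4
      exact Rep_U (T := T + 3) (s := -1) (Or.inr rfl) (by ring) h5
    have h4 : cnt (fun m => bR (T + 4) (A + 1) (2 * (2 * m + 1))) (T + 2 * A + 2) ≤
        cnt (fun m => 53 + 64 * m ∉ Rep (T + 4) (A + 1)) (T + 2 * A + 1) + BN T (A + 1) := by
      rw [show T + 2 * A + 2 = (T + 2 * A + 1) + 1 by ring, cnt_split]
      have h5 : cnt (fun m => bR (T + 4) (A + 1) (2 * (2 * (2 * m) + 1))) (T + 2 * A + 1) ≤
          BN T (A + 1) := by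
        refine (cnt_mono _ ?_).trans (cnt_bN (T := T) (A := A + 1) (by omega) (-81) (-27) (by decide))
        intro m hm h
        apply hm
        have h' : 1 + 4 * (-81 * m + -27) ∈ Rep T (A + 1) := h
        have h6 := Rep_neg h'
        have h7 : 71 + 216 * m ∈ Rep (T + 1) (A + 1) := Rep_U (s := 1) (Or.inl rfl) (by ring) h6
        have h8 : 47 + 144 * m ∈ Rep (T + 2) (A + 1) := Rep_U (s := 1) (Or.inl rfl) (by ring) h7
        have h9 : 31 + 96 * m ∈ Rep (T + 3) (A + 1) := Rep_U (s := 1) (Or.inl rfl) (by ring) h8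
        exact Rep_U (T := T + 3) (s := -1) (Or.inr rfl) (by ring) h9
      have h6 : cnt (fun m => bR (T + 4) (A + 1) (2 * (2 * (2 * m + 1) + 1))) (T + 2 * A + 1) ≤
          cnt (fun m => 53 + 64 * m ∉ Rep (T + 4) (A + 1)) (T + 2 * A + 1) := by
        refine cnt_mono _ ?_
        intro m hm h
        apply hm
        convert h using 1; ring
      omega
    omega
  omega

theorem recR1 {T : ℕ} : BR (T + 4) 1 ≤ BR (T + 2) 1 + BR (T + 1) 1 + BN T 1 + 2 * BN (T + 3) 0 := by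
  have h := recR_aux (T := T) (A := 0)
  have h1 : cnt (fun m => 53 + 64 * m ∉ Rep (T + 4) (0 + 1)) (T + 2 * 0 + 1) ≤ BR (T + 1) 1 := by
    refine (cnt_mono _ ?_).trans (cnt_bR (T := T + 1) (A := 1) (by omega) (-27) (-23) (by decide))
    intro m hm h
    apply hm
    have h' : 5 + 8 * (-27 * m + -23) ∈ Rep (T + 1) 1 := h
    have h6 := Rep_neg h'
    have h7 : 119 + 144 * m ∈ Rep (T + 2) 1 := Rep_U (s := 1) (Or.inl rfl) (by ring) h6
    have h8 : 79 + 96 * m ∈ Rep (T + 3) 1 := Rep_U (s := 1) (Or.inl rfl) (by ring) h7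
    exact Rep_U (T := T + 3) (s := -1) (Or.inr rfl) (by ring) h8
  simp only [Nat.zero_add] at h
  simp only [Nat.zero_add] at h1
  omega

theorem recR2 {T A : ℕ} : BR (T + 4) (A + 2) ≤ 2 * BN (T + 3) (A + 1) + BR (T + 2) (A + 2) +
    2 * BN (T + 3) A + BN T (A + 2) := by
  have h : BR (T + 4) (A + 2) ≤ 2 * BN (T + 3) (A + 1) + BR (T + 2) (A + 2) +
      cnt (fun m => 53 + 64 * m ∉ Rep (T + 4) (A + 2)) (T + 2 * (A + 1) + 1) + BN T (A + 2) :=
    recR_aux (T := T) (A := A + 1)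
  have h1 : cnt (fun m => 53 + 64 * m ∉ Rep (T + 4) (A + 2)) (T + 2 * (A + 1) + 1) ≤
      2 * BN (T + 3) A := by
    rw [show T + 2 * (A + 1) + 1 = (T + 2 * A + 2) + 1 by ring]
    refine (cnt_mono _ ?_).trans (cnt_odd6 (T := T + 3) (A := A) (j := T + 2 * A + 2) (by omega))
    intro m hm h
    apply hm
    exact Rep_step (T := T + 3) (A := A) (j := 2) (s := 1) (Or.inl rfl) (by ring) h
  omega

theorem BN_zero (T : ℕ) : BN T 0 = 0 := by
  classical
  unfold BN cnt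
  rw [Finset.card_eq_zero, Finset.filter_eq_empty_iff]
  intro m _ h
  exact h (Rep_zero ⟨2 * m, by ring⟩)

theorem BR_zero (T : ℕ) : BR T 0 = 0 := by
  classical
  unfold BR cnt
  rw [Finset.card_eq_zero, Finset.filter_eq_empty_iff]
  intro m _ h
  exact h (Rep_zero ⟨2 + 4 * m, by ring⟩)

/-- The potential. -/
noncomputable def V (T A : ℕ) : ℝ := (60 / 61) ^ T * (19 / 18) ^ A

theorem V_pos (T A : ℕ) : 0 < V T A := by unfold V; positivity

theorem bound : ∀ T A : ℕ, (BN T A : ℝ) ≤ 2 ^ (T + 2 * A) * V T A ∧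
    2 * (BR T A : ℝ) ≤ 59 / 60 * (2 ^ (T + 2 * A) * V T A) := by
  intro T
  induction T using Nat.strong_induction_on with
  | _ T ih =>
    intro A
    rcases Nat.eq_zero_or_pos A with rfl | hA
    · rw [BN_zero, BR_zero]
      have := V_pos T 0
      constructor <;> simp <;> positivity
    · rcases lt_or_ge T 4 with hT | hT
      · have hV : (9 / 10 : ℝ) ≤ V T A := by
          unfold V
          have h1 : (60 / 61 : ℝ) ^ 3 ≤ (60 / 61) ^ T :=
            pow_le_pow_of_le_one (by norm_num) (by norm_num) (by omega)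
          have h2 : (1 : ℝ) ≤ (19 / 18) ^ A := one_le_pow₀ (by norm_num)
          have h3 : (9 / 10 : ℝ) ≤ (60 / 61) ^ 3 := by norm_num
          nlinarith
        have hN : BN T A ≤ 2 ^ (T + 2 * A - 1) := cnt_le _ _
        have hR : BR T A ≤ 2 ^ (T + 2 * A - 2) := cnt_le _ _
        have hN' : (BN T A : ℝ) ≤ 2 ^ (T + 2 * A - 1) := by exact_mod_cast hN
        have hR' : (BR T A : ℝ) ≤ 2 ^ (T + 2 * A - 2) := by exact_mod_cast hR
        obtain ⟨j, hj⟩ : ∃ j, T + 2 * A = j + 2 := ⟨T + 2 * A - 2, by omega⟩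
        rw [hj] at hN' hR' ⊢
        have e1 : j + 2 - 1 = j + 1 := by omega
        have e2 : j + 2 - 2 = j := by omega
        rw [e1] at hN'
        rw [e2] at hR'
        have hp : (0 : ℝ) < 2 ^ j := by positivity
        have e3 : (2 : ℝ) ^ (j + 2) = 4 * 2 ^ j := by ring
        have e4 : (2 : ℝ) ^ (j + 1) = 2 * 2 ^ j := by ring
        rw [e3]; rw [e4] at hN'
        constructor <;> nlinarith
      · obtain ⟨t, rfl⟩ : ∃ t, T = t + 4 := ⟨T - 4, by omega⟩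
        -- first (R), then (N)
        have hp : (0 : ℝ) < 2 ^ (t + 2 * A) := by positivity
        have hRR : 2 * (BR (t + 4) A : ℝ) ≤ 59 / 60 * (2 ^ (t + 4 + 2 * A) * V (t + 4) A) := by
          rcases Nat.lt_or_ge A 2 with hA2 | hA2
          · obtain rfl : A = 1 := by omega
            have h1 : (BR (t + 4) 1 : ℝ) ≤ BR (t + 2) 1 + BR (t + 1) 1 + BN t 1 := by
              have h := recR1 (T := t)
              rw [BN_zero] at h
              have h' : BR (t + 4) 1 ≤ BR (t + 2) 1 + BR (t + 1) 1 + BN t 1 := by omega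
              exact_mod_cast h'
            have i1 := (ih (t + 2) (by omega) 1).2
            have i2 := (ih (t + 1) (by omega) 1).2
            have i3 := (ih t (by omega) 1).1
            have v1 : V (t + 2) 1 = (60 / 61) ^ 2 * V t 1 := by unfold V; ring
            have v2 : V (t + 1) 1 = (60 / 61) * V t 1 := by unfold V; ring
            have v3 : V (t + 4) 1 = (60 / 61) ^ 4 * V t 1 := by unfold V; ring
            rw [v1] at i1; rw [v2] at i2; rw [v3]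
            have p1 : (2 : ℝ) ^ (t + 2 + 2 * 1) = 4 * 2 ^ (t + 2 * 1) := by ring
            have p2 : (2 : ℝ) ^ (t + 1 + 2 * 1) = 2 * 2 ^ (t + 2 * 1) := by ring
            have p3 : (2 : ℝ) ^ (t + 4 + 2 * 1) = 16 * 2 ^ (t + 2 * 1) := by ring
            rw [p1] at i1; rw [p2] at i2; rw [p3]
            have hX : 0 < (2 : ℝ) ^ (t + 2 * 1) * V t 1 := mul_pos hp (V_pos t 1)
            set X := (2 : ℝ) ^ (t + 2 * 1) * V t 1 with hXd
            have j1 : 2 * (BR (t + 2) 1 : ℝ) ≤ 59 / 60 * (4 * (60 / 61) ^ 2) * X := by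
              rw [hXd]; linarith
            have j2 : 2 * (BR (t + 1) 1 : ℝ) ≤ 59 / 60 * (2 * (60 / 61)) * X := by
              rw [hXd]; linarith
            have j3 : (59 : ℝ) / 60 * (16 * 2 ^ (t + 2 * 1) * ((60 / 61) ^ 4 * V t 1)) =
                59 / 60 * (16 * (60 / 61) ^ 4) * X := by rw [hXd]; ring
            rw [j3]
            nlinarith
          · obtain ⟨a, rfl⟩ : ∃ a, A = a + 2 := ⟨A - 2, by omega⟩
            have h1 : (BR (t + 4) (a + 2) : ℝ) ≤ 2 * BN (t + 3) (a + 1) + BR (t + 2) (a + 2) +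
                2 * BN (t + 3) a + BN t (a + 2) := by
              exact_mod_cast recR2 (T := t) (A := a)
            have i1 := (ih (t + 3) (by omega) (a + 1)).1
            have i2 := (ih (t + 2) (by omega) (a + 2)).2
            have i3 := (ih (t + 3) (by omega) a).1
            have i4 := (ih t (by omega) (a + 2)).1
            have v1 : V (t + 3) (a + 1) = (60 / 61) ^ 3 * (19 / 18) * V t a := by unfold V; ring
            have v2 : V (t + 2) (a + 2) = (60 / 61) ^ 2 * (19 / 18) ^ 2 * V t a := by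
              unfold V; ring
            have v3 : V (t + 3) a = (60 / 61) ^ 3 * V t a := by unfold V; ring
            have v4 : V t (a + 2) = (19 / 18) ^ 2 * V t a := by unfold V; ring
            have v5 : V (t + 4) (a + 2) = (60 / 61) ^ 4 * (19 / 18) ^ 2 * V t a := by
              unfold V; ring
            rw [v1] at i1; rw [v2] at i2; rw [v3] at i3; rw [v4] at i4; rw [v5]
            have p1 : (2 : ℝ) ^ (t + 3 + 2 * (a + 1)) = 32 * 2 ^ (t + 2 * a) := by ring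
            have p2 : (2 : ℝ) ^ (t + 2 + 2 * (a + 2)) = 64 * 2 ^ (t + 2 * a) := by ring
            have p3 : (2 : ℝ) ^ (t + 3 + 2 * a) = 8 * 2 ^ (t + 2 * a) := by ring
            have p4 : (2 : ℝ) ^ (t + 2 * (a + 2)) = 16 * 2 ^ (t + 2 * a) := by ring
            have p5 : (2 : ℝ) ^ (t + 4 + 2 * (a + 2)) = 256 * 2 ^ (t + 2 * a) := by ring
            rw [p1] at i1; rw [p2] at i2; rw [p3] at i3; rw [p4] at i4; rw [p5]
            have hX : 0 < (2 : ℝ) ^ (t + 2 * a) * V t a := mul_pos (by positivity) (V_pos t a)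
            set X := (2 : ℝ) ^ (t + 2 * a) * V t a with hXd
            have j1 : (BN (t + 3) (a + 1) : ℝ) ≤ 32 * ((60 / 61) ^ 3 * (19 / 18)) * X := by
              rw [hXd]; linarith
            have j2 : 2 * (BR (t + 2) (a + 2) : ℝ) ≤
                59 / 60 * (64 * ((60 / 61) ^ 2 * (19 / 18) ^ 2)) * X := by
              rw [hXd]; linarith
            have j3 : (BN (t + 3) a : ℝ) ≤ 8 * (60 / 61) ^ 3 * X := by
              rw [hXd]; linarith
            have j4 : (BN t (a + 2) : ℝ) ≤ 16 * (19 / 18) ^ 2 * X := by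
              rw [hXd]; linarith
            have j5 : (59 : ℝ) / 60 * (256 * 2 ^ (t + 2 * a) *
                ((60 / 61) ^ 4 * (19 / 18) ^ 2 * V t a)) =
                59 / 60 * (256 * ((60 / 61) ^ 4 * (19 / 18) ^ 2)) * X := by rw [hXd]; ring
            rw [j5]
            nlinarith
        refine ⟨?_, hRR⟩
        have h1 : (BN (t + 4) A : ℝ) ≤ BN (t + 3) A + BR (t + 4) A := by
          exact_mod_cast recN (T := t + 3) hA
        have i1 := (ih (t + 3) (by omega) A).1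
        have v1 : V (t + 4) A = 60 / 61 * V (t + 3) A := by unfold V; ring
        have p1 : (2 : ℝ) ^ (t + 4 + 2 * A) = 2 * 2 ^ (t + 3 + 2 * A) := by ring
        rw [v1, p1] at hRR ⊢
        have hX : 0 < (2 : ℝ) ^ (t + 3 + 2 * A) * V (t + 3) A :=
          mul_pos (by positivity) (V_pos _ A)
        nlinarith

/-- The number of odd classes modulo `2^(K+1)` not in `Rep`. -/
theorem bad_le {N : ℕ} (hN : 1 ≤ N) :
    cnt (fun m => 2 * m + 1 ∉ Rep (10 * N) (3 * N)) (16 * N) ≤ 2 * BN (10 * N) (3 * N) := by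
  obtain ⟨j, hj⟩ : ∃ j, 16 * N = j + 1 := ⟨16 * N - 1, by omega⟩
  rw [hj, cnt_split]
  have h1 : cnt (fun m => 2 * (2 * m) + 1 ∉ Rep (10 * N) (3 * N)) j ≤ BN (10 * N) (3 * N) := by
    refine (cnt_mono _ ?_).trans (cnt_bN (by omega) 1 0 (by decide))
    intro m hm h
    apply hm
    have h' : 1 + 4 * (1 * m + 0) ∈ Rep (10 * N) (3 * N) := h
    convert h' using 1; ring
  have h2 : cnt (fun m => 2 * (2 * m + 1) + 1 ∉ Rep (10 * N) (3 * N)) j ≤
      BN (10 * N) (3 * N) := by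
    refine (cnt_mono _ ?_).trans (cnt_bN (by omega) (-1) (-1) (by decide))
    intro m hm h
    apply hm
    have h' : 1 + 4 * (-1 * m + -1) ∈ Rep (10 * N) (3 * N) := h
    have := Rep_neg h'
    convert this using 1; ring
  omega

theorem good_ge {N : ℕ} (hN : 1 ≤ N) :
    2 ^ (16 * N) ≤ g N ((3 / 2 : ℝ) ^ (10 * N)) + 2 * BN (10 * N) (3 * N) := by
  classical
  have h1 : (2 : ℕ) ^ (16 * N) = ((Finset.range (2 ^ (16 * N))).filter
      (fun m : ℕ => 2 * (m : ℤ) + 1 ∉ Rep (10 * N) (3 * N))).card +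
      ((Finset.range (2 ^ (16 * N))).filter
      (fun m : ℕ => ¬ (2 * (m : ℤ) + 1 ∉ Rep (10 * N) (3 * N)))).card := by
    rw [Finset.card_filter_add_card_filter_not]; simp
  have h2 : ((Finset.range (2 ^ (16 * N))).filter
      (fun m : ℕ => 2 * (m : ℤ) + 1 ∉ Rep (10 * N) (3 * N))).card ≤ 2 * BN (10 * N) (3 * N) := by
    have := bad_le hN
    unfold cnt at this
    refine le_trans (le_of_eq ?_) this
    congr!
  have hpos : (0 : ℤ) < 2 ^ (16 * N + 1) := by positivity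
  have h3 : ((Finset.range (2 ^ (16 * N))).filter
      (fun m : ℕ => ¬ (2 * (m : ℤ) + 1 ∉ Rep (10 * N) (3 * N)))).card ≤
      g N ((3 / 2 : ℝ) ^ (10 * N)) := by
    unfold g
    rw [Set.ncard_eq_toFinset_card _ (Cls_finite N _)]
    refine Finset.card_le_card_of_injOn
      (fun m : ℕ => ((2 ^ (16 * N) - 3 ^ (10 * N) * (2 * (m : ℤ) + 1)) % 2 ^ (16 * N + 1)).toNat)
      ?_ ?_
    · intro m hm
      simp only [Finset.coe_filter, Finset.mem_range, Set.mem_ofPred_eq, not_not] at hm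
      simp only [Set.Finite.coe_toFinset]
      obtain ⟨_, c, hc, z, hz, e⟩ := hm
      rw [show 10 * N + 2 * (3 * N) = 16 * N by ring] at hc e
      have a1 := Int.emod_nonneg (2 ^ (16 * N) - 3 ^ (10 * N) * (2 * (m : ℤ) + 1)) hpos.ne'
      have a2 := Int.emod_lt_of_pos (2 ^ (16 * N) - 3 ^ (10 * N) * (2 * (m : ℤ) + 1)) hpos
      refine ⟨?_, c, hc, Lv_bound hc, ?_⟩
      · have : (((2 ^ (16 * N) - 3 ^ (10 * N) * (2 * (m : ℤ) + 1)) % 2 ^ (16 * N + 1)).toNat : ℤ)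
            < ((2 ^ (16 * N + 1) : ℕ) : ℤ) := by
          rw [Int.toNat_of_nonneg a1]; push_cast; exact a2
        exact_mod_cast this
      · rw [Int.toNat_of_nonneg a1]
        have b1 : c ≡ 2 ^ (16 * N) - 3 ^ (10 * N) * (2 * (m : ℤ) + 1) [ZMOD 2 ^ (16 * N + 1)] := by
          rw [Int.modEq_iff_dvd]
          obtain ⟨y, rfl⟩ := hz
          refine ⟨-y, ?_⟩
          rw [pow_succ]
          linear_combination e
        exact b1.trans (Int.mod_modEq _ _).symm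
    · intro m hm m' hm' h
      simp only [Finset.coe_filter, Finset.mem_range, Set.mem_ofPred_eq] at hm hm'
      have h1 := Int.emod_nonneg (2 ^ (16 * N) - 3 ^ (10 * N) * (2 * (m : ℤ) + 1)) hpos.ne'
      have h1' := Int.emod_nonneg (2 ^ (16 * N) - 3 ^ (10 * N) * (2 * (m' : ℤ) + 1)) hpos.ne'
      have h2 : (2 ^ (16 * N) - 3 ^ (10 * N) * (2 * (m : ℤ) + 1)) % 2 ^ (16 * N + 1) =
          (2 ^ (16 * N) - 3 ^ (10 * N) * (2 * (m' : ℤ) + 1)) % 2 ^ (16 * N + 1) := by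
        have : (((2 ^ (16 * N) - 3 ^ (10 * N) * (2 * (m : ℤ) + 1)) % 2 ^ (16 * N + 1)).toNat : ℤ) =
            (((2 ^ (16 * N) - 3 ^ (10 * N) * (2 * (m' : ℤ) + 1)) % 2 ^ (16 * N + 1)).toNat : ℤ) := by
          exact_mod_cast h
        rwa [Int.toNat_of_nonneg h1, Int.toNat_of_nonneg h1'] at this
      have h4 := Int.ModEq.dvd h2
      have e : 2 ^ (16 * N) - 3 ^ (10 * N) * (2 * (m' : ℤ) + 1) -
          (2 ^ (16 * N) - 3 ^ (10 * N) * (2 * (m : ℤ) + 1)) =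
          2 * (3 ^ (10 * N) * ((m : ℤ) - m')) := by ring
      rw [e, pow_succ'] at h4
      have h5 : (2 : ℤ) ^ (16 * N) ∣ 3 ^ (10 * N) * ((m : ℤ) - m') :=
        (mul_dvd_mul_iff_left (by norm_num : (2 : ℤ) ≠ 0)).mp h4
      have hc : IsCoprime ((2 : ℤ) ^ (16 * N)) (3 ^ (10 * N)) :=
        IsCoprime.pow ⟨-1, 1, by ring⟩
      have h6 := hc.dvd_of_dvd_mul_left h5
      have h7 : |(m : ℤ) - m'| < 2 ^ (16 * N) := by
        have a1 : (m : ℤ) < 2 ^ (16 * N) := by exact_mod_cast hm.1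
        have a2 : (m' : ℤ) < 2 ^ (16 * N) := by exact_mod_cast hm'.1
        rw [abs_lt]; constructor <;> omega
      have h8 := Int.eq_zero_of_abs_lt_dvd h6 h7
      omega
  omega

end Pool.Agent.Lib.MP7f8c3e.TinfM

namespace Pool.Agent.Lib.MP7f8c3e

open TinfM

theorem specTinf : SpecTinf := by
  refine ⟨(60 / 61) ^ 10 * (19 / 18) ^ 3, 2, by positivity, by norm_num, by norm_num, ?_⟩
  intro N
  rcases Nat.eq_zero_or_pos N with rfl | hN
  · have : (0 : ℝ) ≤ (g 0 ((3 / 2 : ℝ) ^ (10 * 0)) : ℝ) := by positivity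
    simp only [pow_zero, mul_one, mul_zero]
    simp only [mul_zero, pow_zero] at this
    linarith
  · have h1 := good_ge hN
    have h2 := (bound (10 * N) (3 * N)).1
    have h3 : V (10 * N) (3 * N) = ((60 / 61) ^ 10 * (19 / 18) ^ 3) ^ N := by
      unfold V; rw [mul_pow, pow_mul, pow_mul]
    rw [h3, show 10 * N + 2 * (3 * N) = 16 * N by ring] at h2
    have h4 : (2 : ℝ) ^ (16 * N) ≤ (g N ((3 / 2 : ℝ) ^ (10 * N)) : ℝ) +
        2 * (BN (10 * N) (3 * N) : ℝ) := by exact_mod_cast h1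
    linarith

end Pool.Agent.Lib.MP7f8c3e
end
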