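import Pool.Agent.Lib.MP_7f8c3e_co.Spec

section
/-!
# STAGE: one stage of the chain
-/
namespace Pool.Agent.Lib.MP7f8c3e

namespace StageM

open Filter

/-- Constants of paths with at least one step are odd. -/
theorem cs_odd {t K : ℕ} (ht : 1 ≤ t) {c : ℤ} (hc : c ∈ CS t K) : Odd c := by
  obtain ⟨t', rfl⟩ : ∃ t', t = t' + 1 := ⟨t - 1, by omega⟩
  obtain ⟨s, k, c', hs, hk, hkK, hc', rfl⟩ := hc
  have h3 : Odd ((3:ℤ) ^ t' * s) := by
    apply Odd.mul
    · exact Odd.pow (by decide)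
    · rcases hs with rfl | rfl <;> decide
  have h2 : Even ((2:ℤ) ^ k * c') := by
    apply Even.mul_right
    have hk1 : k ≠ 0 := by
      rintro rfl
      exact absurd hk (by decide)
    exact (Int.even_pow.2 ⟨by decide, hk1⟩)
  exact h3.add_even h2

/-- Counting points of an interval in few residue classes. -/
theorem count_label {α : Type*} [DecidableEq α] (E : Set ℤ) (a b : ℤ) (m : ℕ) (hm : 0 < m)
    (hab : a ≤ b) (Λ : Finset α) (l : ℤ → α)
    (h1 : ∀ n ∈ E, a ≤ n → n < b → l n ∈ Λ)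
    (h2 : ∀ n n', n ∈ E → n' ∈ E → l n = l n' → n ≡ n' [ZMOD (m : ℤ)]) :
    (({n : ℤ | n ∈ E ∧ a ≤ n ∧ n < b}.ncard : ℕ) : ℝ) ≤ Λ.card * (((b:ℝ) - a) / m + 1) := by
  classical
  set F : Finset ℤ := (Finset.Ico a b).filter (fun n => n ∈ E) with hF
  have hFset : {n : ℤ | n ∈ E ∧ a ≤ n ∧ n < b} = (F : Set ℤ) := by
    ext n
    simp only [Set.mem_ofPred_eq, hF, Finset.coe_filter, Finset.mem_Ico]
    tauto
  rw [hFset, Set.ncard_coe_finset]
  have hmR : (0:ℝ) < m := by exact_mod_cast hm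
  have habR : (0:ℝ) ≤ (b:ℝ) - a := by
    have : (a:ℝ) ≤ b := by exact_mod_cast hab
    linarith
  have hmaps : ∀ n ∈ F, l n ∈ Λ := by
    intro n hn
    rw [hF, Finset.mem_filter, Finset.mem_Ico] at hn
    exact h1 n hn.2 hn.1.1 hn.1.2
  have hfib : ∀ y ∈ Λ, ((F.filter (fun n => l n = y)).card : ℝ) ≤ ((b:ℝ) - a) / m + 1 := by
    intro y _
    by_cases hne : (F.filter (fun n => l n = y)).Nonempty
    · obtain ⟨n0, hn0⟩ := hne
      rw [Finset.mem_filter, hF, Finset.mem_filter, Finset.mem_Ico] at hn0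
      have hsub : F.filter (fun n => l n = y) ⊆
          (Finset.Ico a b).filter (fun x => x ≡ n0 [ZMOD (m:ℤ)]) := by
        intro n hn
        rw [Finset.mem_filter, hF, Finset.mem_filter] at hn
        rw [Finset.mem_filter]
        exact ⟨hn.1.1, h2 n n0 hn.1.2 hn0.1.2 (hn.2.trans hn0.2.symm)⟩
      have hcard := Finset.card_le_card hsub
      have hc2 : ((((Finset.Ico a b).filter (fun x => x ≡ n0 [ZMOD (m:ℤ)])).card : ℤ)) =
          max (⌈(b - n0) / ((m:ℤ) : ℚ)⌉ - ⌈(a - n0) / ((m:ℤ) : ℚ)⌉) 0 :=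
        Int.Ico_filter_modEq_card a b (by exact_mod_cast hm) n0
      have hc3 : (((Finset.Ico a b).filter (fun x => x ≡ n0 [ZMOD (m:ℤ)])).card : ℝ) ≤
          ((b:ℝ) - a) / m + 1 := by
        have hq : ((max (⌈(b - n0) / ((m:ℤ) : ℚ)⌉ - ⌈(a - n0) / ((m:ℤ) : ℚ)⌉) 0 : ℤ) : ℚ) ≤
            ((b:ℚ) - a) / m + 1 := by
          have hmQ : (0:ℚ) < m := by exact_mod_cast hm
          have habQ : (0:ℚ) ≤ (b:ℚ) - a := by
            have : (a:ℚ) ≤ b := by exact_mod_cast hab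
            linarith
          rw [Int.cast_max, max_le_iff]
          constructor
          · have e1 := Int.ceil_lt_add_one ((b - n0) / ((m:ℤ) : ℚ))
            have e2 := Int.le_ceil ((a - n0) / ((m:ℤ) : ℚ))
            have e3 : ((b:ℚ) - a) / m = (b - n0) / ((m:ℤ) : ℚ) - (a - n0) / ((m:ℤ) : ℚ) := by
              push_cast
              ring
            push_cast at *
            rw [e3]
            linarith
          · push_cast
            have := div_nonneg habQ hmQ.le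
            linarith
        have : (((Finset.Ico a b).filter (fun x => x ≡ n0 [ZMOD (m:ℤ)])).card : ℚ) ≤
            ((b:ℚ) - a) / m + 1 := by
          rw [← hc2] at hq
          exact_mod_cast hq
        exact_mod_cast this
      calc ((F.filter (fun n => l n = y)).card : ℝ)
          ≤ (((Finset.Ico a b).filter (fun x => x ≡ n0 [ZMOD (m:ℤ)])).card : ℝ) := by
            exact_mod_cast hcard
        _ ≤ _ := hc3
    · rw [Finset.not_nonempty_iff_eq_empty] at hne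
      rw [hne]
      simp only [Finset.card_empty, Nat.cast_zero]
      have := div_nonneg habR hmR.le
      linarith
  have hsum := Finset.card_eq_sum_card_fiberwise hmaps
  rw [hsum]
  push_cast
  calc ∑ y ∈ Λ, ((F.filter (fun n => l n = y)).card : ℝ)
      ≤ ∑ y ∈ Λ, (((b:ℝ) - a) / m + 1) := Finset.sum_le_sum hfib
    _ = Λ.card * (((b:ℝ) - a) / m + 1) := by rw [Finset.sum_const, nsmul_eq_mul]

/-- Odd numbers whose class has no small constant. -/
def Exc1 (N : ℕ) (h : ℝ) : Set ℤ :=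
  {n | Odd n ∧ ¬ ∃ c ∈ Lv N, |(c : ℝ)| ≤ h * 2 ^ (16 * N) ∧
    c ≡ 2 ^ (16 * N) - 3 ^ (10 * N) * n [ZMOD 2 ^ (16 * N + 1)]}

/-- Odd numbers near a disagreement. -/
def Exc2 (N : ℕ) (R : ℝ) (J : ℕ) : Set ℤ :=
  {n | Odd n ∧ ∃ j : ℤ, |j| ≤ (J : ℤ) ∧ ∃ x ∈ disSet N R,
    x ≡ 2 ^ (16 * N) - 3 ^ (10 * N) * (n + 2 * j) [ZMOD 2 ^ (16 * N + 1)]}

theorem three_cancel {N : ℕ} {u v : ℤ}
    (h : 2 ^ (16 * N) - 3 ^ (10 * N) * u ≡ 2 ^ (16 * N) - 3 ^ (10 * N) * v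
      [ZMOD 2 ^ (16 * N + 1)]) : u ≡ v [ZMOD 2 ^ (16 * N + 1)] := by
  have h1 : (2:ℤ) ^ (16 * N + 1) ∣ 3 ^ (10 * N) * (v - u) := by
    have h2 := Int.ModEq.dvd h
    have h3 : (2:ℤ) ^ (16 * N) - 3 ^ (10 * N) * v - (2 ^ (16 * N) - 3 ^ (10 * N) * u) =
        -(3 ^ (10 * N) * (v - u)) := by ring
    rw [h3] at h2
    exact (dvd_neg).1 h2
  have hcop : IsCoprime ((2:ℤ) ^ (16 * N + 1)) (3 ^ (10 * N)) := by
    apply IsCoprime.pow
    exact ⟨-1, 1, by norm_num⟩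
  exact (Int.modEq_iff_dvd.2 (hcop.dvd_of_dvd_mul_left h1))

theorem odd_card (M : ℕ) : ((Finset.range (2 * M)).filter (fun a => Odd a)).card = M := by
  have : (Finset.range (2 * M)).filter (fun a => Odd a) =
      (Finset.range M).image (fun i => 2 * i + 1) := by
    ext a
    simp only [Finset.mem_filter, Finset.mem_range, Finset.mem_image]
    constructor
    · rintro ⟨h1, k, hk⟩
      exact ⟨k, by omega, hk.symm⟩
    · rintro ⟨k, hk, rfl⟩
      exact ⟨by omega, ⟨k, rfl⟩⟩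
  rw [this, Finset.card_image_of_injective _ (fun i j hij => by
    have hij' : 2 * i + 1 = 2 * j + 1 := hij
    omega), Finset.card_range]

theorem count1 (N : ℕ) (hN : 1 ≤ N) (h : ℝ) (a b : ℤ) (hab : a ≤ b) :
    (({n : ℤ | n ∈ Exc1 N h ∧ a ≤ n ∧ n < b}.ncard : ℕ) : ℝ) ≤
      ((2:ℝ) ^ (16 * N) - g N h) * (((b:ℝ) - a) / 2 ^ (16 * N + 1) + 1) := by
  classical
  have hfin : (Cls N h).Finite := (Set.finite_lt_nat (2 ^ (16 * N + 1))).subset (fun a ha => ha.1)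
  set O : Finset ℕ := (Finset.range (2 ^ (16 * N + 1))).filter (fun a => Odd a) with hO
  have hOc : O.card = 2 ^ (16 * N) := by
    have := odd_card (2 ^ (16 * N))
    rw [hO, pow_succ, mul_comm (2 ^ (16 * N)) 2]
    exact this
  have hsub : hfin.toFinset ⊆ O := by
    intro x hx
    rw [Set.Finite.mem_toFinset] at hx
    obtain ⟨hx1, c, hc, -, hcx⟩ := hx
    rw [hO, Finset.mem_filter, Finset.mem_range]
    refine ⟨hx1, ?_⟩
    have hcodd : Odd c := cs_odd (by omega) hc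
    have hd := Int.ModEq.dvd hcx
    have h2 : (2:ℤ) ∣ (x:ℤ) - c := (dvd_pow_self 2 (by omega)).trans hd
    have : Odd (x:ℤ) := by
      have e : (x:ℤ) = (x - c) + c := by ring
      rw [e]
      exact (even_iff_two_dvd.2 h2).add_odd hcodd
    exact_mod_cast this
  have hg : g N h = hfin.toFinset.card := by
    rw [g, Set.ncard_eq_toFinset_card _ hfin]
  have key := count_label (Exc1 N h) a b (2 ^ (16 * N + 1)) (by positivity) hab
    (O \ hfin.toFinset) (fun n => ((2 ^ (16 * N) - 3 ^ (10 * N) * n) % 2 ^ (16 * N + 1) : ℤ).toNat)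
    (by
      intro n hn _ _
      have hpos : (0:ℤ) < 2 ^ (16 * N + 1) := by positivity
      have h0 := Int.emod_nonneg (2 ^ (16 * N) - 3 ^ (10 * N) * n) hpos.ne'
      have h1 := Int.emod_lt_of_pos (2 ^ (16 * N) - 3 ^ (10 * N) * n) hpos
      set v : ℤ := (2 ^ (16 * N) - 3 ^ (10 * N) * n) % 2 ^ (16 * N + 1) with hv
      have hvm : v ≡ 2 ^ (16 * N) - 3 ^ (10 * N) * n [ZMOD 2 ^ (16 * N + 1)] := by
        rw [hv]
        exact Int.mod_modEq _ _
      have hcast : ((v.toNat : ℕ) : ℤ) = v := Int.toNat_of_nonneg h0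
      rw [Finset.mem_sdiff, hO, Finset.mem_filter, Finset.mem_range, Set.Finite.mem_toFinset]
      refine ⟨⟨?_, ?_⟩, ?_⟩
      · have : ((v.toNat : ℕ) : ℤ) < ((2 ^ (16 * N + 1) : ℕ) : ℤ) := by
          rw [hcast]
          push_cast
          exact h1
        exact_mod_cast this
      · have hodd : Odd ((2:ℤ) ^ (16 * N) - 3 ^ (10 * N) * n) := by
          apply Even.sub_odd
          · exact Int.even_pow.2 ⟨by decide, by omega⟩
          · exact Odd.mul (Odd.pow (by decide)) hn.1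
        have hd := Int.ModEq.dvd hvm
        have h2 : (2:ℤ) ∣ (2 ^ (16 * N) - 3 ^ (10 * N) * n) - v :=
          (dvd_pow_self 2 (by omega)).trans hd
        have : Odd ((v.toNat : ℕ) : ℤ) := by
          rw [hcast]
          have e : v = (2 ^ (16 * N) - 3 ^ (10 * N) * n) - ((2 ^ (16 * N) - 3 ^ (10 * N) * n) - v) := by
            ring
          rw [e]
          exact hodd.sub_even (even_iff_two_dvd.2 h2)
        exact_mod_cast this
      · rintro ⟨-, c, hc, hcb, hcx⟩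
        apply hn.2
        refine ⟨c, hc, hcb, ?_⟩
        rw [hcast] at hcx
        exact hcx.trans hvm)
    (by
      intro n n' _ _ hl
      have hpos : (0:ℤ) < 2 ^ (16 * N + 1) := by positivity
      have h0 := Int.emod_nonneg (2 ^ (16 * N) - 3 ^ (10 * N) * n) hpos.ne'
      have h0' := Int.emod_nonneg (2 ^ (16 * N) - 3 ^ (10 * N) * n') hpos.ne'
      have hl' : (2 ^ (16 * N) - 3 ^ (10 * N) * n) % 2 ^ (16 * N + 1) =
          (2 ^ (16 * N) - 3 ^ (10 * N) * n') % 2 ^ (16 * N + 1) := by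
        rw [← Int.toNat_of_nonneg h0, ← Int.toNat_of_nonneg h0', hl]
      have := three_cancel (N := N) (u := n) (v := n') hl'
      push_cast
      exact this)
  have hcard : ((O \ hfin.toFinset).card : ℝ) = (2:ℝ) ^ (16 * N) - g N h := by
    rw [Finset.card_sdiff_of_subset hsub, hOc, hg]
    have : hfin.toFinset.card ≤ 2 ^ (16 * N) := by
      rw [← hOc]
      exact Finset.card_le_card hsub
    rw [Nat.cast_sub this]
    push_cast
    ring
  rw [hcard] at key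
  push_cast at key
  exact key

theorem dis_finite (N : ℕ) (R : ℝ) : (disSet N R).Finite := by
  apply (Set.finite_Icc (-⌈R * 2 ^ (16 * N)⌉) ⌈R * 2 ^ (16 * N)⌉).subset
  intro x hx
  have h1 := hx.1
  rw [abs_le] at h1
  have h2 := Int.le_ceil (R * 2 ^ (16 * N))
  constructor
  · have : ((-⌈R * 2 ^ (16 * N)⌉ : ℤ) : ℝ) ≤ x := by
      push_cast
      linarith
    exact_mod_cast this
  · have : (x : ℝ) ≤ ⌈R * 2 ^ (16 * N)⌉ := by linarith
    exact_mod_cast this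

theorem count2 (N : ℕ) (R : ℝ) (J : ℕ) (a b : ℤ) (hab : a ≤ b) :
    (({n : ℤ | n ∈ Exc2 N R J ∧ a ≤ n ∧ n < b}.ncard : ℕ) : ℝ) ≤
      ((2 * J + 1) * dis N R) * (((b:ℝ) - a) / 2 ^ (16 * N + 1) + 1) := by
  classical
  have hfin := dis_finite N R
  have hch : ∀ n : ℤ, ∃ p : ℤ × ℤ, n ∈ Exc2 N R J → (|p.1| ≤ (J : ℤ) ∧ p.2 ∈ disSet N R ∧
      p.2 ≡ 2 ^ (16 * N) - 3 ^ (10 * N) * (n + 2 * p.1) [ZMOD 2 ^ (16 * N + 1)]) := by
    intro n
    by_cases hn : n ∈ Exc2 N R J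
    · obtain ⟨-, j, hj, x, hx, hxn⟩ := hn
      exact ⟨(j, x), fun _ => ⟨hj, hx, hxn⟩⟩
    · exact ⟨(0, 0), fun h => absurd h hn⟩
  choose l hl using hch
  have key := count_label (Exc2 N R J) a b (2 ^ (16 * N + 1)) (by positivity) hab
    (Finset.Icc (-(J:ℤ)) J ×ˢ hfin.toFinset) l
    (by
      intro n hn _ _
      obtain ⟨h1, h2, -⟩ := hl n hn
      rw [Finset.mem_product, Finset.mem_Icc, Set.Finite.mem_toFinset]
      exact ⟨abs_le.1 h1, h2⟩)
    (by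
      intro n n' hn hn' he
      obtain ⟨-, -, h3⟩ := hl n hn
      obtain ⟨-, -, h3'⟩ := hl n' hn'
      rw [← he] at h3'
      have h4 := three_cancel (h3.symm.trans h3')
      have h5 := Int.ModEq.add_right_cancel' _ h4
      push_cast
      exact h5)
  have hcard : (((Finset.Icc (-(J:ℤ)) J ×ˢ hfin.toFinset).card : ℕ) : ℝ) =
      (2 * J + 1) * dis N R := by
    rw [Finset.card_product, Int.card_Icc, dis, Set.ncard_eq_toFinset_card _ hfin]
    have : ((J:ℤ) + 1 - -(J:ℤ)).toNat = 2 * J + 1 := by omega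
    rw [this]
    push_cast
    ring
  rw [hcard] at key
  push_cast at key
  exact key

theorem rho_pow (N : ℕ) : rho ^ N * 2 ^ (16 * N) = 3 ^ (10 * N) := by
  rw [pow_mul, pow_mul, ← mul_pow, rho]
  norm_num

theorem rho_pos : 0 < rho := by
  rw [rho]
  norm_num

theorem rho_lt_one : rho < 1 := by
  rw [rho]
  norm_num

theorem transfer (W : Set ℤ) (hW : BackClosed W) (N : ℕ) (h R r : ℝ) (J : ℕ)
    (hJ : r ≤ 2 * J) (hR : h + rho ^ N * (2 * J) ≤ R) (n : ℤ) (hn : Odd n)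
    (h1 : n ∉ Exc1 N h) (h2 : n ∉ Exc2 N R J) (s : ℝ) (hs : h ≤ s)
    (hfull : Full W s (rho ^ N * n)) : Full W r n := by
  have hex : ∃ c ∈ Lv N, |(c : ℝ)| ≤ h * 2 ^ (16 * N) ∧
      c ≡ 2 ^ (16 * N) - 3 ^ (10 * N) * n [ZMOD 2 ^ (16 * N + 1)] := by
    by_contra hcon
    exact h1 ⟨hn, hcon⟩
  obtain ⟨c, hc, hcb, hcm⟩ := hex
  obtain ⟨k, hk⟩ := Int.ModEq.dvd hcm
  have h2pos : (0:ℝ) < 2 ^ (16 * N) := by positivity
  set z0 : ℤ := 1 - 2 * k with hz0
  have hz0odd : Odd z0 := ⟨-k, by rw [hz0]; ring⟩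
  have hz0eq : 2 ^ (16 * N) * z0 = 3 ^ (10 * N) * n + c := by
    rw [hz0]
    rw [pow_succ] at hk
    linear_combination hk
  have hz0W : z0 ∈ W := by
    apply hfull z0 hz0odd
    have e1 : ((z0 : ℝ) - rho ^ N * n) * 2 ^ (16 * N) = c := by
      have e2 : (2:ℝ) ^ (16 * N) * z0 = 3 ^ (10 * N) * n + c := by exact_mod_cast hz0eq
      have e3 := rho_pow N
      linear_combination e2 - (n:ℝ) * e3
    have e4 : |(z0 : ℝ) - rho ^ N * n| * 2 ^ (16 * N) ≤ h * 2 ^ (16 * N) := by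
      rw [← e1, abs_mul, abs_of_pos h2pos] at hcb
      exact hcb
    exact (le_of_mul_le_mul_right e4 h2pos).trans hs
  -- the induction
  have hstep : ∀ j : ℤ, |j| ≤ (J : ℤ) →
      ((2 ^ (16 * N) * z0 - 3 ^ (10 * N) * (n + 2 * j) ∈ Lv N) ↔
       (2 ^ (16 * N) * z0 - 3 ^ (10 * N) * (n + 2 * (j + 1)) ∈ Lv N)) := by
    intro j hj
    set x : ℤ := 2 ^ (16 * N) * z0 - 3 ^ (10 * N) * (n + 2 * j) with hx
    have hx1 : 2 ^ (16 * N) * z0 - 3 ^ (10 * N) * (n + 2 * (j + 1)) = x - 2 * 3 ^ (10 * N) := by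
      rw [hx]
      ring
    rw [hx1]
    by_contra hcon
    apply h2
    refine ⟨hn, j, hj, x, ⟨?_, hcon⟩, ?_⟩
    · have e1 : (x : ℝ) = c - 3 ^ (10 * N) * (2 * j) := by
        have e2 : (2:ℝ) ^ (16 * N) * z0 = 3 ^ (10 * N) * n + c := by exact_mod_cast hz0eq
        rw [hx]
        push_cast
        linear_combination e2
      have e5 : |((j:ℤ):ℝ)| ≤ J := by
        have : ((|j| : ℤ) : ℝ) ≤ ((J:ℤ) : ℝ) := by exact_mod_cast hj
        simpa using this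
      have e3 : |(3:ℝ) ^ (10 * N) * (2 * j)| ≤ 3 ^ (10 * N) * (2 * J) := by
        rw [abs_mul, abs_of_pos (by positivity : (0:ℝ) < 3 ^ (10 * N)), abs_mul,
          abs_of_pos (by norm_num : (0:ℝ) < 2)]
        have : (0:ℝ) < 3 ^ (10 * N) := by positivity
        nlinarith
      have e4 := rho_pow N
      calc |(x : ℝ)| ≤ |(c : ℝ)| + |(3:ℝ) ^ (10 * N) * (2 * j)| := by
            rw [e1]
            exact abs_sub _ _
        _ ≤ h * 2 ^ (16 * N) + 3 ^ (10 * N) * (2 * J) := add_le_add hcb e3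
        _ = (h + rho ^ N * (2 * J)) * 2 ^ (16 * N) := by
            rw [← e4]
            ring
        _ ≤ R * 2 ^ (16 * N) := mul_le_mul_of_nonneg_right hR h2pos.le
    · apply Int.modEq_iff_dvd.2
      refine ⟨k, ?_⟩
      rw [hx, hz0, pow_succ]
      ring
  have hP : ∀ i : ℕ, i ≤ J →
      ((2 ^ (16 * N) * z0 - 3 ^ (10 * N) * (n + 2 * (i : ℤ)) ∈ Lv N) ∧
       (2 ^ (16 * N) * z0 - 3 ^ (10 * N) * (n + 2 * (-(i : ℤ))) ∈ Lv N)) := by
    intro i
    induction i with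
    | zero =>
      intro _
      have : 2 ^ (16 * N) * z0 - 3 ^ (10 * N) * (n + 2 * ((0:ℕ) : ℤ)) = c := by
        push_cast
        linear_combination hz0eq
      have h' : 2 ^ (16 * N) * z0 - 3 ^ (10 * N) * (n + 2 * (-((0:ℕ) : ℤ))) = c := by
        push_cast
        linear_combination hz0eq
      rw [this, h']
      exact ⟨hc, hc⟩
    | succ i ih =>
      intro hi
      obtain ⟨ih1, ih2⟩ := ih (by omega)
      constructor
      · have := (hstep i (by rw [abs_of_nonneg (by positivity)]; omega)).1 ih1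
        push_cast
        exact this
      · have h3 := hstep (-((i:ℤ) + 1)) (by rw [abs_neg, abs_of_nonneg (by positivity)]; omega)
        have e : -((i:ℤ) + 1) + 1 = -(i:ℤ) := by ring
        rw [e] at h3
        have := h3.2 ih2
        push_cast
        exact this
  intro z hz hzr
  obtain ⟨j, hj⟩ : ∃ j : ℤ, z = n + 2 * j := by
    obtain ⟨u, hu⟩ := hz
    obtain ⟨v, hv⟩ := hn
    exact ⟨u - v, by rw [hu, hv]; ring⟩
  have hjb : |j| ≤ (J:ℤ) := by
    have e1 : ((z:ℝ) - n) = 2 * j := by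
      rw [hj]
      push_cast
      ring
    rw [e1, abs_mul, abs_of_pos (by norm_num : (0:ℝ) < 2)] at hzr
    have : |(j:ℝ)| ≤ J := by linarith
    have h3 : ((|j| : ℤ) : ℝ) ≤ ((J:ℤ):ℝ) := by
      push_cast
      exact this
    exact_mod_cast h3
  have hmem : 2 ^ (16 * N) * z0 - 3 ^ (10 * N) * (n + 2 * j) ∈ Lv N := by
    rcases le_total 0 j with h0 | h0
    · obtain ⟨i, rfl⟩ := Int.eq_ofNat_of_zero_le h0
      rw [abs_of_nonneg h0] at hjb
      exact (hP i (by exact_mod_cast hjb)).1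
    · obtain ⟨i, hi⟩ := Int.eq_ofNat_of_zero_le (by omega : 0 ≤ -j)
      have hji : j = -(i:ℤ) := by omega
      rw [hji] at hjb ⊢
      rw [abs_neg, abs_of_nonneg (by positivity)] at hjb
      exact (hP i (by exact_mod_cast hjb)).2
  exact hW (10 * N) (16 * N) _ z z0 hmem hz0odd hz0W (by rw [hj]; ring)

theorem h_le (S : ℕ) (hS : 1 ≤ S) : (3 / 2 : ℝ) ^ (20 * bS S) ≤ (S : ℝ) ^ (3 / 50 : ℝ) := by
  have h1 : (3 / 2 : ℝ) ^ (20 * bS S) ≤ (2:ℝ) ^ (12 * bS S) := by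
    rw [pow_mul, pow_mul]
    apply pow_le_pow_left₀ (by positivity)
    norm_num
  have h2 : 2 ^ (200 * bS S) ≤ S := by
    have h3 : 200 * bS S ≤ Nat.log 2 S := by
      rw [bS]
      exact Nat.mul_div_le _ _
    exact (Nat.pow_le_pow_right (by norm_num) h3).trans (Nat.pow_log_le_self 2 (by omega))
  have h4 : (2:ℝ) ^ (12 * bS S) = ((2:ℝ) ^ (200 * bS S)) ^ (3 / 50 : ℝ) := by
    rw [← Real.rpow_natCast, ← Real.rpow_natCast, ← Real.rpow_mul (by norm_num)]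
    congr 1
    push_cast
    ring
  have h5 : (2:ℝ) ^ (200 * bS S) ≤ S := by exact_mod_cast h2
  rw [h4] at h1
  exact h1.trans (Real.rpow_le_rpow (by positivity) h5 (by norm_num))

theorem kappa_le (κ : ℝ) (h0 : 0 < κ) (h1 : κ < 1) :
    ∃ c : ℝ, 0 < c ∧ ∀ S : ℕ, 1 ≤ S → κ ^ (bS S) ≤ κ⁻¹ * (S : ℝ) ^ (-c) := by
  have hlog2 : 0 < Real.log 2 := Real.log_pos (by norm_num)
  have hlogk : Real.log κ < 0 := Real.log_neg h0 h1
  refine ⟨-Real.log κ / (200 * Real.log 2), ?_, ?_⟩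
  · apply div_pos (by linarith) (by positivity)
  intro S hS
  set c : ℝ := -Real.log κ / (200 * Real.log 2) with hc
  have hcpos : 0 < c := div_pos (by linarith) (by positivity)
  have h2 : S < 2 ^ (200 * (bS S + 1)) := by
    have h3 : Nat.log 2 S + 1 ≤ 200 * (bS S + 1) := by
      rw [bS]
      omega
    exact (Nat.lt_pow_succ_log_self (by norm_num) S).trans_le
      (Nat.pow_le_pow_right (by norm_num) h3)
  have hSpos : (0:ℝ) < S := by exact_mod_cast hS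
  have h4 : κ ^ (bS S + 1) = ((2:ℝ) ^ (200 * (bS S + 1))) ^ (-c) := by
    rw [← Real.rpow_natCast, ← Real.rpow_natCast, ← Real.rpow_mul (by norm_num)]
    rw [Real.rpow_def_of_pos h0, Real.rpow_def_of_pos (by norm_num : (0:ℝ) < 2)]
    congr 1
    rw [hc]
    push_cast
    field_simp
  have h5 : ((2:ℝ) ^ (200 * (bS S + 1))) ^ (-c) ≤ (S:ℝ) ^ (-c) := by
    apply Real.rpow_le_rpow_of_nonpos hSpos _ (by linarith)
    have : ((S:ℕ) : ℝ) ≤ ((2 ^ (200 * (bS S + 1)) : ℕ) : ℝ) := by exact_mod_cast h2.le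
    push_cast at this
    exact this
  have h6 : κ ^ (bS S) = κ⁻¹ * κ ^ (bS S + 1) := by
    rw [pow_succ]
    field_simp
  rw [h6]
  apply mul_le_mul_of_nonneg_left _ (inv_nonneg.2 h0.le)
  rw [h4]
  exact h5

end StageM

open StageM in
/-- STAGE. -/
theorem specStage (hT : SpecTight) : SpecStage := by
  intro W hW
  obtain ⟨κ, C, hκ0, hκ1, hC, hT⟩ := hT
  obtain ⟨c1, hc1, hkap⟩ := kappa_le κ hκ0 hκ1
  -- thresholds
  have hN0 : ∃ N0 : ℕ, ∀ N : ℕ, N0 ≤ N → rho ^ N * (2001 * N + 16) ≤ 1 := by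
    have t1 := tendsto_self_mul_const_pow_of_lt_one rho_pos.le rho_lt_one
    have t2 := tendsto_pow_atTop_nhds_zero_of_lt_one rho_pos.le rho_lt_one
    have t3 := (t1.const_mul 2001).add (t2.const_mul 16)
    have e3 : (2001 * 0 + 16 * 0 : ℝ) = 0 := by norm_num
    rw [e3] at t3
    have t4 := t3.eventually (gt_mem_nhds (show (0:ℝ) < 1 by norm_num))
    obtain ⟨N0, h⟩ := Filter.eventually_atTop.1 t4
    refine ⟨N0, fun N hN => ?_⟩
    have := h N hN
    nlinarith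
  obtain ⟨N0, hN0⟩ := hN0
  have hS1 : ∃ S1 : ℕ, ∀ S : ℕ, S1 ≤ S →
      2 * (2000:ℝ) ^ (1 / 8 : ℝ) ≤ (S:ℝ) ^ (13 / 200 : ℝ) := by
    have t1 := (tendsto_rpow_atTop (show (0:ℝ) < 13 / 200 by norm_num)).comp
      (tendsto_natCast_atTop_atTop (R := ℝ))
    have t2 := t1.eventually_ge_atTop (2 * (2000:ℝ) ^ (1 / 8 : ℝ))
    obtain ⟨S1, h⟩ := Filter.eventually_atTop.1 t2
    exact ⟨S1, fun S hS => h S hS⟩
  obtain ⟨S1, hS1⟩ := hS1
  set c : ℝ := min c1 (19 / 100) with hc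
  refine ⟨C * κ⁻¹ + 119, c, max (max (2000 * (N0 + 1)) S1) 2000, by positivity,
    lt_min hc1 (by norm_num), ?_⟩
  intro S L N hS hSL hLS hLN hN2 hgood
  have hSA : 2000 * (N0 + 1) ≤ S := (le_max_left _ _).trans ((le_max_left _ _).trans hS)
  have hSB : S1 ≤ S := (le_max_right _ _).trans ((le_max_left _ _).trans hS)
  have hSC : 2000 ≤ S := (le_max_right _ _).trans hS
  have hN1 : 1 ≤ N := by omega
  have hNN0 : N0 ≤ N := by omega
  have hSposN : 1 ≤ S := by omega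
  have hSpos : (0:ℝ) < S := by exact_mod_cast hSposN
  have hSone : (1:ℝ) ≤ S := by exact_mod_cast hSposN
  set b : ℕ := bS S with hb
  set h : ℝ := (3 / 2 : ℝ) ^ (20 * b) with hh
  have hhS : h ≤ (S:ℝ) ^ (3 / 50 : ℝ) := h_le S hSposN
  -- b ≤ N
  have hbN : b ≤ N := by
    by_contra hcon
    push Not at hcon
    have h3 : 200 * b ≤ Nat.log 2 S := by
      rw [hb, bS]
      exact Nat.mul_div_le _ _
    have h4 : 2 ^ (200 * b) ≤ S :=
      (Nat.pow_le_pow_right (by norm_num) h3).trans (Nat.pow_log_le_self 2 (by omega))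
    have h5 : 2 ^ (11 + N) ≤ 2 ^ (200 * b) := Nat.pow_le_pow_right (by norm_num) (by omega)
    have h6 : N < 2 ^ N := Nat.lt_two_pow_self
    have h7 : 2 ^ (11 + N) = 2048 * 2 ^ N := by
      rw [pow_add]
      norm_num
    omega
  -- radius
  set r : ℝ := rad (S + N) + 4 with hr
  have hr17 : r + 3 ≤ 17 * (S:ℝ) ^ (3 / 50 : ℝ) := by
    have e1 := h_le (S + N) (by omega)
    have e2 : ((S + N : ℕ) : ℝ) ^ (3 / 50 : ℝ) ≤ (2 * (S:ℝ)) ^ (3 / 50 : ℝ) := by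
      apply Real.rpow_le_rpow (by positivity) _ (by norm_num)
      have : ((S + N : ℕ) : ℝ) ≤ ((2 * S : ℕ) : ℝ) := by
        apply Nat.cast_le.2
        omega
      push_cast at this ⊢
      exact this
    have e3 : (2 * (S:ℝ)) ^ (3 / 50 : ℝ) = (2:ℝ) ^ (3 / 50 : ℝ) * (S:ℝ) ^ (3 / 50 : ℝ) :=
      Real.mul_rpow (by norm_num) hSpos.le
    have e4 : (2:ℝ) ^ (3 / 50 : ℝ) ≤ 2 := by
      calc (2:ℝ) ^ (3 / 50 : ℝ) ≤ (2:ℝ) ^ (1 : ℝ) :=
            Real.rpow_le_rpow_of_exponent_le (by norm_num) (by norm_num)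
        _ = 2 := Real.rpow_one 2
    have e5 : 1 ≤ (S:ℝ) ^ (3 / 50 : ℝ) := Real.one_le_rpow hSone (by norm_num)
    have e6 : (2:ℝ) ^ (3 / 50 : ℝ) * (S:ℝ) ^ (3 / 50 : ℝ) ≤ 2 * (S:ℝ) ^ (3 / 50 : ℝ) :=
      mul_le_mul_of_nonneg_right e4 (by positivity)
    rw [hr, rad]
    linarith
  have hrpos : 0 ≤ r := by
    rw [hr, rad]
    positivity
  set J : ℕ := ⌈r / 2⌉₊ with hJ
  have hJ1 : r ≤ 2 * J := by
    have := Nat.le_ceil (r / 2)
    rw [← hJ] at this
    linarith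
  have hJ2 : 2 * (J:ℝ) + 1 ≤ r + 3 := by
    have := Nat.ceil_lt_add_one (div_nonneg hrpos (by norm_num : (0:ℝ) ≤ 2))
    rw [← hJ] at this
    linarith
  have hJ3 : rho ^ N * (2 * J) ≤ 1 := by
    have e1 := h_le (S + N) (by omega)
    have e2 : ((S + N : ℕ) : ℝ) ^ (3 / 50 : ℝ) ≤ ((S + N : ℕ) : ℝ) := by
      have e0 : (1:ℝ) ≤ ((S + N : ℕ) : ℝ) := by
        exact_mod_cast (by omega : 1 ≤ S + N)
      calc ((S + N : ℕ) : ℝ) ^ (3 / 50 : ℝ) ≤ ((S + N : ℕ) : ℝ) ^ (1 : ℝ) :=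
            Real.rpow_le_rpow_of_exponent_le e0 (by norm_num)
        _ = _ := Real.rpow_one _
    have e3 : ((S + N : ℕ) : ℝ) ≤ 2001 * N := by
      have : ((S + N : ℕ) : ℝ) ≤ ((2001 * N : ℕ) : ℝ) := by
        apply Nat.cast_le.2
        omega
      push_cast at this ⊢
      exact this
    have e4 : 2 * (J:ℝ) ≤ 2001 * N + 16 := by
      rw [hr, rad] at hJ2
      linarith
    calc rho ^ N * (2 * J) ≤ rho ^ N * (2001 * N + 16) :=
          mul_le_mul_of_nonneg_left e4 (pow_pos rho_pos N).le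
      _ ≤ 1 := hN0 N hNN0
  -- window of Good
  have hLreal : (S:ℝ) / 2000 ≤ L := by
    have : (S:ℝ) ≤ ((2000 * L : ℕ) : ℝ) := by exact_mod_cast hSL
    push_cast at this
    linarith
  have hL0 : (0:ℝ) < L := lt_of_lt_of_le (by positivity) hLreal
  have hwin : h + 1 ≤ (L:ℝ) ^ (1 / 8 : ℝ) := by
    have e1 : ((S:ℝ) / 2000) ^ (1 / 8 : ℝ) ≤ (L:ℝ) ^ (1 / 8 : ℝ) :=
      Real.rpow_le_rpow (by positivity) hLreal (by norm_num)
    have e2 : ((S:ℝ) / 2000) ^ (1 / 8 : ℝ) = (S:ℝ) ^ (1 / 8 : ℝ) / 2000 ^ (1 / 8 : ℝ) :=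
      Real.div_rpow hSpos.le (by norm_num) _
    have e3 : (S:ℝ) ^ (1 / 8 : ℝ) = (S:ℝ) ^ (13 / 200 : ℝ) * (S:ℝ) ^ (3 / 50 : ℝ) := by
      rw [← Real.rpow_add hSpos]
      norm_num
    have e4 := hS1 S hSB
    have e5 : 1 ≤ (S:ℝ) ^ (3 / 50 : ℝ) := Real.one_le_rpow hSone (by norm_num)
    have e6 : (0:ℝ) < 2000 ^ (1 / 8 : ℝ) := by positivity
    have e7 : 2 * (S:ℝ) ^ (3 / 50 : ℝ) ≤ (S:ℝ) ^ (1 / 8 : ℝ) / 2000 ^ (1 / 8 : ℝ) := by
      rw [le_div_iff₀ e6, e3]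
      nlinarith
    rw [e2] at e1
    linarith
  -- error terms
  have hdis : (dis N (h + 1) : ℝ) ≤ (L:ℝ) ^ (-(1 / 4) : ℝ) * 2 ^ (16 * N) := by
    refine le_trans ?_ hgood
    apply Nat.cast_le.2
    apply Set.ncard_le_ncard _ (dis_finite N _)
    intro x hx
    refine ⟨hx.1.trans ?_, hx.2⟩
    exact mul_le_mul_of_nonneg_right hwin (by positivity)
  have htight := hT N b hbN
  have hLq : (L:ℝ) ^ (-(1 / 4) : ℝ) ≤ 7 * (S:ℝ) ^ (-(1 / 4) : ℝ) := by
    have e1 : (L:ℝ) ^ (-(1 / 4) : ℝ) ≤ ((S:ℝ) / 2000) ^ (-(1 / 4) : ℝ) :=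
      Real.rpow_le_rpow_of_nonpos (by positivity) hLreal (by norm_num)
    have e2 : ((S:ℝ) / 2000) ^ (-(1 / 4) : ℝ) =
        (S:ℝ) ^ (-(1 / 4) : ℝ) / 2000 ^ (-(1 / 4) : ℝ) :=
      Real.div_rpow hSpos.le (by norm_num) _
    have e3 : (1:ℝ) / 7 ≤ 2000 ^ (-(1 / 4) : ℝ) := by
      have e4 : ((7:ℝ) ^ (4:ℝ)) ^ (-(1 / 4) : ℝ) ≤ 2000 ^ (-(1 / 4) : ℝ) :=
        Real.rpow_le_rpow_of_nonpos (by norm_num) (by norm_num) (by norm_num)
      rw [← Real.rpow_mul (by norm_num)] at e4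
      have e5 : (4:ℝ) * -(1 / 4) = -1 := by norm_num
      rw [e5, Real.rpow_neg_one] at e4
      linarith
    have e6 : (0:ℝ) ≤ (S:ℝ) ^ (-(1 / 4) : ℝ) := by positivity
    rw [e2] at e1
    refine e1.trans ?_
    rw [div_le_iff₀ (by positivity)]
    nlinarith
  have herr : C * κ ^ b + (2 * J + 1) * (L:ℝ) ^ (-(1 / 4) : ℝ) ≤
      (C * κ⁻¹ + 119) * (S:ℝ) ^ (-c) := by
    have e1 := hkap S hSposN
    rw [← hb] at e1
    have e2 : (S:ℝ) ^ (-c1) ≤ (S:ℝ) ^ (-c) :=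
      Real.rpow_le_rpow_of_exponent_le hSone (by have := min_le_left c1 (19 / 100); linarith)
    have e3 : (S:ℝ) ^ (3 / 50 : ℝ) * (S:ℝ) ^ (-(1 / 4) : ℝ) ≤ (S:ℝ) ^ (-c) := by
      rw [← Real.rpow_add hSpos]
      exact Real.rpow_le_rpow_of_exponent_le hSone
        (by have := min_le_right c1 (19 / 100); linarith)
    have e4 : (2 * (J:ℝ) + 1) * (L:ℝ) ^ (-(1 / 4) : ℝ) ≤
        (17 * (S:ℝ) ^ (3 / 50 : ℝ)) * (7 * (S:ℝ) ^ (-(1 / 4) : ℝ)) :=
      mul_le_mul (hJ2.trans hr17) hLq (by positivity) (by positivity)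
    have e5 : C * κ ^ b ≤ C * κ⁻¹ * (S:ℝ) ^ (-c) := by
      calc C * κ ^ b ≤ C * (κ⁻¹ * (S:ℝ) ^ (-c1)) := mul_le_mul_of_nonneg_left e1 hC.le
        _ ≤ C * (κ⁻¹ * (S:ℝ) ^ (-c)) := by
            apply mul_le_mul_of_nonneg_left _ hC.le
            exact mul_le_mul_of_nonneg_left e2 (inv_nonneg.2 hκ0.le)
        _ = _ := by ring
    nlinarith
  refine ⟨Exc1 N h ∪ Exc2 N (h + 1) J, ?_, ?_⟩
  · intro n hn hnE hfull
    rw [Set.mem_union, not_or] at hnE
    have hSN : S + N - S = N := by omega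
    rw [hSN] at hfull
    refine transfer W hW N h (h + 1) r J hJ1 (by linarith) n hn hnE.1 hnE.2 _ ?_ hfull
    have e1 : rho ^ N ≤ 1 := pow_le_one₀ rho_pos.le rho_lt_one.le
    rw [rad, ← hb, ← hh]
    linarith
  · intro a b' hab
    have hN16 : 7 * (16 * N + 1) ≤ S + N := by omega
    have hrho7 : (2:ℝ) ≤ rho⁻¹ ^ 7 := by
      rw [rho]
      norm_num
    have hinv1 : (1:ℝ) ≤ rho⁻¹ := (one_le_inv₀ rho_pos).2 rho_lt_one.le
    have hbig : (2:ℝ) ^ (16 * N + 1) ≤ (b':ℝ) - a := by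
      refine le_trans ?_ hab
      calc (2:ℝ) ^ (16 * N + 1) ≤ (rho⁻¹ ^ 7) ^ (16 * N + 1) :=
            pow_le_pow_left₀ (by norm_num) hrho7 _
        _ = rho⁻¹ ^ (7 * (16 * N + 1)) := by rw [pow_mul]
        _ ≤ rho⁻¹ ^ (S + N) := pow_le_pow_right₀ hinv1 hN16
    have hab' : a ≤ b' := by
      have : (0:ℝ) < 2 ^ (16 * N + 1) := by positivity
      have : (a:ℝ) ≤ b' := by linarith
      exact_mod_cast this
    have hsub : {n : ℤ | n ∈ Exc1 N h ∪ Exc2 N (h + 1) J ∧ Odd n ∧ a ≤ n ∧ n < b'} ⊆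
        {n : ℤ | n ∈ Exc1 N h ∧ a ≤ n ∧ n < b'} ∪
        {n : ℤ | n ∈ Exc2 N (h + 1) J ∧ a ≤ n ∧ n < b'} := by
      rintro n ⟨hn | hn, -, h1, h2⟩
      · exact Or.inl ⟨hn, h1, h2⟩
      · exact Or.inr ⟨hn, h1, h2⟩
    have hfinu : ({n : ℤ | n ∈ Exc1 N h ∧ a ≤ n ∧ n < b'} ∪
        {n : ℤ | n ∈ Exc2 N (h + 1) J ∧ a ≤ n ∧ n < b'}).Finite := by
      apply (Set.finite_Ico a b').subset
      rintro n (⟨-, h1, h2⟩ | ⟨-, h1, h2⟩)
      · exact ⟨h1, h2⟩
      · exact ⟨h1, h2⟩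
    have hc0 : (({n : ℤ | n ∈ Exc1 N h ∪ Exc2 N (h + 1) J ∧ Odd n ∧ a ≤ n ∧ n < b'}.ncard : ℕ) : ℝ)
        ≤ (({n : ℤ | n ∈ Exc1 N h ∧ a ≤ n ∧ n < b'}.ncard : ℕ) : ℝ) +
          (({n : ℤ | n ∈ Exc2 N (h + 1) J ∧ a ≤ n ∧ n < b'}.ncard : ℕ) : ℝ) := by
      have := (Set.ncard_le_ncard hsub hfinu).trans (Set.ncard_union_le _ _)
      exact_mod_cast this
    have hcA := count1 N hN1 h a b' hab'
    have hcB := count2 N (h + 1) J a b' hab'
    have hP : (0:ℝ) < 2 ^ (16 * N) := by positivity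
    set D : ℝ := (b':ℝ) - a with hD
    have hDpos : 0 < D := lt_of_lt_of_le (by positivity) hbig
    have hfac : D / 2 ^ (16 * N + 1) + 1 ≤ D / 2 ^ (16 * N) := by
      have e1 : 1 ≤ D / 2 ^ (16 * N + 1) := by
        rw [le_div_iff₀ (by positivity)]
        linarith
      have e2 : D / 2 ^ (16 * N) = D / 2 ^ (16 * N + 1) + D / 2 ^ (16 * N + 1) := by
        rw [pow_succ]
        field_simp
        ring
      linarith
    have hfac0 : 0 ≤ D / 2 ^ (16 * N + 1) + 1 := by positivity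
    have hA2 : ((2:ℝ) ^ (16 * N) - g N h) * (D / 2 ^ (16 * N + 1) + 1) ≤ C * κ ^ b * D := by
      have e1 : (2:ℝ) ^ (16 * N) - g N h ≤ C * κ ^ b * 2 ^ (16 * N) := by
        have := htight
        nlinarith
      calc ((2:ℝ) ^ (16 * N) - g N h) * (D / 2 ^ (16 * N + 1) + 1)
          ≤ (C * κ ^ b * 2 ^ (16 * N)) * (D / 2 ^ (16 * N + 1) + 1) :=
            mul_le_mul_of_nonneg_right e1 hfac0
        _ ≤ (C * κ ^ b * 2 ^ (16 * N)) * (D / 2 ^ (16 * N)) :=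
            mul_le_mul_of_nonneg_left hfac (by positivity)
        _ = C * κ ^ b * D := by field_simp
    have hB2 : ((2 * J + 1) * dis N (h + 1)) * (D / 2 ^ (16 * N + 1) + 1) ≤
        (2 * J + 1) * (L:ℝ) ^ (-(1 / 4) : ℝ) * D := by
      calc ((2 * (J:ℝ) + 1) * dis N (h + 1)) * (D / 2 ^ (16 * N + 1) + 1)
          ≤ ((2 * (J:ℝ) + 1) * ((L:ℝ) ^ (-(1 / 4) : ℝ) * 2 ^ (16 * N))) *
            (D / 2 ^ (16 * N + 1) + 1) := by
            apply mul_le_mul_of_nonneg_right _ hfac0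
            exact mul_le_mul_of_nonneg_left hdis (by positivity)
        _ ≤ ((2 * (J:ℝ) + 1) * ((L:ℝ) ^ (-(1 / 4) : ℝ) * 2 ^ (16 * N))) *
            (D / 2 ^ (16 * N)) := mul_le_mul_of_nonneg_left hfac (by positivity)
        _ = (2 * J + 1) * (L:ℝ) ^ (-(1 / 4) : ℝ) * D := by field_simp
    calc (({n : ℤ | n ∈ Exc1 N h ∪ Exc2 N (h + 1) J ∧ Odd n ∧ a ≤ n ∧ n < b'}.ncard : ℕ) : ℝ)
        ≤ C * κ ^ b * D + (2 * J + 1) * (L:ℝ) ^ (-(1 / 4) : ℝ) * D := by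
          refine hc0.trans ?_
          exact add_le_add (hcA.trans hA2) (hcB.trans hB2)
      _ = (C * κ ^ b + (2 * J + 1) * (L:ℝ) ^ (-(1 / 4) : ℝ)) * D := by ring
      _ ≤ ((C * κ⁻¹ + 119) * (S:ℝ) ^ (-c)) * D := mul_le_mul_of_nonneg_right herr hDpos.le

end Pool.Agent.Lib.MP7f8c3e
end

section
/-! MP_7f8c3e_co, module THETA: scaling factors `(3/2)^i rho^N` close to one. -/
namespace Pool.Agent.Lib.MP7f8c3e

namespace ThetaM

/-- multiples of an irrational number, slightly above an integer -/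
theorem approx {ξ : ℝ} (hξ : Irrational ξ) (ε : ℝ) (hε : 0 < ε) :
    ∃ (i : ℕ) (N : ℤ), 1 ≤ i ∧ 0 < i * ξ - N ∧ i * ξ - N < ε := by
  obtain ⟨n, hn⟩ := exists_nat_one_div_lt hε
  obtain ⟨k, hk0, -, hk⟩ := Real.exists_nat_abs_mul_sub_round_le ξ (n := n + 1) (Nat.succ_pos n)
  have hk1 : |(k : ℝ) * ξ - round ((k : ℝ) * ξ)| < ε := by
    refine lt_of_le_of_lt hk (lt_of_le_of_lt ?_ hn)
    push_cast
    exact one_div_le_one_div_of_le (by positivity) (by linarith)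
  have hirr : ∀ (i : ℕ) (N : ℤ), 1 ≤ i → (i : ℝ) * ξ - N ≠ 0 := by
    intro i N hi h
    have h1 : Irrational ((i : ℝ) * ξ) := hξ.natCast_mul (by omega)
    exact h1.ne_int N (by linarith)
  set m := round ((k : ℝ) * ξ) with hm
  rcases lt_or_gt_of_ne (hirr k m hk0) with hneg | hpos
  · -- `v < 0`
    set v : ℝ := m - k * ξ with hv
    have hv0 : 0 < v := by linarith
    have hvε : v < ε := by
      rw [abs_of_neg hneg] at hk1
      linarith
    set F : ℝ := Int.fract ξ with hF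
    have hF0 : 0 ≤ F := Int.fract_nonneg ξ
    set j : ℕ := ⌊F / v⌋₊ with hj
    have hj1 : (j : ℝ) ≤ F / v := Nat.floor_le (by positivity)
    have hj2 : F / v < j + 1 := Nat.lt_floor_add_one _
    rw [le_div_iff₀ hv0] at hj1
    rw [div_lt_iff₀ hv0] at hj2
    refine ⟨1 + j * k, ⌊ξ⌋ + j * m, by omega, ?_, ?_⟩
    · have h2 : ((1 + j * k : ℕ) : ℝ) * ξ - ((⌊ξ⌋ + j * m : ℤ) : ℝ) = F - j * v := by
        rw [hF, hv, Int.fract]
        push_cast
        ring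
      have h3 := hirr (1 + j * k) (⌊ξ⌋ + j * m) (by omega)
      rw [h2] at h3 ⊢
      exact lt_of_le_of_ne (by linarith) (Ne.symm h3)
    · have h2 : ((1 + j * k : ℕ) : ℝ) * ξ - ((⌊ξ⌋ + j * m : ℤ) : ℝ) = F - j * v := by
        rw [hF, hv, Int.fract]
        push_cast
        ring
      rw [h2]
      linarith
  · refine ⟨k, m, hk0, hpos, ?_⟩
    rw [abs_of_pos hpos] at hk1
    exact hk1

theorem rho_log : Real.log rho = 10 * Real.log 3 - 16 * Real.log 2 := by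
  have h : rho = (3 : ℝ) ^ 10 / 2 ^ 16 := by
    unfold rho
    norm_num
  rw [h, Real.log_div (by norm_num) (by norm_num), Real.log_pow, Real.log_pow]
  push_cast
  ring

theorem log32 : Real.log (3 / 2) = Real.log 3 - Real.log 2 :=
  Real.log_div (by norm_num) (by norm_num)

theorem pow_ne {a b : ℕ} (hb : 0 < b) : (3 : ℕ) ^ a ≠ 2 ^ b := by
  intro h
  have h1 : Odd ((3 : ℕ) ^ a) := Odd.pow (by decide)
  rw [h] at h1
  exact (Nat.not_odd_iff_even.mpr (Even.pow_of_ne_zero (by decide) (by omega))) h1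

theorem rho_pos : 0 < rho := by
  unfold rho
  norm_num

theorem beta_pos : 0 < -Real.log rho := by
  have : Real.log rho < 0 := Real.log_neg rho_pos (by unfold rho; norm_num)
  linarith

theorem alpha_pos : 0 < Real.log (3 / 2) := Real.log_pos (by norm_num)

theorem irr : Irrational (Real.log (3 / 2) / (-Real.log rho)) := by
  intro hr
  obtain ⟨q, hq⟩ := hr
  have hb := beta_pos
  have ha := alpha_pos
  have hqpos : (0 : ℝ) < q := by
    rw [hq]
    positivity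
  have hqpos' : 0 < q := by exact_mod_cast hqpos
  have hnum : 0 < q.num := Rat.num_pos.mpr hqpos'
  obtain ⟨a, haq⟩ := Int.eq_ofNat_of_zero_le hnum.le
  have hden : 0 < q.den := q.den_pos
  have h1 : (q : ℝ) = (a : ℝ) / (q.den : ℝ) := by
    rw [Rat.cast_def, haq]
    rfl
  rw [h1] at hq
  have hd : (0 : ℝ) < q.den := by exact_mod_cast hden
  have h2 : (a : ℝ) * (-Real.log rho) = q.den * Real.log (3 / 2) := by
    rw [div_eq_div_iff hd.ne' hb.ne'] at hq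
    linarith
  rw [rho_log, log32] at h2
  have h3 : ((q.den + 10 * a : ℕ) : ℝ) * Real.log 3 = ((q.den + 16 * a : ℕ) : ℝ) * Real.log 2 := by
    push_cast
    linarith
  rw [← Real.log_pow, ← Real.log_pow] at h3
  have h4 : (3 : ℝ) ^ (q.den + 10 * a) = 2 ^ (q.den + 16 * a) :=
    Real.log_injOn_pos (Set.mem_Ioi.mpr (by positivity)) (Set.mem_Ioi.mpr (by positivity)) h3
  have h5 : (3 : ℕ) ^ (q.den + 10 * a) = 2 ^ (q.den + 16 * a) := by exact_mod_cast h4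
  exact pow_ne (by omega) h5

end ThetaM

open ThetaM

theorem specTheta : SpecTheta := by
  intro δ hδ
  have hb := beta_pos
  have ha := alpha_pos
  have hlog : 0 < Real.log (1 + δ) := Real.log_pos (by linarith)
  have hε : 0 < min (1 / 2) (Real.log (1 + δ) / (-Real.log rho)) := by positivity
  obtain ⟨i, N, hi, h1, h2⟩ := approx irr _ hε
  have h3 := lt_of_lt_of_le h2 (min_le_left _ _)
  have h4 := lt_of_lt_of_le h2 (min_le_right _ _)
  have hgt : 1 < Real.log (3 / 2) / (-Real.log rho) := by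
    rw [lt_div_iff₀ hb, one_mul, rho_log, log32]
    -- `16 log 2 - 10 log 3 < log 3 - log 2`, i.e. `2^17 < 3^11`
    have h5 : Real.log ((2 : ℝ) ^ 17) < Real.log ((3 : ℝ) ^ 11) :=
      Real.log_lt_log (by norm_num) (by norm_num)
    rw [Real.log_pow, Real.log_pow] at h5
    push_cast at h5
    linarith
  have hi' : (1 : ℝ) ≤ i := by exact_mod_cast hi
  have hNpos : (0 : ℝ) < N := by nlinarith
  have hNpos' : 0 < N := by exact_mod_cast hNpos
  obtain ⟨n, rfl⟩ := Int.eq_ofNat_of_zero_le hNpos'.le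
  have hexp : (3 / 2 : ℝ) ^ i * rho ^ n = Real.exp (i * Real.log (3 / 2) + n * Real.log rho) := by
    rw [Real.exp_add, ← Real.log_pow, ← Real.log_pow, Real.exp_log (by positivity),
      Real.exp_log (pow_pos rho_pos n)]
  have hval : (i : ℝ) * Real.log (3 / 2) + n * Real.log rho =
      (i * (Real.log (3 / 2) / (-Real.log rho)) - ((n : ℤ) : ℝ)) * (-Real.log rho) := by
    have hne : -Real.log rho ≠ 0 := hb.ne'
    rw [sub_mul, mul_assoc, div_mul_cancel₀ _ hne]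
    push_cast
    ring
  refine ⟨i, n, hi, by exact_mod_cast hNpos', ?_, ?_⟩
  · rw [hexp, hval]
    exact Real.one_lt_exp_iff.mpr (mul_pos h1 hb)
  · rw [hexp, hval]
    rw [← Real.exp_log (show (0 : ℝ) < 1 + δ by linarith)]
    apply Real.exp_lt_exp.mpr
    rw [lt_div_iff₀ hb] at h4
    exact h4

end Pool.Agent.Lib.MP7f8c3e
end

section
/-!
# Module TOP: the density theorem from the modules.
-/
namespace Pool.Agent.Lib.MP7f8c3e

namespace TopM

/-- The exceptional odd numbers below `X`. -/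
def bad (X : ℕ) : Set ℕ := {n : ℕ | n < X ∧ Odd n ∧ 1 < n ∧ n ∉ Win}

theorem bad_finite (X : ℕ) : (bad X).Finite := (Set.finite_Iio X).subset (fun _ hn => hn.1)

theorem bad_le (X : ℕ) : (bad X).ncard ≤ X := by
  have h0 : bad X ⊆ Set.Iio X := fun n hn => hn.1
  have h := Set.ncard_le_ncard h0 (Set.finite_Iio X)
  rw [← Finset.coe_Iio, Set.ncard_coe_finset, Nat.card_Iio] at h
  exact h

theorem bad_mono {X Y : ℕ} (h : X ≤ Y) : (bad X).ncard ≤ (bad Y).ncard :=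
  Set.ncard_le_ncard (fun _ hn => ⟨lt_of_lt_of_le hn.1 h, hn.2⟩) (bad_finite Y)

theorem bad_double (X : ℕ) : (bad (2 * X)).ncard ≤ (bad X).ncard +
    {n : ℤ | Odd n ∧ (X : ℤ) ≤ n ∧ n < 2 * X ∧ n ∉ WZ}.ncard := by
  set A : Set ℕ := {n : ℕ | n ∈ bad (2 * X) ∧ X ≤ n} with hA
  have hAf : A.Finite := (bad_finite (2 * X)).subset (fun n hn => hn.1)
  have hsub : bad (2 * X) ⊆ bad X ∪ A := by
    intro n hn
    by_cases h : n < X
    · exact Or.inl ⟨h, hn.2⟩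
    · exact Or.inr ⟨hn, by omega⟩
  have hBf : {n : ℤ | Odd n ∧ (X : ℤ) ≤ n ∧ n < 2 * X ∧ n ∉ WZ}.Finite :=
    (Set.finite_Ico (X : ℤ) (2 * X)).subset (fun n hn => ⟨hn.2.1, hn.2.2.1⟩)
  have hAB : A.ncard ≤ {n : ℤ | Odd n ∧ (X : ℤ) ≤ n ∧ n < 2 * X ∧ n ∉ WZ}.ncard := by
    apply Set.ncard_le_ncard_of_injOn (fun n : ℕ => (n : ℤ)) _ _ hBf
    · rintro n ⟨⟨h1, h2, h3, h4⟩, h5⟩
      refine ⟨?_, ?_, ?_, ?_⟩
      · exact_mod_cast h2
      · exact_mod_cast h5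
      · exact_mod_cast h1
      · rintro ⟨_, h6⟩
        rw [Int.toNat_natCast] at h6
        exact h4 h6
    · intro a _ b _ hab
      exact Int.ofNat.inj hab
  calc (bad (2 * X)).ncard ≤ (bad X ∪ A).ncard :=
        Set.ncard_le_ncard hsub ((bad_finite X).union hAf)
    _ ≤ (bad X).ncard + A.ncard := Set.ncard_union_le _ _
    _ ≤ _ := by omega

theorem bad_small (h : ∀ ε : ℝ, 0 < ε → ∃ X₀ : ℕ, ∀ X : ℕ, X₀ ≤ X →
    (({n : ℤ | Odd n ∧ (X : ℤ) ≤ n ∧ n < 2 * X ∧ n ∉ WZ}.ncard : ℕ) : ℝ) ≤ ε * X)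
    (ε : ℝ) (hε : 0 < ε) : ∃ C : ℝ, 0 < C ∧ ∀ X : ℕ, ((bad X).ncard : ℝ) ≤ 2 * ε * X + C := by
  obtain ⟨X₀, hX⟩ := h ε hε
  refine ⟨2 * X₀ + 4, by positivity, ?_⟩
  intro X
  induction X using Nat.strong_induction_on with
  | _ X ih =>
    by_cases hlt : X < 2 * X₀ + 4
    · have h1 : ((bad X).ncard : ℝ) ≤ X := by exact_mod_cast bad_le X
      have h2 : (X : ℝ) ≤ 2 * X₀ + 4 := by exact_mod_cast hlt.le
      have h3 : 0 ≤ 2 * ε * X := by positivity
      linarith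
    · obtain ⟨Y, hY⟩ : ∃ Y, Y = (X + 1) / 2 := ⟨_, rfl⟩
      have h1 : X ≤ 2 * Y := by omega
      have h2 : 2 * Y ≤ X + 1 := by omega
      have h3 : X₀ ≤ Y := by omega
      have h4 : Y < X := by omega
      have h5 : ((bad X).ncard : ℝ) ≤ (bad Y).ncard +
          ({n : ℤ | Odd n ∧ (Y : ℤ) ≤ n ∧ n < 2 * Y ∧ n ∉ WZ}.ncard : ℕ) := by
        exact_mod_cast (bad_mono h1).trans (bad_double Y)
      have h6 := hX Y h3
      have h7 := ih Y h4
      have h8 : (2 : ℝ) * Y ≤ X + 1 := by exact_mod_cast h2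
      have h9 : (4 : ℝ) ≤ X := by
        have : 4 ≤ X := by omega
        exact_mod_cast this
      nlinarith

end TopM

open TopM in
theorem specTop (hGame : SpecGame) (hRes : SpecRes) (hPha : SpecPha) (hRoute : SpecRoute)
    (hFin : SpecFin) : SpecTop := by
  have hB : BackClosed WZ := hGame
  have hR : Rich WZ := hRes
  have hF := hFin WZ (hPha WZ hB hR) (hRoute WZ hB)
  have hS := bad_small hF
  unfold SpecTop
  rw [Metric.tendsto_atTop]
  intro δ hδ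
  obtain ⟨C, hC, hX⟩ := hS (δ / 8) (by positivity)
  obtain ⟨X₁, hX₁⟩ := exists_nat_gt (4 * C / δ)
  refine ⟨X₁ + 1, fun X hXX => ?_⟩
  have h1 : (X₁ : ℝ) < X := by exact_mod_cast hXX
  have h2 : 4 * C / δ < X := hX₁.trans h1
  have h3 : 0 < (X : ℝ) := lt_trans (by positivity) h2
  have h4 : 4 * C < δ * X := by
    rw [div_lt_iff₀ hδ] at h2
    linarith
  have h5 := hX X
  rw [Real.dist_eq, sub_zero, abs_of_nonneg (by positivity), div_lt_iff₀ h3]
  have h6 : (({n : ℕ | n < X ∧ Odd n ∧ 1 < n ∧ n ∉ Win}.ncard : ℕ) : ℝ)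
      = ((bad X).ncard : ℝ) := rfl
  rw [h6]
  nlinarith

end Pool.Agent.Lib.MP7f8c3e
end
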