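import Pool.Agent.Lib.MP_7f8c3e_co.Tight
import Pool.Agent.Lib.MP_7f8c3e_co.Tinf
import Pool.Agent.Lib.MP_7f8c3e_co.Top

section
/-!
# Module START: a cell with a positive fraction of full positions.
-/
set_option autoImplicit false
set_option linter.unusedSimpArgs false

namespace Pool.Agent.Lib.MP7f8c3e

open Filter

namespace StartM

open PigM

theorem cs_odd {t K : ℕ} {c : ℤ} (ht : 1 ≤ t) (hc : c ∈ CS t K) : Odd c := by
  obtain ⟨t, rfl⟩ : ∃ t', t = t' + 1 := ⟨t - 1, by omega⟩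
  obtain ⟨s, k, c', hs, hk, hkK, hc', rfl⟩ := hc
  have h1 : Odd ((3 : ℤ) ^ t * s) := by
    apply Odd.mul
    · exact Odd.pow (by decide)
    · rcases hs with h | h <;> rw [h] <;> decide
  have h2 : Even ((2 : ℤ) ^ k * c') := by
    apply Even.mul_right
    obtain ⟨m, rfl⟩ := hk
    exact ⟨2 ^ (2 * m), by ring⟩
  exact h1.add_even h2

theorem rad_le {N : ℕ} (hN : 1 ≤ N) : rad N ≤ (N : ℝ) ^ (1 / 10 : ℝ) + 8 := by
  unfold rad
  have hN0 : (0 : ℝ) ≤ N := by positivity
  have h1 : (2 : ℝ) ^ (200 * bS N) ≤ N := by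
    have h2 : 2 ^ (200 * bS N) ≤ N := by
      refine (Nat.pow_le_pow_right (by norm_num) ?_).trans (Nat.pow_log_le_self 2 (by omega))
      unfold bS
      omega
    exact_mod_cast h2
  have h3 : (2 : ℝ) ^ (20 * bS N) ≤ (N : ℝ) ^ (1 / 10 : ℝ) := by
    have h4 : ((2 : ℝ) ^ (20 * bS N)) ^ (10 : ℕ) ≤ N := by
      rw [← pow_mul]
      refine le_trans (le_of_eq ?_) h1
      congr 1
      ring
    calc (2 : ℝ) ^ (20 * bS N) = (((2 : ℝ) ^ (20 * bS N)) ^ (10 : ℕ)) ^ (1 / 10 : ℝ) := by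
          have h6 : (1 / 10 : ℝ) = (((10 : ℕ) : ℝ))⁻¹ := by norm_num
          rw [h6, Real.pow_rpow_inv_natCast (by positivity) (by norm_num)]
      _ ≤ (N : ℝ) ^ (1 / 10 : ℝ) := Real.rpow_le_rpow (by positivity) h4 (by norm_num)
  have h5 : (3 / 2 : ℝ) ^ (20 * bS N) ≤ 2 ^ (20 * bS N) :=
    pow_le_pow_left₀ (by norm_num) (by norm_num) _
  linarith

theorem g_le_u (N : ℕ) (M : ℝ) : g N M ≤ u N M := by
  classical
  unfold g u
  have hex : ∀ a : ℕ, ∃ c : ℤ, a ∈ Cls N M → (c ∈ Lv N ∧ |(c : ℝ)| ≤ M * 2 ^ (16 * N) ∧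
      c ≡ a [ZMOD 2 ^ (16 * N + 1)]) := by
    intro a
    by_cases ha : a ∈ Cls N M
    · obtain ⟨c, h⟩ := ha.2
      exact ⟨c, fun _ => h⟩
    · exact ⟨0, fun h => absurd h ha⟩
  choose f hf using hex
  refine Set.ncard_le_ncard_of_injOn f ?_ ?_ (fin_u N M)
  · intro a ha
    exact ⟨(hf a ha).1, (hf a ha).2.1⟩
  · intro a ha b hb hab
    have h1 := (hf a ha).2.2
    have h2 := (hf b hb).2.2
    rw [hab] at h1
    have h3 : (a : ℤ) ≡ b [ZMOD 2 ^ (16 * N + 1)] := h1.symm.trans h2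
    have ha1 : a < 2 ^ (16 * N + 1) := ha.1
    have hb1 : b < 2 ^ (16 * N + 1) := hb.1
    have h4 : a ≡ b [MOD 2 ^ (16 * N + 1)] := by
      rw [← Int.natCast_modEq_iff]
      push_cast
      exact h3
    exact Nat.ModEq.eq_of_lt_of_lt h4 ha1 hb1

theorem fin_dis (N : ℕ) (R : ℝ) : (disSet N R).Finite :=
  (fin_abs (R * 2 ^ (16 * N))).subset (fun _ h => h.1)

theorem dis_mono (N : ℕ) {R R' : ℝ} (h : R ≤ R') : dis N R ≤ dis N R' := by
  apply Set.ncard_le_ncard _ (fin_dis N R')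
  rintro x ⟨h1, h2⟩
  refine ⟨h1.trans ?_, h2⟩
  exact mul_le_mul_of_nonneg_right h (by positivity)

/-- a change of truth value along an interval -/
theorem flip_pos (P : ℤ → Prop) (h0 : P 0) (m : ℕ) (hm : ¬ P m) :
    ∃ j : ℤ, 0 ≤ j ∧ j < m ∧ ¬ (P j ↔ P (j + 1)) := by
  by_contra hcon
  push Not at hcon
  apply hm
  have : ∀ k : ℕ, k ≤ m → P k := by
    intro k
    induction k with
    | zero => intro _; exact_mod_cast h0
    | succ k ih =>
      intro hk
      have h1 := ih (by omega)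
      have h2 := hcon k (by positivity) (by exact_mod_cast hk)
      push_cast
      exact h2.mp h1
  exact this m le_rfl

theorem flip (P : ℤ → Prop) (h0 : P 0) (i : ℤ) (hi : ¬ P i) :
    ∃ j : ℤ, |j| ≤ |i| ∧ ¬ (P j ↔ P (j + 1)) := by
  rcases le_or_gt 0 i with h | h
  · obtain ⟨m, rfl⟩ := Int.eq_ofNat_of_zero_le h
    obtain ⟨j, h1, h2, h3⟩ := flip_pos P h0 m hi
    refine ⟨j, ?_, h3⟩
    rw [abs_of_nonneg h1, abs_of_nonneg h]
    exact h2.le
  · obtain ⟨m, hm⟩ := Int.eq_ofNat_of_zero_le (show 0 ≤ -i by linarith)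
    obtain ⟨j, h1, h2, h3⟩ := flip_pos (fun z => P (-z)) (by simpa using h0) m (by
      rw [← hm]; simpa using hi)
    refine ⟨-j - 1, ?_, ?_⟩
    · rw [abs_of_neg (by linarith), abs_of_neg h]
      linarith
    · intro h4
      apply h3
      have e1 : -j - 1 + 1 = -j := by ring
      have e2 : -(j + 1) = -j - 1 := by ring
      rw [e1] at h4
      simp only [e2]
      exact h4.symm

theorem eventually_L (R₀ : ℝ) (L₀ S₁ b : ℕ) : ∀ᶠ L : ℕ in atTop,
    L₀ ≤ L ∧ S₁ ≤ L ∧ b ≤ L ∧ 1 ≤ L ∧ R₀ + 1 ≤ (L : ℝ) ^ (1 / 8 : ℝ) ∧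
      19 * (L : ℝ) ^ (-(3 / 20) : ℝ) ≤ 1 / 4 ∧ ∀ N : ℕ, L ≤ N → rho ^ N * ((N : ℝ) + 12) ≤ 1 := by
  have h1 : ∀ᶠ L : ℕ in atTop, R₀ + 1 ≤ (L : ℝ) ^ (1 / 8 : ℝ) :=
    ((tendsto_rpow_atTop (by norm_num : (0 : ℝ) < 1 / 8)).comp
      tendsto_natCast_atTop_atTop).eventually (eventually_ge_atTop _)
  have h2 : ∀ᶠ L : ℕ in atTop, 19 * (L : ℝ) ^ (-(3 / 20) : ℝ) ≤ 1 / 4 := by
    have h3 : Tendsto (fun L : ℕ => 19 * (L : ℝ) ^ (-(3 / 20) : ℝ)) atTop (nhds (19 * 0)) :=
      ((tendsto_rpow_neg_atTop (by norm_num : (0 : ℝ) < 3 / 20)).comp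
        tendsto_natCast_atTop_atTop).const_mul 19
    rw [mul_zero] at h3
    filter_upwards [h3.eventually (gt_mem_nhds (show (0 : ℝ) < 1 / 4 by norm_num))] with L hL
    exact hL.le
  have h3 : ∀ᶠ L : ℕ in atTop, ∀ N : ℕ, L ≤ N → rho ^ N * ((N : ℝ) + 12) ≤ 1 := by
    have h4 : Tendsto (fun N : ℕ => (N : ℝ) ^ 1 * rho ^ N) atTop (nhds 0) :=
      tendsto_pow_const_mul_const_pow_of_abs_lt_one 1 (by
        rw [abs_of_pos rho_pos]; exact rho_lt)
    have h5 : Tendsto (fun N : ℕ => 12 * rho ^ N) atTop (nhds (12 * 0)) :=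
      (tendsto_pow_atTop_nhds_zero_of_lt_one rho_pos.le rho_lt).const_mul 12
    have h6 := h4.add h5
    rw [mul_zero, add_zero] at h6
    have h7 := h6.eventually (gt_mem_nhds (show (0 : ℝ) < 1 by norm_num))
    obtain ⟨M, hM⟩ := eventually_atTop.mp h7
    filter_upwards [eventually_ge_atTop M] with L hL N hN
    have := hM N (by omega)
    rw [pow_one] at this
    nlinarith
  filter_upwards [h1, h2, h3, eventually_ge_atTop L₀, eventually_ge_atTop S₁,
    eventually_ge_atTop b, eventually_ge_atTop 1] with L a1 a2 a3 a4 a5 a6 a7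
  exact ⟨a4, a5, a6, a7, a1, a2, a3⟩

end StartM

open PigM StartM

theorem specStart (hTight : SpecTight) (hBad : SpecBad) : SpecStart := by
  classical
  intro W hW hRich
  obtain ⟨κ, C, hκ, hκ1, hC, hT⟩ := hTight
  obtain ⟨L₀, hB⟩ := hBad
  obtain ⟨b, hb⟩ : ∃ b : ℕ, C * κ ^ b ≤ 1 / 4 := by
    have h2 : Tendsto (fun n : ℕ => C * κ ^ n) atTop (nhds (C * 0)) :=
      (tendsto_pow_atTop_nhds_zero_of_lt_one hκ.le hκ1).const_mul C
    rw [mul_zero] at h2
    obtain ⟨b, hb⟩ := (h2.eventually (gt_mem_nhds (show (0 : ℝ) < 1 / 4 by norm_num))).exists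
    exact ⟨b, hb.le⟩
  set R₀ : ℝ := (3 / 2 : ℝ) ^ (20 * b) with hR₀
  have hR1 : 1 ≤ R₀ := one_le_pow₀ (by norm_num)
  refine ⟨R₀, hR1, ?_⟩
  intro S₁
  obtain ⟨L, hL0, hLS, hLb, hL1, hLR, hLs, hLρ⟩ := (eventually_L R₀ L₀ S₁ b).exists
  -- a good level
  obtain ⟨N, hLN, hN2, hGood⟩ : ∃ N : ℕ, L ≤ N ∧ N < 2 * L ∧ Good L N := by
    by_contra hcon
    push Not at hcon
    have h1 := hB L hL0
    have h2 : {N : ℕ | L ≤ N ∧ N < 2 * L ∧ ¬ Good L N} = Set.Ico L (2 * L) := by
      ext N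
      simp only [Set.mem_ofPred_eq, Set.mem_Ico]
      constructor
      · rintro ⟨a1, a2, _⟩; exact ⟨a1, a2⟩
      · rintro ⟨a1, a2⟩; exact ⟨a1, a2, hcon N a1 a2⟩
    rw [h2, ← Finset.coe_Ico, Set.ncard_coe_finset, Nat.card_Ico] at h1
    omega
  have hN1 : 1 ≤ N := by omega
  refine ⟨N, by omega, ?_⟩
  set T : ℤ := 3 ^ (10 * N) with hTdef
  set K : ℤ := 2 ^ (16 * N) with hKdef
  have hT0 : 0 < T := by positivity
  have hK0 : 0 < K := by positivity
  have hTr : (T : ℝ) = 3 ^ (10 * N) := by rw [hTdef]; push_cast; rfl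
  have hKr : (K : ℝ) = 2 ^ (16 * N) := by rw [hKdef]; push_cast; rfl
  have hTR0 : (0 : ℝ) < T := by exact_mod_cast hT0
  have hKR0 : (0 : ℝ) < K := by exact_mod_cast hK0
  have hρT : rho ^ N * K = T := by
    have h1 : rho * 2 ^ 16 = 3 ^ 10 := by unfold rho; norm_num
    rw [hKr, hTr, pow_mul, pow_mul, ← mul_pow, h1]
  have hρi : rho⁻¹ ^ N = K / T := by
    rw [inv_pow, ← hρT]
    have := pow_pos rho_pos N
    field_simp
  have hrad := rad_le hN1
  have hNR : (1 : ℝ) ≤ N := by exact_mod_cast hN1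
  -- the sets
  set A := (fin_u N R₀).toFinset with hA
  set B := (fin_dis N (R₀ + 1)).toFinset with hBdef
  have hJf : {j : ℤ | |(j : ℝ)| ≤ (rad N + 4) / 2}.Finite := fin_abs _
  set J := hJf.toFinset with hJ
  have hradpos : 0 ≤ rad N := by unfold rad; positivity
  have hJcard : (J.card : ℝ) ≤ rad N + 5 := by
    have h1 := card_abs (B := (rad N + 4) / 2) (by linarith)
    have h2 : J.card = {j : ℤ | |(j : ℝ)| ≤ (rad N + 4) / 2}.ncard :=
      (Set.ncard_eq_toFinset_card _ hJf).symm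
    rw [h2]
    linarith
  have hAcard : (3 / 4 : ℝ) * K ≤ A.card := by
    have h1 := hT N b (by omega)
    rw [← hR₀] at h1
    have h2 : (g N R₀ : ℝ) ≤ u N R₀ := by exact_mod_cast g_le_u N R₀
    have h3 : A.card = u N R₀ := (Set.ncard_eq_toFinset_card _ (fin_u N R₀)).symm
    rw [h3, hKr]
    have h4 : (3 / 4 : ℝ) * 2 ^ (16 * N) ≤ (1 - C * κ ^ b) * 2 ^ (16 * N) :=
      mul_le_mul_of_nonneg_right (by linarith) (by positivity)
    linarith
  have hBcard : (J.card : ℝ) * B.card ≤ K / 4 := by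
    have h3 : B.card = dis N (R₀ + 1) := (Set.ncard_eq_toFinset_card _ (fin_dis N (R₀ + 1))).symm
    have h4 : (dis N (R₀ + 1) : ℝ) ≤ dis N ((L : ℝ) ^ (1 / 8 : ℝ)) := by
      exact_mod_cast dis_mono N hLR
    have h5 : (B.card : ℝ) ≤ (L : ℝ) ^ (-(1 / 4) : ℝ) * K := by
      rw [h3, hKr]
      exact h4.trans hGood
    have hLpos : (0 : ℝ) < L := by exact_mod_cast hL1
    have hL1R : (1 : ℝ) ≤ L := by exact_mod_cast hL1
    have h6 : (N : ℝ) ^ (1 / 10 : ℝ) ≤ 2 * (L : ℝ) ^ (1 / 10 : ℝ) := by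
      have a1 : (N : ℝ) ≤ 2 * L := by exact_mod_cast hN2.le
      calc (N : ℝ) ^ (1 / 10 : ℝ) ≤ (2 * L : ℝ) ^ (1 / 10 : ℝ) :=
            Real.rpow_le_rpow (by positivity) a1 (by norm_num)
        _ = 2 ^ (1 / 10 : ℝ) * (L : ℝ) ^ (1 / 10 : ℝ) := Real.mul_rpow (by norm_num) hLpos.le
        _ ≤ 2 * (L : ℝ) ^ (1 / 10 : ℝ) := by
            apply mul_le_mul_of_nonneg_right _ (by positivity)
            calc (2 : ℝ) ^ (1 / 10 : ℝ) ≤ 2 ^ (1 : ℝ) :=
                  Real.rpow_le_rpow_of_exponent_le (by norm_num) (by norm_num)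
              _ = 2 := by norm_num
    have h7 : (1 : ℝ) ≤ (L : ℝ) ^ (1 / 10 : ℝ) := Real.one_le_rpow hL1R (by norm_num)
    have h8 : (J.card : ℝ) ≤ 19 * (L : ℝ) ^ (1 / 10 : ℝ) := by linarith
    calc (J.card : ℝ) * B.card ≤ (19 * (L : ℝ) ^ (1 / 10 : ℝ)) *
          ((L : ℝ) ^ (-(1 / 4) : ℝ) * K) :=
          mul_le_mul h8 h5 (by positivity) (by positivity)
      _ = 19 * ((L : ℝ) ^ (1 / 10 : ℝ) * (L : ℝ) ^ (-(1 / 4) : ℝ)) * K := by ring
      _ = 19 * (L : ℝ) ^ (-(3 / 20) : ℝ) * K := by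
          rw [← Real.rpow_add hLpos]; norm_num
      _ ≤ 1 / 4 * K := mul_le_mul_of_nonneg_right hLs hKR0.le
      _ = K / 4 := by ring
  -- a class with many elements
  have hmaps : ∀ S : Finset ℤ, ∀ c ∈ S, c % T ∈ Finset.Ico (0 : ℤ) T := by
    intro S c _
    rw [Finset.mem_Ico]
    exact ⟨Int.emod_nonneg _ hT0.ne', Int.emod_lt_of_pos _ hT0⟩
  obtain ⟨ζ, hζ⟩ : ∃ ζ : ℤ, (J.card : ℝ) * (B.filter (fun c => c % T = ζ)).card + K / (2 * T) ≤
      (A.filter (fun c => c % T = ζ)).card := by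
    by_contra hcon
    push Not at hcon
    have h1 : A.card = ∑ ζ ∈ Finset.Ico (0 : ℤ) T, (A.filter (fun c => c % T = ζ)).card :=
      Finset.card_eq_sum_card_fiberwise (hmaps A)
    have h2 : B.card = ∑ ζ ∈ Finset.Ico (0 : ℤ) T, (B.filter (fun c => c % T = ζ)).card :=
      Finset.card_eq_sum_card_fiberwise (hmaps B)
    have h3 : (A.card : ℝ) < J.card * B.card + K / 2 := by
      rw [h1, h2]
      push_cast
      rw [Finset.mul_sum]
      have h4 : ∑ ζ ∈ Finset.Ico (0 : ℤ) T, ((K : ℝ) / (2 * T)) = K / 2 := by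
        rw [Finset.sum_const, Int.card_Ico, sub_zero, nsmul_eq_mul]
        have h5 : ((T.toNat : ℕ) : ℝ) = T := by
          have : ((T.toNat : ℤ) : ℝ) = (T : ℝ) := by rw [Int.toNat_of_nonneg hT0.le]
          rw [← this]; push_cast; rfl
        rw [h5]
        field_simp
      rw [← h4, ← Finset.sum_add_distrib]
      apply Finset.sum_lt_sum_of_nonempty
      · exact ⟨0, by rw [Finset.mem_Ico]; exact ⟨le_rfl, hT0⟩⟩
      · intro ζ _
        exact hcon ζ
    linarith
  -- the winner `y`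
  have hcop : IsCoprime K T := by
    rw [hKdef, hTdef]
    apply IsCoprime.pow
    exact Int.isCoprime_iff_gcd_eq_one.mpr (by norm_num)
  obtain ⟨p, q, hpq⟩ := hcop
  obtain ⟨y, hyodd, hyB, hyW, hyz⟩ := hRich (10 * N) (p * ζ) (3 * R₀ + 10)
  have hyζ : T ∣ K * y - ζ := by
    have h1 : T ∣ p * ζ - y := (Int.modEq_iff_dvd).mp hyz
    have h2 : K * y - ζ = -(K * (p * ζ - y)) - q * ζ * T := by
      linear_combination ζ * hpq
    rw [h2]
    exact dvd_sub ((dvd_mul_of_dvd_right h1 K).neg_right) (dvd_mul_left _ _)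
  refine ⟨y, hyB.le, ?_⟩
  set Az := A.filter (fun c => c % T = ζ) with hAz
  set Bz := B.filter (fun c => c % T = ζ) with hBz
  set ν : ℤ → ℤ := fun c => (K * y - c) / T with hν
  have hνeq : ∀ c : ℤ, c % T = ζ → T * ν c = K * y - c := by
    intro c hc
    simp only [hν]
    apply Int.mul_ediv_cancel'
    have h1 : T ∣ c - ζ := by
      have := Int.dvd_sub_self_of_emod_eq hc
      have h2 : c - ζ = -(ζ - c) := by ring
      rw [h2]
      exact this.neg_right
    have h3 : K * y - c = (K * y - ζ) - (c - ζ) := by ring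
    rw [h3]
    exact dvd_sub hyζ h1
  set G := Az.filter (fun c => Full W (rad N + 4) (ν c)) with hG
  -- bad elements
  have hbad : Az ⊆ G ∪ (Bz ×ˢ J).image (fun q => q.1 + 2 * T * q.2) := by
    intro c hc
    rw [Finset.mem_union]
    by_cases hF : Full W (rad N + 4) (ν c)
    · left
      rw [hG, Finset.mem_filter]
      exact ⟨hc, hF⟩
    · right
      have hc' := hc
      rw [hAz, Finset.mem_filter, hA, Set.Finite.mem_toFinset] at hc'
      obtain ⟨⟨hcL, hcR⟩, hcζ⟩ := hc'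
      have hνc := hνeq c hcζ
      unfold Full at hF
      push Not at hF
      obtain ⟨z, hzodd, hzn, hzW⟩ := hF
      have hcodd : Odd c := cs_odd (by omega) hcL
      have hTodd : Odd T := by rw [hTdef]; exact Odd.pow (by decide)
      have hKeven : Even K := by
        rw [hKdef]
        exact (by decide : Even (2 : ℤ)).pow_of_ne_zero (by omega)
      have hνodd : Odd (ν c) := by
        have h1 : Odd (T * ν c) := by
          rw [hνc]
          exact (hKeven.mul_right y).sub_odd hcodd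
        exact (Int.odd_mul.mp h1).2
      obtain ⟨i, hi⟩ : ∃ i : ℤ, z = ν c + 2 * i := by
        obtain ⟨i, hi⟩ := hzodd.sub_odd hνodd
        exact ⟨i, by linarith⟩
      obtain ⟨j, hj1, hj2⟩ := flip (fun j => c - 2 * T * j ∈ Lv N) (by simpa using hcL) i (by
        intro h
        apply hzW
        refine hW (10 * N) (16 * N) (c - 2 * T * i) z y h hyodd hyW ?_
        rw [← hKdef, ← hTdef, hi]
        linear_combination (-1 : ℤ) * hνc)
      have hjr : |(j : ℝ)| ≤ (rad N + 4) / 2 := by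
        have h1 : |(i : ℝ)| ≤ (rad N + 4) / 2 := by
          rw [hi] at hzn
          push_cast at hzn
          rw [add_sub_cancel_left, abs_mul, abs_of_pos (by norm_num : (0 : ℝ) < 2)] at hzn
          linarith
        have h2 : |(j : ℝ)| ≤ |(i : ℝ)| := by exact_mod_cast hj1
        linarith
      rw [Finset.mem_image]
      refine ⟨(c - 2 * T * j, j), ?_, by simp⟩
      rw [Finset.mem_product]
      constructor
      · rw [hBz, Finset.mem_filter, hBdef, Set.Finite.mem_toFinset]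
        refine ⟨⟨?_, ?_⟩, ?_⟩
        · push_cast
          have h1 : |(c : ℝ) - 2 * T * j| ≤ |(c : ℝ)| + |(2 : ℝ) * T * j| := abs_sub _ _
          have h2 : |(2 : ℝ) * T * j| = 2 * T * |(j : ℝ)| := by
            rw [abs_mul, abs_of_nonneg (by positivity : (0 : ℝ) ≤ 2 * T)]
          have h3 : 2 * (T : ℝ) * |(j : ℝ)| ≤ T * (rad N + 4) := by nlinarith
          have h4 : (T : ℝ) * (rad N + 4) ≤ K := by
            rw [← hρT]
            have h5 := hLρ N hLN
            have h6 : (N : ℝ) ^ (1 / 10 : ℝ) ≤ N := by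
              calc (N : ℝ) ^ (1 / 10 : ℝ) ≤ (N : ℝ) ^ (1 : ℝ) :=
                    Real.rpow_le_rpow_of_exponent_le hNR (by norm_num)
                _ = N := Real.rpow_one _
            have h7 : rad N + 4 ≤ N + 12 := by linarith
            have h8 : 0 < rho ^ N := pow_pos rho_pos N
            calc rho ^ N * K * (rad N + 4) ≤ rho ^ N * K * (N + 12) :=
                  mul_le_mul_of_nonneg_left h7 (by positivity)
              _ = (rho ^ N * (N + 12)) * K := by ring
              _ ≤ 1 * K := mul_le_mul_of_nonneg_right h5 hKR0.le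
              _ = K := one_mul _
          rw [← hKr] at hcR ⊢
          linarith
        · intro h
          apply hj2
          show c - 2 * T * j ∈ Lv N ↔ c - 2 * T * (j + 1) ∈ Lv N
          have e : c - 2 * T * (j + 1) = c - 2 * T * j - 2 * 3 ^ (10 * N) := by
            rw [← hTdef]; ring
          rw [e]
          exact h
        · rw [show c - 2 * T * j = c + T * (-(2 * j)) by ring, Int.add_mul_emod_self_left]
          exact hcζ
      · rw [hJ, Set.Finite.mem_toFinset]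
        exact hjr
  have hcount : (Az.card : ℝ) ≤ G.card + J.card * Bz.card := by
    have h1 : Az.card ≤ G.card + Bz.card * J.card := by
      refine (Finset.card_le_card hbad).trans ((Finset.card_union_le _ _).trans ?_)
      have := Finset.card_image_le (s := Bz ×ˢ J) (f := fun q : ℤ × ℤ => q.1 + 2 * T * q.2)
      rw [Finset.card_product] at this
      omega
    have h2 : (Az.card : ℝ) ≤ G.card + Bz.card * J.card := by exact_mod_cast h1
    linarith [mul_comm (J.card : ℝ) Bz.card]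
  have hGbig : (K : ℝ) / (2 * T) ≤ G.card := by linarith
  -- the full positions
  set F := {m : ℤ | Odd m ∧ |(m : ℝ) - rho⁻¹ ^ N * y| ≤ R₀ * rho⁻¹ ^ N ∧
    Full W (rad N + 4) m} with hF
  have hFfin : F.Finite := by
    apply (fin_abs (R₀ * rho⁻¹ ^ N + |rho⁻¹ ^ N * (y : ℝ)|)).subset
    rintro m ⟨_, h1, _⟩
    show |(m : ℝ)| ≤ _
    have h2 : |(m : ℝ)| ≤ |(m : ℝ) - rho⁻¹ ^ N * y| + |rho⁻¹ ^ N * (y : ℝ)| := by
      have := abs_add_le ((m : ℝ) - rho⁻¹ ^ N * y) (rho⁻¹ ^ N * (y : ℝ))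
      rw [sub_add_cancel] at this
      exact this
    linarith
  have hGF : G.card ≤ F.ncard := by
    rw [← Set.ncard_coe_finset]
    apply Set.ncard_le_ncard_of_injOn ν _ _ hFfin
    · intro c hc
      have hc0 : c ∈ G := hc
      rw [hG, Finset.mem_filter, hAz, Finset.mem_filter, hA, Set.Finite.mem_toFinset] at hc0
      obtain ⟨⟨⟨hcL, hcR⟩, hcζ⟩, hcF⟩ := hc0
      have hνc := hνeq c hcζ
      have hcodd : Odd c := cs_odd (by omega) hcL
      have hKeven : Even K := by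
        rw [hKdef]
        exact (by decide : Even (2 : ℤ)).pow_of_ne_zero (by omega)
      refine ⟨?_, ?_, hcF⟩
      · have h1 : Odd (T * ν c) := by
          rw [hνc]
          exact (hKeven.mul_right y).sub_odd hcodd
        exact (Int.odd_mul.mp h1).2
      · have h1 : (T : ℝ) * ν c = K * y - c := by exact_mod_cast hνc
        have h2 : (ν c : ℝ) - rho⁻¹ ^ N * y = -c / T := by
          rw [hρi]
          field_simp
          linarith
        rw [h2, hρi, abs_div, abs_neg, abs_of_pos hTR0, ← mul_div_assoc]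
        apply div_le_div_of_nonneg_right _ hTR0.le
        rw [hKr]
        exact hcR
    · intro c hc c' hc' h
      have h1 : c ∈ G := hc
      have h2 : c' ∈ G := hc'
      rw [hG, Finset.mem_filter, hAz, Finset.mem_filter] at h1 h2
      have h3 := hνeq c h1.1.2
      have h4 := hνeq c' h2.1.2
      rw [h] at h3
      linarith
  have h9 : (G.card : ℝ) ≤ F.ncard := by exact_mod_cast hGF
  have h10 : rho⁻¹ ^ N / 4 ≤ K / (2 * T) := by
    rw [hρi, div_div]
    apply div_le_div_of_nonneg_left hKR0.le (by positivity)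
    linarith
  linarith

end Pool.Agent.Lib.MP7f8c3e
end

section
/-! # Assembly of the density theorem -/
namespace Pool.Agent.Lib.MP7f8c3e

theorem tight : SpecTight := specTight specTinf specSub

theorem bad : SpecBad := specBad (specPig specMono specTinf specIgn)

theorem chain : SpecChain := specChain (specStage tight) specComp bad

theorem density_theorem : SpecTop :=
  specTop specGame specRes (specPha (specStart tight bad) chain) (specRoute chain tight)
    (specFin specTheta)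

end Pool.Agent.Lib.MP7f8c3e
end
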