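import Mathlib

/-!
# Beanstalk: Jack wins from almost every odd number.  Definitions.

See `/team-store/MP_7f8c3e_co_DENSITY.md` for the proof.
-/

namespace Pool.Agent.Lib.MP7f8c3e

/-- The closure property of frozen statement `S09731`, word for word. -/
def Closed (S : Set ℕ) : Prop :=
  ∀ m : ℕ, (∃ m' : ℕ, ((Even m ∧ m' = m / 2) ∨ (Odd m ∧ (m' = 3 * m + 1 ∨ m' = 3 * m - 1))) ∧
    (m' = 1 ∨ ∀ m'' : ℕ, ((Even m' ∧ m'' = m' / 2) ∨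
      (Odd m' ∧ (m'' = 3 * m' + 1 ∨ m'' = 3 * m' - 1))) → m'' ≠ 1 ∧ m'' ∈ S)) → m ∈ S

/-- The least set of positions from which the player to move can force a move to `1`. -/
def Win : Set ℕ := {n | ∀ S : Set ℕ, Closed S → n ∈ S}

/-- The winning integers greater than one. -/
def WZ : Set ℤ := {z | 1 < z ∧ z.toNat ∈ Win}

/-- `c ∈ CS t K`: the constants `c` such that `2^K z = 3^t n + c` describes a solitaire path
`n → z` of `t` steps `n ↦ (3 n + s) / 2 ^ k`, `s = ± 1`, `k` odd, and `K` halvings in total. -/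
def CS : ℕ → ℕ → Set ℤ
  | 0, K => {c | c = 0 ∧ K = 0}
  | (t+1), K => {c | ∃ (s : ℤ) (k : ℕ) (c' : ℤ), (s = 1 ∨ s = -1) ∧ Odd k ∧ k ≤ K ∧
      c' ∈ CS t (K - k) ∧ c = 3 ^ t * s + 2 ^ k * c'}

/-- A set of integers closed under the passage from the end of a solitaire path (an odd number)
to its beginning. -/
def BackClosed (W : Set ℤ) : Prop :=
  ∀ (t K : ℕ) (c n z : ℤ), c ∈ CS t K → Odd z → z ∈ W → 2 ^ K * z = 3 ^ t * n + c → n ∈ W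

/-- Level `N`: `10 N` steps and `16 N` halvings. -/
def Lv (N : ℕ) : Set ℤ := CS (10 * N) (16 * N)

/-- The ratio `3^10/2^16` of one level. -/
noncomputable def rho : ℝ := 59049 / 65536

/-- Classes modulo `2^(16N+1)` represented in `Lv N` by some `c` with `|c| ≤ M 2^(16N)`. -/
def Cls (N : ℕ) (M : ℝ) : Set ℕ :=
  {a | a < 2 ^ (16 * N + 1) ∧ ∃ c ∈ Lv N, |(c : ℝ)| ≤ M * 2 ^ (16 * N) ∧
    c ≡ a [ZMOD 2 ^ (16 * N + 1)]}

/-- The number of classes represented with window `M`. -/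
noncomputable def g (N : ℕ) (M : ℝ) : ℕ := (Cls N M).ncard

/-- Classes modulo `2^(16N+1)` containing an ignition pair `c, c + 2^(16N+1)` of `Lv N`. -/
def Cls2 (N : ℕ) : Set ℕ :=
  {a | a < 2 ^ (16 * N + 1) ∧ ∃ c ∈ Lv N, c + 2 ^ (16 * N + 1) ∈ Lv N ∧
    c ≡ a [ZMOD 2 ^ (16 * N + 1)]}

noncomputable def g2 (N : ℕ) : ℕ := (Cls2 N).ncard

/-- Elements of `Lv N` in the window `R`. -/
def uSet (N : ℕ) (R : ℝ) : Set ℤ := {c | c ∈ Lv N ∧ |(c : ℝ)| ≤ R * 2 ^ (16 * N)}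

noncomputable def u (N : ℕ) (R : ℝ) : ℕ := (uSet N R).ncard

/-- One-sided disagreements: `x ∉ Lv N`, `x - 2·3^(10N) ∈ Lv N`. -/
def dSet (N : ℕ) (R : ℝ) : Set ℤ :=
  {x | |(x : ℝ)| ≤ R * 2 ^ (16 * N) ∧ x ∉ Lv N ∧ x - 2 * 3 ^ (10 * N) ∈ Lv N}

noncomputable def d (N : ℕ) (R : ℝ) : ℕ := (dSet N R).ncard

/-- Two-sided disagreements between `n` and `n + 2`. -/
def disSet (N : ℕ) (R : ℝ) : Set ℤ :=
  {x | |(x : ℝ)| ≤ R * 2 ^ (16 * N) ∧ ¬ (x ∈ Lv N ↔ x - 2 * 3 ^ (10 * N) ∈ Lv N)}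

noncomputable def dis (N : ℕ) (R : ℝ) : ℕ := (disSet N R).ncard

/-- `N` is good at scale `L`: few disagreements in the window `L^(1/8)`. -/
def Good (L N : ℕ) : Prop :=
  (dis N ((L : ℝ) ^ (1 / 8 : ℝ)) : ℝ) ≤ (L : ℝ) ^ (-(1 / 4) : ℝ) * 2 ^ (16 * N)

/-- All odd integers within `R` of the real position `x` are in `W`. -/
def Full (W : Set ℤ) (R x : ℝ) : Prop := ∀ z : ℤ, Odd z → |(z : ℝ) - x| ≤ R → z ∈ W

/-- The block parameter at height `S`. -/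
def bS (S : ℕ) : ℕ := Nat.log 2 S / 200

/-- The radius at height `S`. -/
noncomputable def rad (S : ℕ) : ℝ := (3 / 2 : ℝ) ^ (20 * bS S) + 8

/-- Transfer of full positions from height `Sa` to height `Sb` with error `ε`. -/
def Tr (W : Set ℤ) (Sa Sb : ℕ) (ε : ℝ) : Prop :=
  ∃ Exc : Set ℤ,
    (∀ n : ℤ, Odd n → n ∉ Exc →
      Full W (rad Sa + 2 * (1 - rho ^ (Sb - Sa))) (rho ^ (Sb - Sa) * n) →
      Full W (rad Sb + 4) n) ∧
    (∀ a b : ℤ, rho⁻¹ ^ Sb ≤ ((b : ℝ) - a) →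
      (({n : ℤ | n ∈ Exc ∧ Odd n ∧ a ≤ n ∧ n < b}.ncard : ℕ) : ℝ) ≤ ε * ((b : ℝ) - a))

end Pool.Agent.Lib.MP7f8c3e
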