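import Pool.Agent.Lib.MP_7f8c3e_co.Spec

section
/-!
BAD: most `N ∈ [L, 2L)` are good at scale `L`.
-/
namespace Pool.Agent.Lib.MP7f8c3e

open Filter

theorem specBad (hPig : SpecPig) : SpecBad := by
  obtain ⟨C, hC, L₀, h⟩ := hPig
  -- for large L : C L^(7/8) ≤ L / 8
  obtain ⟨L₁, hL₁⟩ : ∃ L₁ : ℕ, ∀ L : ℕ, L₁ ≤ L → 8 * C ≤ (L : ℝ) ^ (1 / 8 : ℝ) := by
    have h1 : Tendsto (fun L : ℕ => (L : ℝ) ^ (1 / 8 : ℝ)) atTop atTop :=
      (tendsto_rpow_atTop (by norm_num)).comp tendsto_natCast_atTop_atTop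
    exact eventually_atTop.mp (h1.eventually_ge_atTop (8 * C))
  refine ⟨max (max L₀ L₁) 1, ?_⟩
  intro L hL
  have hL0 : L₀ ≤ L := le_trans (le_trans (le_max_left _ _) (le_max_left _ _)) hL
  have hL1 : L₁ ≤ L := le_trans (le_trans (le_max_right _ _) (le_max_left _ _)) hL
  have hL2 : 1 ≤ L := le_trans (le_max_right _ _) hL
  have hLr : (1 : ℝ) ≤ L := by exact_mod_cast hL2
  have hLpos : (0 : ℝ) < L := by linarith
  have hR : (1 : ℝ) ≤ (L : ℝ) ^ (1 / 8 : ℝ) := Real.one_le_rpow hLr (by norm_num)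
  have hsum := h L ((L : ℝ) ^ (1 / 8 : ℝ)) hL0 hR
  classical
  set Bd : Finset ℕ := (Finset.Ico L (2 * L)).filter (fun N => ¬ Good L N) with hBd
  have hset : {N : ℕ | L ≤ N ∧ N < 2 * L ∧ ¬ Good L N} = (Bd : Set ℕ) := by
    ext N
    simp only [hBd, Finset.coe_filter, Finset.mem_Ico, Set.mem_ofPred_eq]
    tauto
  rw [hset, Set.ncard_coe_finset]
  have h2 : (Bd.card : ℝ) * (L : ℝ) ^ (-(1 / 4) : ℝ)
      ≤ ∑ N ∈ Bd, (dis N ((L : ℝ) ^ (1 / 8 : ℝ)) : ℝ) / 2 ^ (16 * N) := by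
    rw [← nsmul_eq_mul]
    apply Finset.card_nsmul_le_sum
    intro N hN
    rw [hBd, Finset.mem_filter] at hN
    have h3 := hN.2
    unfold Good at h3
    push Not at h3
    rw [le_div_iff₀ (by positivity)]
    exact h3.le
  have h4 : ∑ N ∈ Bd, (dis N ((L : ℝ) ^ (1 / 8 : ℝ)) : ℝ) / 2 ^ (16 * N)
      ≤ ∑ N ∈ Finset.Ico L (2 * L), (dis N ((L : ℝ) ^ (1 / 8 : ℝ)) : ℝ) / 2 ^ (16 * N) := by
    apply Finset.sum_le_sum_of_subset_of_nonneg (Finset.filter_subset _ _)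
    intro N _ _
    positivity
  have h5 : (Bd.card : ℝ) * (L : ℝ) ^ (-(1 / 4) : ℝ) ≤ C * (L : ℝ) ^ (1 / 8 : ℝ) * Real.sqrt L :=
    h2.trans (h4.trans hsum)
  -- multiply by L^(1/4)
  have h6 : (Bd.card : ℝ) ≤ C * (L : ℝ) ^ (7 / 8 : ℝ) := by
    have h7 : (Bd.card : ℝ) = (Bd.card : ℝ) * (L : ℝ) ^ (-(1 / 4) : ℝ) * (L : ℝ) ^ (1 / 4 : ℝ) := by
      rw [mul_assoc, ← Real.rpow_add hLpos]
      norm_num
    rw [h7]
    calc (Bd.card : ℝ) * (L : ℝ) ^ (-(1 / 4) : ℝ) * (L : ℝ) ^ (1 / 4 : ℝ)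
        ≤ C * (L : ℝ) ^ (1 / 8 : ℝ) * Real.sqrt L * (L : ℝ) ^ (1 / 4 : ℝ) := by gcongr
      _ = C * (L : ℝ) ^ (7 / 8 : ℝ) := by
        rw [Real.sqrt_eq_rpow, mul_assoc, mul_assoc, ← Real.rpow_add hLpos, ← Real.rpow_add hLpos]
        norm_num
  have h8 : 8 * (C * (L : ℝ) ^ (7 / 8 : ℝ)) ≤ L := by
    calc 8 * (C * (L : ℝ) ^ (7 / 8 : ℝ)) = (8 * C) * (L : ℝ) ^ (7 / 8 : ℝ) := by ring
      _ ≤ (L : ℝ) ^ (1 / 8 : ℝ) * (L : ℝ) ^ (7 / 8 : ℝ) := by
        gcongr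
        exact hL₁ L hL1
      _ = L := by
        rw [← Real.rpow_add hLpos]
        norm_num
  have h9 : (8 * Bd.card : ℝ) ≤ L := by linarith
  exact_mod_cast h9

end Pool.Agent.Lib.MP7f8c3e
end

section
/-!
# CHAIN: transfers with small error between any two heights
-/
namespace Pool.Agent.Lib.MP7f8c3e

namespace ChainM

open Filter

theorem rho_pos : 0 < rho := by
  rw [rho]
  norm_num

theorem rho_lt_one : rho < 1 := by
  rw [rho]
  norm_num

theorem tr_mono {W : Set ℤ} {Sa Sb : ℕ} {e e' : ℝ} (h : Tr W Sa Sb e) (he : e ≤ e') :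
    Tr W Sa Sb e' := by
  obtain ⟨Exc, h1, h2⟩ := h
  refine ⟨Exc, h1, fun a b hab => (h2 a b hab).trans ?_⟩
  have hpos : (0:ℝ) < rho⁻¹ ^ Sb := pow_pos (inv_pos.2 rho_pos) _
  exact mul_le_mul_of_nonneg_right he (by linarith)

/-- Number of bad `N` as a finset. -/
theorem bad_card (L : ℕ) (h : 8 * {N : ℕ | L ≤ N ∧ N < 2 * L ∧ ¬ Good L N}.ncard ≤ L)
    (B : Finset ℕ) (hB : ∀ N ∈ B, L ≤ N ∧ N < 2 * L ∧ ¬ Good L N) : 8 * B.card ≤ L := by
  have hfin : {N : ℕ | L ≤ N ∧ N < 2 * L ∧ ¬ Good L N}.Finite :=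
    (Set.finite_lt_nat (2 * L)).subset (fun a ha => ha.2.1)
  have hsub : (B : Set ℕ) ⊆ {N : ℕ | L ≤ N ∧ N < 2 * L ∧ ¬ Good L N} := fun N hN =>
    hB N (by simpa using hN)
  have h1 := Set.ncard_le_ncard hsub hfin
  rw [Set.ncard_coe_finset] at h1
  omega

theorem exists_good (L : ℕ) (hL : 1 ≤ L)
    (h : 8 * {N : ℕ | L ≤ N ∧ N < 2 * L ∧ ¬ Good L N}.ncard ≤ L) :
    ∃ N, L ≤ N ∧ N < 2 * L ∧ Good L N := by
  by_contra hcon
  push Not at hcon
  have h1 := bad_card L h (Finset.Ico L (2 * L)) (fun N hN => by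
    rw [Finset.mem_Ico] at hN
    exact ⟨hN.1, hN.2, hcon N hN.1 hN.2⟩)
  rw [Nat.card_Ico] at h1
  omega

theorem exists_good_pair (L D : ℕ) (hL : 16 ≤ L) (hD1 : 5 * L ≤ 2 * D) (hD2 : 2 * D ≤ 7 * L)
    (h : 8 * {N : ℕ | L ≤ N ∧ N < 2 * L ∧ ¬ Good L N}.ncard ≤ L) :
    ∃ N, L ≤ N ∧ N < 2 * L ∧ Good L N ∧ N ≤ D ∧ L ≤ D - N ∧ D - N < 2 * L ∧ Good L (D - N) := by
  classical
  by_contra hcon
  push Not at hcon
  set B : Finset ℕ := (Finset.Ico L (2 * L)).filter (fun N => ¬ Good L N) with hBdef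
  have hB : 8 * B.card ≤ L := bad_card L h B (fun N hN => by
    rw [hBdef, Finset.mem_filter, Finset.mem_Ico] at hN
    exact ⟨hN.1.1, hN.1.2, hN.2⟩)
  set I : Finset ℕ := Finset.Ico (max L (D + 1 - 2 * L)) (min (2 * L) (D + 1 - L)) with hI
  have hsub : I ⊆ B ∪ B.image (fun N => D - N) := by
    intro N hN
    rw [hI, Finset.mem_Ico] at hN
    have h1 : L ≤ N := (le_max_left _ _).trans hN.1
    have h2 : D + 1 - 2 * L ≤ N := (le_max_right _ _).trans hN.1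
    have h3 : N < 2 * L := hN.2.trans_le (min_le_left _ _)
    have h4 : N < D + 1 - L := hN.2.trans_le (min_le_right _ _)
    rw [Finset.mem_union]
    by_cases hg : Good L N
    · right
      rw [Finset.mem_image]
      refine ⟨D - N, ?_, by omega⟩
      rw [hBdef, Finset.mem_filter, Finset.mem_Ico]
      exact ⟨⟨by omega, by omega⟩, hcon N h1 h3 hg (by omega) (by omega) (by omega)⟩
    · left
      rw [hBdef, Finset.mem_filter, Finset.mem_Ico]
      exact ⟨⟨h1, h3⟩, hg⟩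
  have hc := (Finset.card_le_card hsub).trans (Finset.card_union_le _ _)
  have hc2 : (B.image (fun N => D - N)).card ≤ B.card := Finset.card_image_le
  rw [hI, Nat.card_Ico] at hc
  omega

/-- Exponential against power. -/
theorem rho_small (c : ℝ) (hc : 0 < c) : ∃ N1 : ℕ, ∀ N : ℕ, N1 ≤ N → ∀ S : ℕ, 1 ≤ S →
    S ≤ 1200 * (N + 1) → 2 * rho ^ N ≤ (S : ℝ) ^ (-c) := by
  set k : ℕ := ⌈c⌉₊ with hk
  have hck : c ≤ k := Nat.le_ceil c
  have t1 := tendsto_pow_const_mul_const_pow_of_abs_lt_one k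
    (show |rho| < 1 by rw [abs_of_pos rho_pos]; exact rho_lt_one)
  have t2 := t1.const_mul (2 * (2400:ℝ) ^ k)
  rw [mul_zero] at t2
  have t3 := t2.eventually (gt_mem_nhds (show (0:ℝ) < 1 by norm_num))
  obtain ⟨N1, h⟩ := Filter.eventually_atTop.1 t3
  refine ⟨N1 + 1, fun N hN S hS hSN => ?_⟩
  have h1 := h N (by omega)
  have hSpos : (0:ℝ) < S := by exact_mod_cast hS
  have hSone : (1:ℝ) ≤ S := by exact_mod_cast hS
  have h2 : (S:ℝ) ^ c ≤ (2400:ℝ) ^ k * (N:ℝ) ^ k := by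
    have e1 : (S:ℝ) ^ c ≤ (S:ℝ) ^ (k : ℝ) := Real.rpow_le_rpow_of_exponent_le hSone hck
    rw [Real.rpow_natCast] at e1
    refine e1.trans ?_
    rw [← mul_pow]
    apply pow_le_pow_left₀ hSpos.le
    have : (S:ℝ) ≤ ((2400 * N : ℕ) : ℝ) := by
      apply Nat.cast_le.2
      omega
    push_cast at this
    exact this
  have h3 : 2 * rho ^ N * (S:ℝ) ^ c ≤ 1 := by
    have hr : 0 < rho ^ N := pow_pos rho_pos N
    calc 2 * rho ^ N * (S:ℝ) ^ c ≤ 2 * rho ^ N * ((2400:ℝ) ^ k * (N:ℝ) ^ k) :=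
          mul_le_mul_of_nonneg_left h2 (by positivity)
      _ = 2 * 2400 ^ k * ((N:ℝ) ^ k * rho ^ N) := by ring
      _ ≤ 1 := h1.le
  rw [Real.rpow_neg hSpos.le, ← one_div, le_div_iff₀ (Real.rpow_pos_of_pos hSpos c)]
  exact h3

theorem gain (c : ℝ) (hc : 0 < c) (S Sb N : ℕ) (hS : 1 ≤ S) (hN : Sb = S + N)
    (hL : Sb ≤ 1300 * N) :
    (1 - (1299 / 1300 : ℝ) ^ c) * (S:ℝ) ^ (-c) ≤ (S:ℝ) ^ (-c) - (Sb:ℝ) ^ (-c) := by
  have hSpos : (0:ℝ) < S := by exact_mod_cast hS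
  have h1 : (S:ℝ) / (1299 / 1300) ≤ Sb := by
    rw [div_le_iff₀ (by norm_num)]
    have e1 : (Sb:ℝ) = S + N := by
      rw [hN]
      push_cast
      ring
    have e2 : (Sb:ℝ) ≤ 1300 * N := by exact_mod_cast hL
    linarith
  have h2 : (Sb:ℝ) ^ (-c) ≤ ((S:ℝ) / (1299 / 1300)) ^ (-c) :=
    Real.rpow_le_rpow_of_nonpos (by positivity) h1 (by linarith)
  have h3 : ((S:ℝ) / (1299 / 1300)) ^ (-c) = (S:ℝ) ^ (-c) * (1299 / 1300 : ℝ) ^ c := by
    rw [Real.div_rpow hSpos.le (by norm_num), Real.rpow_neg (by norm_num : (0:ℝ) ≤ 1299 / 1300),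
      div_inv_eq_mul]
  rw [h3] at h2
  linarith

end ChainM

open ChainM in
/-- CHAIN. -/
theorem specChain (hS : SpecStage) (hC : SpecComp) (hB : SpecBad) : SpecChain := by
  intro W hW ε hε
  obtain ⟨C, c, T0, hCpos, hc, hst⟩ := hS W hW
  obtain ⟨L0, hbad⟩ := hB
  obtain ⟨N1, hN1⟩ := rho_small c hc
  set δ : ℝ := 1 - (1299 / 1300 : ℝ) ^ c with hδ
  have hδpos : 0 < δ := by
    have : (1299 / 1300 : ℝ) ^ c < 1 := Real.rpow_lt_one (by norm_num) (by norm_num) hc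
    linarith
  set B : ℝ := (C + 1) / δ with hBdef
  have hBpos : 0 < B := by positivity
  set A : ℝ := 2 * C + 1 + B with hA
  have hApos : 0 < A := by positivity
  have hlim : ∃ T1 : ℕ, ∀ S : ℕ, T1 ≤ S → A * (S:ℝ) ^ (-c) ≤ min ε 1 := by
    have t1 := (tendsto_rpow_neg_atTop hc).comp (tendsto_natCast_atTop_atTop (R := ℝ))
    have t2 := t1.const_mul A
    rw [mul_zero] at t2
    have t3 := t2.eventually (gt_mem_nhds (show (0:ℝ) < min ε 1 from lt_min hε one_pos))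
    obtain ⟨T1, h⟩ := Filter.eventually_atTop.1 t3
    exact ⟨T1, fun S hS => (h S hS).le⟩
  obtain ⟨T1, hT1⟩ := hlim
  refine ⟨max (max T0 T1) (1200 * (L0 + N1 + 20)), ?_⟩
  intro Sa Sb0 hSa hSb0
  have hSaT0 : T0 ≤ Sa := (le_max_left _ _).trans ((le_max_left _ _).trans hSa)
  have hSaT1 : T1 ≤ Sa := (le_max_right _ _).trans ((le_max_left _ _).trans hSa)
  have hSaL : 1200 * (L0 + N1 + 20) ≤ Sa := (le_max_right _ _).trans hSa
  set l : ℕ := Sa / 500 with hl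
  have hSapos : (0:ℝ) < Sa := by
    have : 0 < Sa := by omega
    exact_mod_cast this
  set Fa : ℝ := (Sa:ℝ) ^ (-c) with hFa
  have hFapos : 0 < Fa := Real.rpow_pos_of_pos hSapos _
  have hAF : A * Fa ≤ min ε 1 := hT1 Sa hSaT1
  have hAF1 : A * Fa ≤ 1 := hAF.trans (min_le_right _ _)
  have hFmono : ∀ S : ℕ, Sa ≤ S → (S:ℝ) ^ (-c) ≤ Fa := by
    intro S hS
    exact Real.rpow_le_rpow_of_nonpos hSapos (by exact_mod_cast hS) (by linarith)
  have hmain : ∀ Sb : ℕ, 5 * l ≤ 2 * (Sb - Sa) → Sa ≤ Sb →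
      Tr W Sa Sb ((2 * C + 1) * Fa + B * (Fa - (Sb:ℝ) ^ (-c))) := by
    intro Sb
    induction Sb using Nat.strong_induction_on with
    | _ Sb ih =>
      intro h5 hSab
      by_cases h7 : 2 * (Sb - Sa) ≤ 7 * l
      · obtain ⟨N, hN1', hN2, hg1, hND, hD1, hD2, hg2⟩ := exists_good_pair l (Sb - Sa) (by omega)
          h5 h7 (hbad l (by omega))
        set N' : ℕ := Sb - Sa - N with hN'
        have s1 := hst Sa l N hSaT0 (by omega) (by omega) hN1' hN2.le hg1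
        have s2 := hst (Sa + N) l N' (by omega) (by omega) (by omega) hD1 hD2.le hg2
        have eSb : Sa + N + N' = Sb := by omega
        rw [eSb] at s2
        have hCF : C * Fa ≤ 1 := by
          refine le_trans ?_ hAF1
          apply mul_le_mul_of_nonneg_right _ hFapos.le
          rw [hA]
          linarith
        have s3 := hC W Sa (Sa + N) Sb _ _ (by omega) (by omega) (by omega)
          (by positivity) hCF s1 s2
        apply tr_mono s3
        have e1 := hFmono (Sa + N) (by omega)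
        have e2 := hFmono Sb hSab
        have e3 : Sb - (Sa + N) = N' := by omega
        have e4 := hN1 N' (by omega) Sa (by omega) (by omega)
        rw [e3]
        have e5 : C * ((Sa + N : ℕ) : ℝ) ^ (-c) ≤ C * Fa := mul_le_mul_of_nonneg_left e1 hCpos.le
        have e6 : 0 ≤ B * (Fa - (Sb:ℝ) ^ (-c)) := mul_nonneg hBpos.le (by linarith)
        linarith
      · push Not at h7
        set L : ℕ := Sb / 1200 with hL
        obtain ⟨N, hLN, hN2, hg⟩ := exists_good L (by omega) (hbad L (by omega))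
        set S : ℕ := Sb - N with hSdef
        have hS1 : 5 * l ≤ 2 * (S - Sa) := by omega
        have hS2 : Sa ≤ S := by omega
        have i1 := ih S (by omega) hS1 hS2
        have s1 := hst S L N (by omega) (by omega) (by omega) hLN hN2.le hg
        have eSb : S + N = Sb := by omega
        rw [eSb] at s1
        have hSpos : (0:ℝ) < S := by
          have : 0 < S := by omega
          exact_mod_cast this
        have hFS := hFmono S hS2
        have hFS0 : 0 < (S:ℝ) ^ (-c) := Real.rpow_pos_of_pos hSpos _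
        have hb0 : 0 ≤ (2 * C + 1) * Fa + B * (Fa - (S:ℝ) ^ (-c)) := by
          have : 0 ≤ B * (Fa - (S:ℝ) ^ (-c)) := mul_nonneg hBpos.le (by linarith)
          have : 0 ≤ (2 * C + 1) * Fa := by positivity
          linarith
        have hb1 : (2 * C + 1) * Fa + B * (Fa - (S:ℝ) ^ (-c)) ≤ 1 := by
          refine le_trans ?_ hAF1
          have : 0 ≤ B * (S:ℝ) ^ (-c) := by positivity
          rw [hA]
          nlinarith
        have s3 := hC W Sa S Sb _ _ (by omega) (by omega) (by omega) hb0 hb1 i1 s1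
        apply tr_mono s3
        have e3 : Sb - S = N := by omega
        rw [e3]
        have e4 := hN1 N (by omega) S (by omega) (by omega)
        have e5 := gain c hc S Sb N (by omega) (by omega) (by omega)
        rw [← hδ] at e5
        have e6 : (C + 1) * (S:ℝ) ^ (-c) ≤ B * ((S:ℝ) ^ (-c) - (Sb:ℝ) ^ (-c)) := by
          have e7 := mul_le_mul_of_nonneg_left e5 hBpos.le
          have e8 : B * (δ * (S:ℝ) ^ (-c)) = (C + 1) * (S:ℝ) ^ (-c) := by
            rw [hBdef]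
            field_simp
          linarith
        linarith
  have hfin := hmain Sb0 (by omega) (by omega)
  apply tr_mono hfin
  refine le_trans ?_ (hAF.trans (min_le_left _ _))
  have hSb0pos : (0:ℝ) < Sb0 := by
    have : 0 < Sb0 := by omega
    exact_mod_cast this
  have : 0 ≤ B * (Sb0:ℝ) ^ (-c) := by positivity
  rw [hA]
  nlinarith

end Pool.Agent.Lib.MP7f8c3e
end

section
/-!
# Module COMP: composition of transfers.
-/
namespace Pool.Agent.Lib.MP7f8c3e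

namespace CompM

/-- The odd integers in a half-open real interval. -/
def OI (x y : ℝ) : Set ℤ := {n : ℤ | Odd n ∧ x ≤ n ∧ (n : ℝ) < y}

theorem OI_eq (x y : ℝ) :
    OI x y = (fun j : ℤ => 2 * j + 1) '' (Set.Ico ⌈(x - 1) / 2⌉ ⌈(y - 1) / 2⌉) := by
  ext n
  simp only [OI, Set.mem_ofPred_eq, Set.mem_image, Set.mem_Ico]
  constructor
  · rintro ⟨⟨j, hj⟩, h1, h2⟩
    refine ⟨j, ⟨?_, ?_⟩, hj.symm⟩
    · rw [Int.ceil_le]
      rw [hj] at h1
      push_cast at h1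
      linarith
    · rw [Int.lt_ceil]
      rw [hj] at h2
      push_cast at h2
      linarith
  · rintro ⟨j, ⟨h1, h2⟩, rfl⟩
    rw [Int.ceil_le] at h1
    rw [Int.lt_ceil] at h2
    refine ⟨⟨j, rfl⟩, ?_, ?_⟩
    · push_cast
      linarith
    · push_cast
      linarith

theorem OI_finite (x y : ℝ) : (OI x y).Finite := by
  rw [OI_eq]
  exact (Set.finite_Ico _ _).image _

theorem OI_ncard (x y : ℝ) :
    (OI x y).ncard = (⌈(y - 1) / 2⌉ - ⌈(x - 1) / 2⌉).toNat := by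
  rw [OI_eq, Set.ncard_image_of_injective _ (fun a b h => by simpa using h)]
  rw [← Finset.coe_Ico, Set.ncard_coe_finset, Int.card_Ico]

theorem OI_le {x y : ℝ} (h : x ≤ y) : ((OI x y).ncard : ℝ) ≤ (y - x) / 2 + 1 := by
  rw [OI_ncard]
  have h1 : ⌈(x - 1) / 2⌉ ≤ ⌈(y - 1) / 2⌉ := Int.ceil_le_ceil (by linarith)
  have h2 : (((⌈(y - 1) / 2⌉ - ⌈(x - 1) / 2⌉).toNat : ℕ) : ℝ)
      = (⌈(y - 1) / 2⌉ : ℝ) - ⌈(x - 1) / 2⌉ := by
    have h3 : (((⌈(y - 1) / 2⌉ - ⌈(x - 1) / 2⌉).toNat : ℕ) : ℤ)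
        = ⌈(y - 1) / 2⌉ - ⌈(x - 1) / 2⌉ := Int.toNat_of_nonneg (by linarith)
    have h4 := congrArg (fun z : ℤ => (z : ℝ)) h3
    push_cast at h4
    exact_mod_cast h4
  rw [h2]
  have h5 := Int.ceil_lt_add_one ((y - 1) / 2)
  have h6 := Int.le_ceil ((x - 1) / 2)
  linarith

theorem le_OI (x y : ℝ) : (y - x) / 2 - 1 ≤ ((OI x y).ncard : ℝ) := by
  rw [OI_ncard]
  have h3 : (⌈(y - 1) / 2⌉ : ℤ) - ⌈(x - 1) / 2⌉
      ≤ (((⌈(y - 1) / 2⌉ - ⌈(x - 1) / 2⌉).toNat : ℕ) : ℤ) := Int.self_le_toNat _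
  have h4 : (⌈(y - 1) / 2⌉ : ℝ) - ⌈(x - 1) / 2⌉
      ≤ (((⌈(y - 1) / 2⌉ - ⌈(x - 1) / 2⌉).toNat : ℕ) : ℝ) := by exact_mod_cast h3
  have h5 := Int.le_ceil ((y - 1) / 2)
  have h6 := Int.ceil_lt_add_one ((x - 1) / 2)
  linarith

theorem rho_pos : 0 < rho := by unfold rho; norm_num
theorem rho_lt_one : rho < 1 := by unfold rho; norm_num
theorem rho_pow_pos (N : ℕ) : 0 < rho ^ N := pow_pos rho_pos N
theorem rho_pow_le_one (N : ℕ) : rho ^ N ≤ 1 := pow_le_one₀ rho_pos.le rho_lt_one.le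

theorem rho_pow_anti {a b : ℕ} (h : a ≤ b) : rho ^ b ≤ rho ^ a :=
  pow_le_pow_of_le_one rho_pos.le rho_lt_one.le h

theorem rho_seven : rho ^ 7 ≤ 1 / 2 := by unfold rho; norm_num

theorem rho_thirty : rho ^ 30 ≤ 1 / 8 := by
  have h : rho ^ 7 ≤ 1 / 2 := rho_seven
  have h1 : rho ^ 21 ≤ 1 / 8 := by
    calc rho ^ 21 = (rho ^ 7) ^ 3 := by ring
      _ ≤ (1 / 2 : ℝ) ^ 3 := pow_le_pow_left₀ (rho_pow_pos 7).le h 3
      _ = 1 / 8 := by norm_num
  exact (rho_pow_anti (by norm_num)).trans h1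

/-- The nearest odd integer of a real position. -/
noncomputable def mo (x : ℝ) : ℤ := 2 * ⌊x / 2⌋ + 1

theorem mo_odd (x : ℝ) : Odd (mo x) := ⟨⌊x / 2⌋, rfl⟩

theorem mo_le (x : ℝ) : (mo x : ℝ) - 1 ≤ x := by
  unfold mo
  push_cast
  have := Int.floor_le (x / 2)
  linarith

theorem lt_mo (x : ℝ) : x < (mo x : ℝ) + 1 := by
  unfold mo
  push_cast
  have := Int.lt_floor_add_one (x / 2)
  linarith

theorem mo_abs (x : ℝ) : |(mo x : ℝ) - x| ≤ 1 := by
  rw [abs_le]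
  constructor
  · linarith [lt_mo x]
  · linarith [mo_le x]

theorem mo_eq {x : ℝ} {m : ℤ} (hm : Odd m) (h1 : (m : ℝ) - 1 ≤ x) (h2 : x < (m : ℝ) + 1) :
    mo x = m := by
  obtain ⟨j, hj⟩ := hm
  unfold mo
  have h3 : ⌊x / 2⌋ = j := by
    rw [Int.floor_eq_iff]
    rw [hj] at h1 h2
    push_cast at h1 h2
    constructor <;> linarith
  rw [h3, hj]

/-- The fibre of the nearest odd position of `q n` over `m`. -/
theorem fib_eq {q : ℝ} (hq : 0 < q) {m : ℤ} (hm : Odd m) :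
    {n : ℤ | Odd n ∧ mo (q * n) = m} = OI (((m : ℝ) - 1) / q) (((m : ℝ) + 1) / q) := by
  ext n
  simp only [OI, Set.mem_ofPred_eq]
  constructor
  · rintro ⟨h1, h2⟩
    refine ⟨h1, ?_, ?_⟩
    · rw [div_le_iff₀ hq, mul_comm, ← h2]
      exact mo_le _
    · rw [lt_div_iff₀ hq, mul_comm, ← h2]
      exact lt_mo _
  · rintro ⟨h1, h2, h3⟩
    rw [div_le_iff₀ hq, mul_comm] at h2
    rw [lt_div_iff₀ hq, mul_comm] at h3
    exact ⟨h1, mo_eq hm h2 h3⟩

theorem fib_le {q : ℝ} (hq : 0 < q) {m : ℤ} (hm : Odd m) :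
    ({n : ℤ | Odd n ∧ mo (q * n) = m}.ncard : ℝ) ≤ q⁻¹ + 1 := by
  rw [fib_eq hq hm]
  have h := OI_le (x := ((m : ℝ) - 1) / q) (y := ((m : ℝ) + 1) / q)
    (by gcongr; linarith)
  have h2 : (((m : ℝ) + 1) / q - ((m : ℝ) - 1) / q) / 2 = q⁻¹ := by
    field_simp
    ring
  linarith

theorem le_fib {q : ℝ} (hq : 0 < q) {m : ℤ} (hm : Odd m) :
    q⁻¹ - 1 ≤ ({n : ℤ | Odd n ∧ mo (q * n) = m}.ncard : ℝ) := by
  rw [fib_eq hq hm]
  have h := le_OI (((m : ℝ) - 1) / q) (((m : ℝ) + 1) / q)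
  have h2 : (((m : ℝ) + 1) / q - ((m : ℝ) - 1) / q) / 2 = q⁻¹ := by
    field_simp
    ring
  linarith

theorem fib_finite {q : ℝ} (hq : 0 < q) {m : ℤ} (hm : Odd m) :
    {n : ℤ | Odd n ∧ mo (q * n) = m}.Finite := by
  rw [fib_eq hq hm]
  exact OI_finite _ _

theorem count_up {q : ℝ} (hq : 0 < q) {A M : Set ℤ} (hM : M.Finite) (hMo : ∀ m ∈ M, Odd m)
    (hA : ∀ n ∈ A, Odd n ∧ mo (q * n) ∈ M) :
    (A.ncard : ℝ) ≤ M.ncard * (q⁻¹ + 1) := by
  classical
  have hAf : A.Finite := by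
    have h1 : A ⊆ ⋃ m ∈ M, {n : ℤ | Odd n ∧ mo (q * n) = m} := by
      intro n hn
      obtain ⟨h2, h3⟩ := hA n hn
      simp only [Set.mem_iUnion]
      exact ⟨_, h3, h2, rfl⟩
    exact (hM.biUnion (fun m hm => fib_finite hq (hMo m hm))).subset h1
  have e1 : A.ncard = hAf.toFinset.card := Set.ncard_eq_toFinset_card A hAf
  have e2 : M.ncard = hM.toFinset.card := Set.ncard_eq_toFinset_card M hM
  rw [e1, e2]
  have h4 : ∀ n ∈ hAf.toFinset, mo (q * n) ∈ hM.toFinset := by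
    intro n hn
    rw [Set.Finite.mem_toFinset] at hn ⊢
    exact (hA n hn).2
  rw [Finset.card_eq_sum_card_fiberwise h4]
  push_cast
  have h5 : ∀ m ∈ hM.toFinset,
      (((hAf.toFinset.filter (fun n : ℤ => mo (q * n) = m)).card : ℕ) : ℝ) ≤ q⁻¹ + 1 := by
    intro m hm
    rw [Set.Finite.mem_toFinset] at hm
    refine le_trans ?_ (fib_le hq (hMo m hm))
    have h6 : (hAf.toFinset.filter (fun n : ℤ => mo (q * n) = m)).card
        = ((hAf.toFinset.filter (fun n : ℤ => mo (q * n) = m) : Finset ℤ) : Set ℤ).ncard :=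
      (Set.ncard_coe_finset _).symm
    have h7 : ((hAf.toFinset.filter (fun n : ℤ => mo (q * n) = m) : Finset ℤ) : Set ℤ).ncard
        ≤ {n : ℤ | Odd n ∧ mo (q * n) = m}.ncard := by
      apply Set.ncard_le_ncard _ (fib_finite hq (hMo m hm))
      intro n hn
      rw [Finset.mem_coe, Finset.mem_filter, Set.Finite.mem_toFinset] at hn
      exact ⟨(hA n hn.1).1, hn.2⟩
    exact Nat.cast_le.mpr (h6.le.trans h7)
  calc ∑ m ∈ hM.toFinset, (((hAf.toFinset.filter (fun n : ℤ => mo (q * n) = m)).card : ℕ) : ℝ)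
      ≤ ∑ _m ∈ hM.toFinset, (q⁻¹ + 1) := Finset.sum_le_sum h5
    _ = hM.toFinset.card * (q⁻¹ + 1) := by rw [Finset.sum_const, nsmul_eq_mul]

theorem count_down {q : ℝ} (hq : 0 < q) {A M : Set ℤ} (hM : M.Finite) (hMo : ∀ m ∈ M, Odd m)
    (hAf : A.Finite) (hA : ∀ n : ℤ, Odd n → mo (q * n) ∈ M → n ∈ A) :
    M.ncard * (q⁻¹ - 1) ≤ (A.ncard : ℝ) := by
  classical
  have e2 : M.ncard = hM.toFinset.card := Set.ncard_eq_toFinset_card M hM
  have hsub : (hM.toFinset.biUnion (fun m => if h : Odd m then (fib_finite hq h).toFinset else ∅))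
      ⊆ hAf.toFinset := by
    intro n hn
    rw [Finset.mem_biUnion] at hn
    obtain ⟨m, hm, hn⟩ := hn
    rw [Set.Finite.mem_toFinset] at hm
    rw [dif_pos (hMo m hm), Set.Finite.mem_toFinset] at hn
    rw [Set.Finite.mem_toFinset]
    refine hA n hn.1 ?_
    rw [hn.2]
    exact hm
  have hdis : ∀ m ∈ hM.toFinset, ∀ m' ∈ hM.toFinset, m ≠ m' → Disjoint
      (if h : Odd m then (fib_finite hq h).toFinset else ∅)
      (if h : Odd m' then (fib_finite hq h).toFinset else ∅) := by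
    intro m hm m' hm' hne
    rw [Set.Finite.mem_toFinset] at hm hm'
    rw [dif_pos (hMo m hm), dif_pos (hMo m' hm'), Finset.disjoint_left]
    intro n hn hn'
    rw [Set.Finite.mem_toFinset] at hn hn'
    exact hne (hn.2.symm.trans hn'.2)
  have h1 := Finset.card_le_card hsub
  rw [Finset.card_biUnion hdis] at h1
  have h2 : ((∑ m ∈ hM.toFinset,
      (if h : Odd m then (fib_finite hq h).toFinset else ∅).card : ℕ) : ℝ) ≤ (A.ncard : ℝ) := by
    rw [Set.ncard_eq_toFinset_card A hAf]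
    exact_mod_cast h1
  refine le_trans ?_ h2
  push_cast
  have h3 : ∀ m ∈ hM.toFinset, q⁻¹ - 1 ≤
      (((if h : Odd m then (fib_finite hq h).toFinset else ∅).card : ℕ) : ℝ) := by
    intro m hm
    rw [Set.Finite.mem_toFinset] at hm
    rw [dif_pos (hMo m hm), ← Set.ncard_eq_toFinset_card _ (fib_finite hq (hMo m hm))]
    exact le_fib hq (hMo m hm)
  rw [e2]
  calc (hM.toFinset.card : ℝ) * (q⁻¹ - 1) = ∑ _m ∈ hM.toFinset, (q⁻¹ - 1) := by
        rw [Finset.sum_const, nsmul_eq_mul]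
    _ ≤ _ := Finset.sum_le_sum h3

theorem full_mono {W : Set ℤ} {R R' x x' : ℝ} (h : R' + |x' - x| ≤ R) (hF : Full W R x) :
    Full W R' x' := by
  intro z hz hzx
  apply hF z hz
  calc |(z : ℝ) - x| = |((z : ℝ) - x') + (x' - x)| := by ring_nf
    _ ≤ |(z : ℝ) - x'| + |x' - x| := abs_add_le _ _
    _ ≤ R' + |x' - x| := by linarith
    _ ≤ R := h

end CompM

open CompM

theorem specComp : SpecComp := by
  intro W Sa S Sb ε₁ ε₂ h1 h2 h3 he0 he1 hT1 hT2
  obtain ⟨E1, hE1, hc1⟩ := hT1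
  obtain ⟨E2, hE2, hc2⟩ := hT2
  obtain ⟨N, hN⟩ : ∃ N, Sb = S + N := ⟨Sb - S, by omega⟩
  obtain ⟨D, hD⟩ : ∃ D, S = Sa + D := ⟨S - Sa, by omega⟩
  have hN7 : 7 ≤ N := by omega
  have hNS : N + 30 ≤ S := by omega
  have eN : Sb - S = N := by omega
  have eD : S - Sa = D := by omega
  have eDN : Sb - Sa = D + N := by omega
  rw [eN] at hE2
  rw [eD] at hE1
  have hq : 0 < rho ^ N := rho_pow_pos N
  have hqD : 0 < rho ^ D := rho_pow_pos D
  refine ⟨E2 ∪ {n : ℤ | mo (rho ^ N * n) ∈ E1}, ?_, ?_⟩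
  · intro n hn hnE hF
    rw [eDN] at hF
    have hn1 : n ∉ E2 := fun h => hnE (Or.inl h)
    have hn2 : mo (rho ^ N * n) ∉ E1 := fun h => hnE (Or.inr h)
    apply hE2 n hn hn1
    have hm := mo_abs (rho ^ N * n)
    have hF2 : Full W (rad S + 4) (mo (rho ^ N * n)) := by
      apply hE1 _ (mo_odd _) hn2
      refine full_mono ?_ hF
      have h5 : |rho ^ D * (mo (rho ^ N * n) : ℝ) - rho ^ (D + N) * n| ≤ rho ^ D := by
        have h6 : rho ^ D * (mo (rho ^ N * n) : ℝ) - rho ^ (D + N) * n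
            = rho ^ D * ((mo (rho ^ N * n) : ℝ) - rho ^ N * n) := by rw [pow_add]; ring
        rw [h6, abs_mul, abs_of_pos hqD]
        nlinarith [abs_nonneg ((mo (rho ^ N * n) : ℝ) - rho ^ N * n)]
      have h7 : 2 * rho ^ (D + N) ≤ rho ^ D := by
        have h8 : rho ^ N ≤ 1 / 2 := (rho_pow_anti hN7).trans rho_seven
        rw [pow_add]
        nlinarith
      linarith
    refine full_mono ?_ hF2
    have h9 : |rho ^ N * (n : ℝ) - (mo (rho ^ N * n) : ℝ)| ≤ 1 := by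
      rw [abs_sub_comm]
      exact hm
    linarith
  · intro a b hab
    have hrS : rho⁻¹ ^ Sb = (rho ^ Sb)⁻¹ := inv_pow _ _
    rw [hrS] at hab
    have hSbpos : 0 < rho ^ Sb := rho_pow_pos Sb
    have hba : (0 : ℝ) < (b : ℝ) - a := lt_of_lt_of_le (inv_pos.mpr hSbpos) hab
    set q : ℝ := rho ^ N with hqdef
    -- interval for m
    set a' : ℤ := ⌊q * a⌋ - 1 with ha'
    set b' : ℤ := ⌈q * b⌉ + 1 with hb'
    have ha1 : (a' : ℝ) ≤ q * a - 1 := by
      rw [ha']; push_cast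
      linarith [Int.floor_le (q * a)]
    have ha2 : q * a - 2 ≤ (a' : ℝ) := by
      rw [ha']; push_cast
      linarith [Int.lt_floor_add_one (q * a)]
    have hb1 : q * b + 1 ≤ (b' : ℝ) := by
      rw [hb']; push_cast
      linarith [Int.le_ceil (q * b)]
    have hb2 : (b' : ℝ) ≤ q * b + 2 := by
      rw [hb']; push_cast
      linarith [Int.ceil_lt_add_one (q * b)]
    have hqS : rho ^ Sb = rho ^ S * q := by rw [hN, pow_add]
    have hSpos : 0 < rho ^ S := rho_pow_pos S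
    have hqab : (rho ^ S)⁻¹ ≤ q * ((b : ℝ) - a) := by
      have h5 : q * (rho ^ Sb)⁻¹ = (rho ^ S)⁻¹ := by
        rw [hqS]; field_simp
      calc (rho ^ S)⁻¹ = q * (rho ^ Sb)⁻¹ := h5.symm
        _ ≤ q * ((b : ℝ) - a) := mul_le_mul_of_nonneg_left hab hq.le
    have hM := hc1 a' b' (by
      rw [inv_pow]
      linarith)
    set M : Set ℤ := {n : ℤ | n ∈ E1 ∧ Odd n ∧ a' ≤ n ∧ n < b'} with hMdef
    have hMfin : M.Finite := (Set.finite_Ico a' b').subset (fun n hn => ⟨hn.2.2.1, hn.2.2.2⟩)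
    set A1 : Set ℤ := {n : ℤ | n ∈ E2 ∧ Odd n ∧ a ≤ n ∧ n < b} with hA1
    set A2 : Set ℤ := {n : ℤ | mo (q * n) ∈ E1 ∧ Odd n ∧ a ≤ n ∧ n < b} with hA2
    have hA1f : A1.Finite := (Set.finite_Ico a b).subset (fun n hn => ⟨hn.2.2.1, hn.2.2.2⟩)
    have hA2f : A2.Finite := (Set.finite_Ico a b).subset (fun n hn => ⟨hn.2.2.1, hn.2.2.2⟩)
    have hcA2 : (A2.ncard : ℝ) ≤ M.ncard * (q⁻¹ + 1) := by
      apply count_up hq hMfin (fun m hm => hm.2.1)
      rintro n ⟨h5, h6, h7, h8⟩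
      refine ⟨h6, h5, mo_odd _, ?_, ?_⟩
      · have h9 : (a : ℝ) ≤ n := by exact_mod_cast h7
        have h10 : q * a ≤ q * n := mul_le_mul_of_nonneg_left h9 hq.le
        have h11 := lt_mo (q * n)
        have h12 : (a' : ℝ) ≤ mo (q * n) := by linarith
        exact_mod_cast h12
      · have h9 : (n : ℝ) < b := by exact_mod_cast h8
        have h10 : q * n < q * b := mul_lt_mul_of_pos_left h9 hq
        have h11 := mo_le (q * n)
        have h12 : (mo (q * n) : ℝ) < b' := by linarith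
        exact_mod_cast h12
    have hcA1 : (A1.ncard : ℝ) ≤ ε₂ * ((b : ℝ) - a) := hc2 a b (by rw [hrS]; exact hab)
    have hunion : {n : ℤ | n ∈ E2 ∪ {n : ℤ | mo (rho ^ N * n) ∈ E1} ∧ Odd n ∧ a ≤ n ∧ n < b}
        ⊆ A1 ∪ A2 := by
      rintro n ⟨h5 | h5, h6⟩
      · exact Or.inl ⟨h5, h6⟩
      · exact Or.inr ⟨h5, h6⟩
    have h5 : (({n : ℤ | n ∈ E2 ∪ {n : ℤ | mo (rho ^ N * n) ∈ E1} ∧ Odd n ∧ a ≤ n ∧
        n < b}.ncard : ℕ) : ℝ) ≤ A1.ncard + A2.ncard := by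
      have h6 := (Set.ncard_le_ncard hunion (hA1f.union hA2f)).trans (Set.ncard_union_le A1 A2)
      exact_mod_cast h6
    have hqi : 0 < q⁻¹ := inv_pos.mpr hq
    have hqq : q * q⁻¹ = 1 := mul_inv_cancel₀ hq.ne'
    have hMle : (M.ncard : ℝ) ≤ ε₁ * (q * ((b : ℝ) - a) + 4) := by
      refine hM.trans (mul_le_mul_of_nonneg_left ?_ he0)
      linarith
    -- numbers
    have hx1 : rho ^ S ≤ q / 8 := by
      have h6 : rho ^ S ≤ rho ^ (N + 30) := rho_pow_anti hNS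
      rw [pow_add] at h6
      have h7 := rho_thirty
      have h8 : rho ^ N * rho ^ 30 ≤ rho ^ N * (1 / 8) := mul_le_mul_of_nonneg_left h7 hq.le
      rw [← hqdef] at h6 h8
      linarith
    have hq1 : q ≤ 1 := rho_pow_le_one N
    -- 4 q⁻¹ + 4 ≤ q (b - a)
    have hx2 : 4 * q⁻¹ + 4 ≤ q * ((b : ℝ) - a) := by
      have h6 : (8 : ℝ) * q⁻¹ ≤ (rho ^ S)⁻¹ := by
        rw [le_inv_comm₀ (by positivity) hSpos, mul_inv, inv_inv]
        linarith
      have h7 : 1 ≤ q⁻¹ := (one_le_inv₀ hq).mpr hq1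
      linarith
    have hfin : ε₁ * (q * ((b : ℝ) - a) + 4) * (q⁻¹ + 1)
        ≤ ε₁ * ((b : ℝ) - a) + 2 * q * ((b : ℝ) - a) := by
      have h6 : (q * ((b : ℝ) - a) + 4) * (q⁻¹ + 1)
          = ((b : ℝ) - a) * (q * q⁻¹) + q * ((b : ℝ) - a) + (4 * q⁻¹ + 4) := by ring
      rw [mul_assoc, h6, hqq]
      have h7 : ε₁ * (((b : ℝ) - a) * 1 + q * ((b : ℝ) - a) + (4 * q⁻¹ + 4))
          ≤ ε₁ * (((b : ℝ) - a) + 2 * (q * ((b : ℝ) - a))) :=
        mul_le_mul_of_nonneg_left (by linarith) he0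
      have h8 : 0 ≤ q * ((b : ℝ) - a) := by positivity
      nlinarith
    have h6 : (M.ncard : ℝ) * (q⁻¹ + 1) ≤ ε₁ * (q * ((b : ℝ) - a) + 4) * (q⁻¹ + 1) :=
      mul_le_mul_of_nonneg_right hMle (by positivity)
    rw [eN]
    calc _ ≤ (A1.ncard : ℝ) + A2.ncard := h5
      _ ≤ ε₂ * ((b : ℝ) - a) + (ε₁ * ((b : ℝ) - a) + 2 * q * ((b : ℝ) - a)) := by linarith
      _ = (ε₁ + ε₂ + 2 * q) * ((b : ℝ) - a) := by ring

end Pool.Agent.Lib.MP7f8c3e
end

section
/-!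
# FIN: the double counting over routes (Beanstalk density theorem)
-/
namespace Pool.Agent.Lib.MP7f8c3e

namespace FinM

lemma rho_pos : 0 < rho := by unfold rho; norm_num

lemma rho_lt_one : rho < 1 := by unfold rho; norm_num

lemma one_lt_inv : 1 < rho⁻¹ := by unfold rho; norm_num

lemma hit {x0 θ v B : ℝ} {Lm : ℕ} (h1 : 1 < θ) (hv : x0 < v) (hB : v ≤ B)
    (hL : B ≤ θ ^ Lm * x0) :
    ∃ l, l ≤ Lm ∧ v ≤ θ ^ l * x0 ∧ θ ^ l * x0 < v + (θ - 1) * B := by
  classical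
  have hex : ∃ l, v ≤ θ ^ l * x0 := ⟨Lm, hB.trans hL⟩
  obtain ⟨l, hl, hmin⟩ : ∃ l, v ≤ θ ^ l * x0 ∧ ∀ k < l, ¬ v ≤ θ ^ k * x0 :=
    ⟨Nat.find hex, Nat.find_spec hex, fun k hk => Nat.find_min hex hk⟩
  refine ⟨l, ?_, hl, ?_⟩
  · by_contra hc
    push Not at hc
    exact hmin Lm hc (hB.trans hL)
  · rcases l with _ | k
    · simp only [pow_zero, one_mul] at hl
      exact absurd hl (not_le.mpr hv)
    · have hk := hmin k (Nat.lt_succ_self k)
      push Not at hk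
      have h2 : θ ^ (k + 1) * x0 = θ * (θ ^ k * x0) := by ring
      have h3 : θ * (θ ^ k * x0) < θ * v := by
        apply mul_lt_mul_of_pos_left hk; linarith
      have h4 : (θ - 1) * v ≤ (θ - 1) * B := by
        apply mul_le_mul_of_nonneg_left hB; linarith
      rw [h2]
      nlinarith

lemma odd_close {m m' : ℤ} (hm : Odd m) (hm' : Odd m') (h1 : m < m' + 2) (h2 : m' < m + 2) :
    m = m' := by
  obtain ⟨a, ha⟩ := hm
  obtain ⟨b, hb⟩ := hm'
  omega

lemma count {F : Finset ℤ} (hF : ∀ m ∈ F, Odd m) {D : ℝ} (hD : 0 < D) {K Lm : ℕ}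
    (hK : (K : ℝ) * D ≤ 2) {x : ℕ → ℝ}
    (hx : ∀ m ∈ F, ∀ k < K, ∃ l, l ≤ Lm ∧ (m : ℝ) - 1 + k * D ≤ x l ∧
      x l < (m : ℝ) - 1 + k * D + D) :
    F.card * K ≤ ((Finset.range (Lm + 1)).filter (fun l => ∃ m ∈ F, |x l - m| ≤ 1)).card := by
  classical
  have hx' : ∀ p : ℤ × ℕ, ∃ l, p.1 ∈ F → p.2 < K → l ≤ Lm ∧ (p.1 : ℝ) - 1 + p.2 * D ≤ x l ∧
      x l < (p.1 : ℝ) - 1 + p.2 * D + D := by
    intro p
    by_cases h1 : p.1 ∈ F
    · by_cases h2 : p.2 < K
      · obtain ⟨l, hl⟩ := hx p.1 h1 p.2 h2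
        exact ⟨l, fun _ _ => hl⟩
      · exact ⟨0, fun _ h => absurd h h2⟩
    · exact ⟨0, fun h => absurd h h1⟩
  choose f hf using hx'
  have hb : ∀ k : ℕ, k < K → 0 ≤ (k : ℝ) * D ∧ (k : ℝ) * D + D ≤ 2 := by
    intro k hk
    have h1 : (k : ℝ) + 1 ≤ K := by exact_mod_cast hk
    have h2 : (0 : ℝ) ≤ k := Nat.cast_nonneg k
    constructor
    · positivity
    · nlinarith
  calc F.card * K = (F ×ˢ Finset.range K).card := by
        rw [Finset.card_product, Finset.card_range]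
    _ ≤ _ := by
        apply Finset.card_le_card_of_injOn f
        · rintro ⟨m, k⟩ hp
          simp only [Finset.coe_product, Set.mem_prod, Finset.mem_coe, Finset.mem_range] at hp
          obtain ⟨a1, a2, a3⟩ := hf (m, k) hp.1 hp.2
          obtain ⟨b1, b2⟩ := hb k hp.2
          simp only [Finset.coe_filter, Finset.mem_range, Set.mem_ofPred_eq]
          refine ⟨by omega, m, hp.1, ?_⟩
          rw [abs_le]
          simp only at a2 a3
          constructor <;> linarith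
        · rintro ⟨m, k⟩ hp ⟨m', k'⟩ hp' heq
          simp only [Finset.coe_product, Set.mem_prod, Finset.mem_coe, Finset.mem_range] at hp hp'
          obtain ⟨a1, a2, a3⟩ := hf (m, k) hp.1 hp.2
          obtain ⟨b1, b2⟩ := hb k hp.2
          obtain ⟨a1', a2', a3'⟩ := hf (m', k') hp'.1 hp'.2
          obtain ⟨b1', b2'⟩ := hb k' hp'.2
          rw [← heq] at a2' a3'
          simp only at a2 a3 a2' a3'
          have hmm : m = m' := by
            apply odd_close (hF m hp.1) (hF m' hp'.1)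
            · have : (m : ℝ) < m' + 2 := by linarith
              exact_mod_cast this
            · have : (m' : ℝ) < m + 2 := by linarith
              exact_mod_cast this
          subst hmm
          have hkk : k = k' := by
            have h1 : ((k : ℝ) - (k' + 1)) * D < 0 := by linarith
            have h2 : ((k' : ℝ) - (k + 1)) * D < 0 := by linarith
            have h3 : (k : ℝ) < k' + 1 := by
              by_contra hc
              push Not at hc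
              have := mul_nonneg (sub_nonneg.mpr hc) hD.le
              linarith
            have h4 : (k' : ℝ) < k + 1 := by
              by_contra hc
              push Not at hc
              have := mul_nonneg (sub_nonneg.mpr hc) hD.le
              linarith
            have h5 : k < k' + 1 := by exact_mod_cast h3
            have h6 : k' < k + 1 := by exact_mod_cast h4
            omega
          rw [hkk]

lemma double {B : Finset ℤ} {Lm h : ℕ} {E : ℕ → Set ℤ} {e : ℝ}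
    [∀ n l, Decidable (n ∈ E l)]
    (h1 : ∀ n ∈ B, h ≤ ((Finset.range (Lm + 1)).filter (fun l => n ∈ E l)).card)
    (h2 : ∀ l ≤ Lm, ((B.filter (fun n => n ∈ E l)).card : ℝ) ≤ e) :
    (B.card : ℝ) * h ≤ (Lm + 1) * e := by
  have hc : ∑ n ∈ B, ((Finset.range (Lm + 1)).filter (fun l => n ∈ E l)).card =
      ∑ l ∈ Finset.range (Lm + 1), (B.filter (fun n => n ∈ E l)).card := by
    simp only [Finset.card_filter]
    exact Finset.sum_comm
  have h3 : B.card * h ≤ ∑ n ∈ B, ((Finset.range (Lm + 1)).filter (fun l => n ∈ E l)).card := by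
    have := Finset.card_nsmul_le_sum B _ h h1
    simpa using this
  have h4 : ((∑ l ∈ Finset.range (Lm + 1), (B.filter (fun n => n ∈ E l)).card : ℕ) : ℝ) ≤
      (Lm + 1) * e := by
    push_cast
    have := Finset.sum_le_card_nsmul (Finset.range (Lm + 1))
      (fun l => ((B.filter (fun n => n ∈ E l)).card : ℝ)) e
      (fun l hl => h2 l (by have := Finset.mem_range.mp hl; omega))
    simpa using this
  rw [hc] at h3
  calc (B.card : ℝ) * h = ((B.card * h : ℕ) : ℝ) := by push_cast; ring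
    _ ≤ _ := by exact_mod_cast h3
    _ ≤ _ := h4

lemma full_near {W : Set ℤ} {r x m : ℝ} (h : Full W (r + 4) m) (hx : |x - m| ≤ 1) :
    Full W (r + 3) x := by
  intro z hz hzx
  apply h z hz
  have h1 : |(z : ℝ) - m| ≤ |(z : ℝ) - x| + |x - m| := by
    have := abs_add_le ((z : ℝ) - x) (x - m)
    have h2 : (z : ℝ) - x + (x - m) = z - m := by ring
    rw [h2] at this
    exact this
  linarith

end FinM

open FinM in
theorem specFin (hTheta : SpecTheta) : SpecFin := by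
  classical
  intro W hA hR ε hε
  obtain ⟨R₀, y, S₁, hR₀, hy, hA⟩ := hA
  have hy13 : (13 : ℝ) ≤ y := by linarith
  have hypos : (0 : ℝ) < y := by linarith
  obtain ⟨ε₁, hε₁⟩ : ∃ e : ℝ, e = ε / (320 * y) := ⟨_, rfl⟩
  have hε₁pos : 0 < ε₁ := by rw [hε₁]; positivity
  obtain ⟨S₀, hR⟩ := hR ε₁ hε₁pos
  obtain ⟨Sj, hSj⟩ : ∃ s : ℕ, s = max S₀ S₁ := ⟨_, rfl⟩
  have hSj0 : S₀ ≤ Sj := by rw [hSj]; exact le_max_left _ _
  have hSj1 : S₁ ≤ Sj := by rw [hSj]; exact le_max_right _ _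
  have hrp : 0 < rho⁻¹ := inv_pos.mpr rho_pos
  have hAj := hA Sj hSj1
  obtain ⟨P, hP⟩ : ∃ p : ℝ, p = rho⁻¹ ^ Sj := ⟨_, rfl⟩
  have hP1 : 1 ≤ P := by rw [hP]; exact one_le_pow₀ one_lt_inv.le
  have hPpos : 0 < P := by linarith
  obtain ⟨Y, hY⟩ : ∃ p : ℝ, p = P * y := ⟨_, rfl⟩
  have hYpos : 0 < Y := by rw [hY]; positivity
  rw [← hP, ← hY] at hAj
  -- the set F
  have hFfin : {m : ℤ | Odd m ∧ |(m : ℝ) - Y| ≤ (R₀ + 1) * P ∧
      Full W (rad Sj + 4) m}.Finite := by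
    apply Set.finite_of_ncard_ne_zero
    intro h0
    rw [h0] at hAj
    have : 0 < P / 8 := by positivity
    simp at hAj
    linarith
  obtain ⟨F, hF⟩ : ∃ F : Finset ℤ, ∀ m : ℤ, m ∈ F ↔ (Odd m ∧ |(m : ℝ) - Y| ≤ (R₀ + 1) * P ∧
      Full W (rad Sj + 4) m) := ⟨hFfin.toFinset, fun m => by simp⟩
  have hFcard : P / 8 ≤ (F.card : ℝ) := by
    have : ({m : ℤ | Odd m ∧ |(m : ℝ) - Y| ≤ (R₀ + 1) * P ∧
      Full W (rad Sj + 4) m}) = (F : Set ℤ) := by
      ext m; simp [hF]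
    rw [this, Set.ncard_coe_finset] at hAj
    exact hAj
  have hFb : ∀ m ∈ F, Y / 4 < (m : ℝ) - 1 ∧ (m : ℝ) + 1 ≤ 2 * Y := by
    intro m hm
    obtain ⟨-, h1, -⟩ := (hF m).mp hm
    have h2 : (R₀ + 1) * P ≤ (y - 7) / 3 * P := by
      apply mul_le_mul_of_nonneg_right _ hPpos.le
      linarith
    have h3 := abs_le.mp (h1.trans h2)
    have h4 : (y : ℝ) ≤ Y := by rw [hY]; nlinarith
    have h5 : (y - 7) / 3 * P = Y / 3 - 7 / 3 * P := by rw [hY]; ring
    rw [h5] at h3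
    have h6 : Y ≥ 13 * P := by rw [hY]; nlinarith
    constructor <;> linarith
  -- the scaling factor
  obtain ⟨i1, N1, hi1, hN1, hθ1, hθ2⟩ := hTheta (1 / (8 * Y)) (by positivity)
  obtain ⟨θ, hθ⟩ : ∃ t : ℝ, t = (3 / 2 : ℝ) ^ i1 * rho ^ N1 := ⟨_, rfl⟩
  rw [← hθ] at hθ1 hθ2
  obtain ⟨q, hq⟩ : ∃ q : ℝ, q = θ - 1 := ⟨_, rfl⟩
  have hq0 : 0 < q := by rw [hq]; linarith
  have hqY : q * (8 * Y) < 1 := by
    have : q < 1 / (8 * Y) := by rw [hq]; linarith
    rwa [lt_div_iff₀ (by positivity)] at this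
  have hq1 : q < 1 / 8 := by
    have : (13 : ℝ) ≤ Y := by rw [hY]; nlinarith
    nlinarith
  obtain ⟨Lm, hLm⟩ : ∃ L : ℕ, L = ⌈19 / q⌉₊ := ⟨_, rfl⟩
  have hLm1 : (19 : ℝ) / q ≤ Lm := by rw [hLm]; exact Nat.le_ceil _
  have hLm2 : (Lm : ℝ) + 1 ≤ 20 / q := by
    have h1 : (Lm : ℝ) < 19 / q + 1 := by rw [hLm]; exact Nat.ceil_lt_add_one (by positivity)
    have h2 : (2 : ℝ) ≤ 1 / q := by rw [le_div_iff₀ hq0]; linarith
    have h3 : (20 : ℝ) / q = 19 / q + 1 / q := by ring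
    linarith
  have hθL : 20 ≤ θ ^ Lm := by
    have h1 := one_add_mul_le_pow (a := q) (by linarith : (-2 : ℝ) ≤ q) Lm
    have h2 : 1 + q = θ := by rw [hq]; ring
    rw [h2] at h1
    have h3 : (19 : ℝ) ≤ Lm * q := by rwa [div_le_iff₀ hq0] at hLm1
    linarith
  -- thresholds
  choose S1f hS1f using fun i => hR Sj i hSj0
  obtain ⟨Smin, hSmin⟩ : ∃ s : ℕ, s = max (Sj + 1)
    ((Finset.range (Lm + 1)).sup (fun l => S1f (i1 * l))) := ⟨_, rfl⟩
  have hSmin1 : Sj + 1 ≤ Smin := by rw [hSmin]; exact le_max_left _ _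
  have hSmin2 : ∀ l ≤ Lm, S1f (i1 * l) ≤ Smin := by
    intro l hl
    rw [hSmin]
    refine le_trans ?_ (le_max_right _ _)
    exact Finset.le_sup (f := fun l => S1f (i1 * l)) (Finset.mem_range.mpr (by omega))
  obtain ⟨X₀, hX₀⟩ : ∃ X₀ : ℕ, (y : ℝ) / 8 * rho⁻¹ ^ Smin < X₀ := exists_nat_gt _
  refine ⟨X₀, fun X hX => ?_⟩
  have hXpos : (y : ℝ) / 8 * rho⁻¹ ^ Smin < X := lt_of_lt_of_le hX₀ (by exact_mod_cast hX)
  have hX0 : (0 : ℝ) < X := lt_trans (by positivity) hXpos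
  -- the height
  have hex : ∃ S : ℕ, rho ^ S * (2 * X) ≤ y / 4 := by
    obtain ⟨n, hn⟩ := exists_pow_lt_of_lt_one (x := (y : ℝ) / 4 / (2 * X)) (by positivity)
      rho_lt_one
    refine ⟨n, ?_⟩
    rw [lt_div_iff₀ (by positivity)] at hn
    exact hn.le
  obtain ⟨S, hS, hSm⟩ : ∃ S : ℕ, rho ^ S * (2 * X) ≤ y / 4 ∧
      ∀ k < S, ¬ rho ^ k * (2 * X) ≤ (y : ℝ) / 4 :=
    ⟨Nat.find hex, Nat.find_spec hex, fun k hk => Nat.find_min hex hk⟩
  have hSlt : Smin < S := by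
    by_contra hc
    push Not at hc
    have h1 : rho ^ Smin ≤ rho ^ S := pow_le_pow_of_le_one rho_pos.le rho_lt_one.le hc
    have h2 : rho ^ Smin * (2 * X) ≤ y / 4 :=
      le_trans (mul_le_mul_of_nonneg_right h1 (by positivity)) hS
    have h3 : rho ^ Smin * rho⁻¹ ^ Smin = 1 := by
      rw [← mul_pow, mul_inv_cancel₀ rho_pos.ne', one_pow]
    have h4 : rho ^ Smin * ((y : ℝ) / 8 * rho⁻¹ ^ Smin) < rho ^ Smin * X :=
      mul_lt_mul_of_pos_left hXpos (pow_pos rho_pos _)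
    have h5 : rho ^ Smin * ((y : ℝ) / 8 * rho⁻¹ ^ Smin) = y / 8 := by
      calc rho ^ Smin * ((y : ℝ) / 8 * rho⁻¹ ^ Smin) =
          (y : ℝ) / 8 * (rho ^ Smin * rho⁻¹ ^ Smin) := by ring
        _ = y / 8 := by rw [h3, mul_one]
    linarith
  obtain ⟨T, rfl⟩ : ∃ T, S = T + 1 := ⟨S - 1, by omega⟩
  have hST := hSm T (Nat.lt_succ_self T)
  push Not at hST
  -- lower bound of rho ^ S * X
  have hlow : (y : ℝ) / 10 ≤ rho ^ (T + 1) * X := by
    have h1 : rho ^ (T + 1) * X = rho * (rho ^ T * (2 * X)) / 2 := by ring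
    have h2 : rho * (y / 4) ≤ rho * (rho ^ T * (2 * X)) :=
      mul_le_mul_of_nonneg_left hST.le rho_pos.le
    have h3 : (0.9 : ℝ) ≤ rho := by unfold rho; norm_num
    have h4 : (0.9 : ℝ) * (y / 4) ≤ rho * (y / 4) :=
      mul_le_mul_of_nonneg_right h3 (by positivity)
    rw [h1]
    linarith
  have hXrho : rho⁻¹ ^ (T + 1) ≤ X := by
    have h3 : rho ^ (T + 1) * rho⁻¹ ^ (T + 1) = 1 := by
      rw [← mul_pow, mul_inv_cancel₀ rho_pos.ne', one_pow]
    have h4 : (1 : ℝ) ≤ rho ^ (T + 1) * X := by linarith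
    have h5 : rho ^ (T + 1) * rho⁻¹ ^ (T + 1) ≤ rho ^ (T + 1) * X := by rw [h3]; exact h4
    exact le_of_mul_le_mul_left h5 (pow_pos rho_pos _)
  have hSle : Sj ≤ T + 1 := by omega
  -- the exceptional sets
  have hE : ∀ l : ℕ, ∃ E : Set ℤ, l ≤ Lm →
      (∀ n : ℤ, Odd n → 0 < n → n ∉ E →
        Full W (rad Sj + 3) (rho ^ (T + 1 + N1 * l - Sj) * (3 / 2) ^ (i1 * l) * n) → n ∈ W) ∧
      (({n : ℤ | n ∈ E ∧ Odd n ∧ (X : ℤ) ≤ n ∧ n < 2 * X}.ncard : ℕ) : ℝ) ≤ ε₁ * X := by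
    intro l
    by_cases hl : l ≤ Lm
    · have hS1 : S1f (i1 * l) ≤ T + 1 + N1 * l := by
        have := hSmin2 l hl
        have h0 := Nat.zero_le (N1 * l)
        omega
      obtain ⟨E, hE1, hE2⟩ := hS1f (i1 * l) (T + 1 + N1 * l) hS1
      refine ⟨E, fun _ => ⟨hE1, hE2 X ?_⟩⟩
      have h1 : rho⁻¹ ^ (T + 1 + N1 * l) = rho⁻¹ ^ (T + 1) * (rho⁻¹ ^ N1) ^ l := by
        rw [pow_add, pow_mul]
      have h2 : (1 : ℝ) ≤ ((3 / 2 : ℝ) ^ i1 * rho ^ N1) ^ l := by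
        rw [← hθ]; exact one_le_pow₀ hθ1.le
      have h3 : (rho⁻¹ ^ N1) ^ l ≤ (3 / 2 : ℝ) ^ (i1 * l) := by
        rw [mul_pow] at h2
        have h4 : (rho ^ N1) ^ l * (rho⁻¹ ^ N1) ^ l = 1 := by
          rw [← mul_pow, ← mul_pow, mul_inv_cancel₀ rho_pos.ne', one_pow, one_pow]
        have h5 : 0 ≤ (rho⁻¹ ^ N1) ^ l := by positivity
        have h6 := mul_le_mul_of_nonneg_right h2 h5
        rw [mul_assoc, h4, mul_one, one_mul] at h6
        rw [pow_mul]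
        exact h6
      rw [h1]
      calc rho⁻¹ ^ (T + 1) * (rho⁻¹ ^ N1) ^ l ≤ X * (3 / 2 : ℝ) ^ (i1 * l) := by
            apply mul_le_mul hXrho h3 (by positivity) (by positivity)
        _ = _ := by ring
    · exact ⟨∅, fun h => absurd h hl⟩
  choose E hE using hE
  -- the bad numbers
  have hBfin : {n : ℤ | Odd n ∧ (X : ℤ) ≤ n ∧ n < 2 * X ∧ n ∉ W}.Finite := by
    apply (Set.finite_Ico (X : ℤ) (2 * X)).subset
    rintro n ⟨-, h1, h2, -⟩
    exact ⟨h1, h2⟩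
  obtain ⟨B, hB⟩ : ∃ B : Finset ℤ, ∀ n : ℤ, n ∈ B ↔ (Odd n ∧ (X : ℤ) ≤ n ∧ n < 2 * X ∧ n ∉ W) :=
    ⟨hBfin.toFinset, fun n => by simp⟩
  have hBcard : {n : ℤ | Odd n ∧ (X : ℤ) ≤ n ∧ n < 2 * X ∧ n ∉ W}.ncard = B.card := by
    have : ({n : ℤ | Odd n ∧ (X : ℤ) ≤ n ∧ n < 2 * X ∧ n ∉ W}) = (B : Set ℤ) := by
      ext n; simp [hB]
    rw [this, Set.ncard_coe_finset]
  rw [hBcard]
  -- number of steps per interval
  obtain ⟨D, hD⟩ : ∃ D : ℝ, D = q * (2 * Y) := ⟨_, rfl⟩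
  have hD0 : 0 < D := by rw [hD]; positivity
  have hD1 : D ≤ 1 / 4 := by rw [hD]; linarith
  obtain ⟨K, hK⟩ : ∃ K : ℕ, K = ⌊2 / D⌋₊ := ⟨_, rfl⟩
  have hK1 : (K : ℝ) * D ≤ 2 := by
    have h1 : (K : ℝ) ≤ 2 / D := by rw [hK]; exact Nat.floor_le (by positivity)
    rwa [le_div_iff₀ hD0] at h1
  have hK2 : 1 / D ≤ K := by
    have h1 : 2 / D < (K : ℝ) + 1 := by rw [hK]; exact Nat.lt_floor_add_one _
    have h2 : (1 : ℝ) ≤ 1 / D := by rw [le_div_iff₀ hD0]; linarith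
    have h3 : 2 / D = 1 / D + 1 / D := by ring
    linarith
  -- hits
  have hhits : ∀ n ∈ B, F.card * K ≤
      ((Finset.range (Lm + 1)).filter (fun l => n ∈ E l)).card := by
    intro n hn
    obtain ⟨hnodd, hn1, hn2, hnW⟩ := (hB n).mp hn
    have hn1' : (X : ℝ) ≤ n := by exact_mod_cast hn1
    have hn2' : (n : ℝ) ≤ 2 * X := by exact_mod_cast hn2.le
    have hn0 : 0 < n := by
      have : (0 : ℝ) < n := by linarith
      exact_mod_cast this
    obtain ⟨x0, hx0⟩ : ∃ x : ℝ, x = rho ^ (T + 1 - Sj) * n := ⟨_, rfl⟩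
    have hx0' : x0 = P * (rho ^ (T + 1) * n) := by
      rw [hx0, hP]
      have h1 : rho ^ (T + 1) = rho ^ Sj * rho ^ (T + 1 - Sj) := by
        rw [← pow_add]; congr 1; omega
      have h2 : rho⁻¹ ^ Sj * rho ^ Sj = 1 := by
        rw [← mul_pow, inv_mul_cancel₀ rho_pos.ne', one_pow]
      rw [h1]
      calc rho ^ (T + 1 - Sj) * n = (rho⁻¹ ^ Sj * rho ^ Sj) * (rho ^ (T + 1 - Sj) * n) := by
            rw [h2, one_mul]
        _ = _ := by ring
    have hx1 : Y / 10 ≤ x0 := by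
      rw [hx0', hY]
      have h1 : rho ^ (T + 1) * X ≤ rho ^ (T + 1) * n :=
        mul_le_mul_of_nonneg_left hn1' (pow_pos rho_pos _).le
      have h2 : P * (y / 10) ≤ P * (rho ^ (T + 1) * n) :=
        mul_le_mul_of_nonneg_left (hlow.trans h1) hPpos.le
      linarith
    have hx2 : x0 ≤ Y / 4 := by
      rw [hx0', hY]
      have h1 : rho ^ (T + 1) * n ≤ rho ^ (T + 1) * (2 * X) :=
        mul_le_mul_of_nonneg_left hn2' (pow_pos rho_pos _).le
      have h2 : P * (rho ^ (T + 1) * n) ≤ P * (y / 4) :=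
        mul_le_mul_of_nonneg_left (h1.trans hS) hPpos.le
      linarith
    have hend : 2 * Y ≤ θ ^ Lm * x0 := by
      have h1 : 20 * (Y / 10) ≤ θ ^ Lm * x0 :=
        mul_le_mul hθL hx1 (by positivity) (by positivity)
      linarith
    have hc := count (F := F) (fun m hm => ((hF m).mp hm).1) hD0 (K := K) (Lm := Lm) hK1
      (x := fun l => θ ^ l * x0) (by
        intro m hm k hk
        obtain ⟨hm1, hm2⟩ := hFb m hm
        have hk1 : (k : ℝ) + 1 ≤ K := by exact_mod_cast hk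
        have hk2 : (k : ℝ) * D + D ≤ 2 := by nlinarith
        have hk3 : 0 ≤ (k : ℝ) * D := by positivity
        have := hit (x0 := x0) (θ := θ) (v := (m : ℝ) - 1 + k * D) (B := 2 * Y) (Lm := Lm)
          hθ1 (by linarith) (by linarith) hend
        rw [← hq, ← hD] at this
        exact this)
    refine hc.trans (Finset.card_le_card ?_)
    intro l hl
    rw [Finset.mem_filter] at hl ⊢
    obtain ⟨hl1, m, hm, hml⟩ := hl
    refine ⟨hl1, ?_⟩
    have hl2 : l ≤ Lm := by have := Finset.mem_range.mp hl1; omega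
    by_contra hnE
    apply hnW
    apply (hE l hl2).1 n hnodd hn0 hnE
    have hxl : rho ^ (T + 1 + N1 * l - Sj) * (3 / 2) ^ (i1 * l) * (n : ℝ) = θ ^ l * x0 := by
      have h1 : T + 1 + N1 * l - Sj = (T + 1 - Sj) + N1 * l := by omega
      rw [h1, hx0, hθ, mul_pow, ← pow_mul, ← pow_mul, pow_add]
      ring
    rw [hxl]
    exact full_near ((hF m).mp hm).2.2 hml
  have hcard2 : ∀ l ≤ Lm, ((B.filter (fun n => n ∈ E l)).card : ℝ) ≤ ε₁ * X := by
    intro l hl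
    refine le_trans ?_ (hE l hl).2
    have hfin : {n : ℤ | n ∈ E l ∧ Odd n ∧ (X : ℤ) ≤ n ∧ n < 2 * X}.Finite := by
      apply (Set.finite_Ico (X : ℤ) (2 * X)).subset
      rintro n ⟨-, -, h1, h2⟩
      exact ⟨h1, h2⟩
    have h1 : ((B.filter (fun n => n ∈ E l) : Finset ℤ) : Set ℤ) ⊆
        {n : ℤ | n ∈ E l ∧ Odd n ∧ (X : ℤ) ≤ n ∧ n < 2 * X} := by
      intro n hn
      rw [Finset.mem_coe, Finset.mem_filter] at hn
      obtain ⟨hn, hnE⟩ := hn
      obtain ⟨h1, h2, h3, -⟩ := (hB n).mp hn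
      exact ⟨hnE, h1, h2, h3⟩
    have h2 := Set.ncard_le_ncard h1 hfin
    rw [Set.ncard_coe_finset] at h2
    exact_mod_cast h2
  have hd := double (B := B) (Lm := Lm) (h := F.card * K) (E := E) (e := ε₁ * X) hhits hcard2
  push_cast at hd
  -- final computation
  have h1 : P / 8 * (1 / D) ≤ (F.card : ℝ) * K :=
    mul_le_mul hFcard hK2 (by positivity) (by positivity)
  have h2 : (B.card : ℝ) * (P / 8 * (1 / D)) ≤ (20 / q) * (ε₁ * X) := by
    calc (B.card : ℝ) * (P / 8 * (1 / D)) ≤ (B.card : ℝ) * ((F.card : ℝ) * K) :=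
          mul_le_mul_of_nonneg_left h1 (by positivity)
      _ ≤ ((Lm : ℝ) + 1) * (ε₁ * X) := hd
      _ ≤ _ := mul_le_mul_of_nonneg_right hLm2 (by positivity)
  have h3 : (B.card : ℝ) * P ≤ 160 * D / q * (ε₁ * X) := by
    have h4 : (B.card : ℝ) * P = (B.card : ℝ) * (P / 8 * (1 / D)) * (8 * D) := by
      field_simp
    rw [h4]
    calc (B.card : ℝ) * (P / 8 * (1 / D)) * (8 * D) ≤ (20 / q) * (ε₁ * X) * (8 * D) :=
          mul_le_mul_of_nonneg_right h2 (by positivity)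
      _ = _ := by ring
  have h5 : 160 * D / q = 320 * Y := by
    rw [hD]; field_simp; ring
  rw [h5, hY, hε₁] at h3
  have h6 : 320 * (P * y) * (ε / (320 * y) * X) = ε * X * P := by
    field_simp
  rw [h6] at h3
  exact le_of_mul_le_mul_right h3 hPpos

end Pool.Agent.Lib.MP7f8c3e
end

section
/-!
GAME: winning positions are closed backwards along solitaire paths.
-/
namespace Pool.Agent.Lib.MP7f8c3e

namespace GameM

theorem closed_win : Closed Win := by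
  intro m hm S hS
  obtain ⟨m', h1, h2⟩ := hm
  apply hS m
  refine ⟨m', h1, ?_⟩
  rcases h2 with h2 | h2
  · exact Or.inl h2
  · right
    intro m'' h3
    exact ⟨(h2 m'' h3).1, (h2 m'' h3).2 S hS⟩

theorem two_win : 2 ∈ Win :=
  closed_win 2 ⟨1, Or.inl ⟨by decide, rfl⟩, Or.inl rfl⟩

/-- replies from an even number -/
theorem four_mul {n : ℕ} (hn : 1 < n) (h : n ∈ Win) : 4 * n ∈ Win := by
  apply closed_win
  refine ⟨2 * n, Or.inl ⟨⟨2 * n, by ring⟩, by omega⟩, Or.inr ?_⟩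
  intro m'' h2
  rcases h2 with ⟨_, h3⟩ | ⟨h3, _⟩
  · have : m'' = n := by omega
    subst this
    exact ⟨by omega, h⟩
  · exfalso
    rw [Nat.odd_iff] at h3
    omega

theorem pow_four_mul {n : ℕ} (hn : 1 < n) (h : n ∈ Win) (j : ℕ) : 4 ^ j * n ∈ Win := by
  induction j with
  | zero => simpa using h
  | succ j ih =>
    have h1 : 1 < 4 ^ j * n := by
      have : 1 ≤ 4 ^ j := Nat.one_le_pow _ _ (by norm_num)
      nlinarith
    have := four_mul h1 ih
    rw [pow_succ]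
    convert this using 1
    ring

/-- one step backwards -/
theorem step {n n' e : ℕ} (hn : Odd n) (hn' : 1 < n') (h : n' ∈ Win)
    (heq : 3 * n + 1 = 2 * 4 ^ e * n' ∨ 3 * n - 1 = 2 * 4 ^ e * n') : n ∈ Win := by
  have h4 : 1 ≤ 4 ^ e := Nat.one_le_pow _ _ (by norm_num)
  have h5 : 1 < 4 ^ e * n' := by nlinarith
  apply closed_win
  refine ⟨2 * 4 ^ e * n', Or.inr ⟨hn, ?_⟩, Or.inr ?_⟩
  · rcases heq with heq | heq
    · exact Or.inl heq.symm
    · exact Or.inr heq.symm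
  · intro m'' h2
    have h6 : 2 * 4 ^ e * n' = 2 * (4 ^ e * n') := by ring
    rw [h6] at h2
    rcases h2 with ⟨_, h3⟩ | ⟨h3, _⟩
    · have : m'' = 4 ^ e * n' := by omega
      subst this
      exact ⟨by omega, pow_four_mul hn' h e⟩
    · exfalso
      rw [Nat.odd_iff] at h3
      omega

theorem odd_of_CS {t K : ℕ} {c n z : ℤ} (hc : c ∈ CS t K) (hz : Odd z)
    (h : 2 ^ K * z = 3 ^ t * n + c) : Odd n := by
  cases t with
  | zero =>
    obtain ⟨h1, h2⟩ := hc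
    subst h1 h2
    simp at h
    rwa [← h]
  | succ t =>
    obtain ⟨s, k, c', hs, hk, hkK, hc', hcc⟩ := hc
    have hk1 : k ≠ 0 := by
      rintro rfl
      simp at hk
    have h1 : Even ((2 : ℤ) ^ K * z) := by
      apply Even.mul_right
      exact (even_two).pow_of_ne_zero (by omega)
    have h2 : Odd c := by
      rw [hcc]
      apply Odd.add_even
      · apply Odd.mul
        · exact Odd.pow (by decide)
        · rcases hs with rfl | rfl <;> decide
      · apply Even.mul_right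
        exact (even_two).pow_of_ne_zero hk1
    have h3 : Odd ((3 : ℤ) ^ (t + 1) * n) := by
      have : (3 : ℤ) ^ (t + 1) * n = 2 ^ K * z - c := by linarith
      rw [this]
      exact Even.sub_odd h1 h2
    exact (Int.odd_mul.mp h3).2

end GameM

open GameM in
theorem specGame : SpecGame := by
  unfold SpecGame BackClosed
  intro t
  induction t with
  | zero =>
    intro K c n z hc _ hzW h
    obtain ⟨h1, h2⟩ := hc
    subst h1 h2
    simp at h
    rwa [← h]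
  | succ t ih =>
    intro K c n z hc hz hzW h
    obtain ⟨s, k, c', hs, hk, hkK, hc', hcc⟩ := hc
    have hpow : (2 : ℤ) ^ K = 2 ^ k * 2 ^ (K - k) := by
      rw [← pow_add]
      congr 1
      omega
    have h1 : (3 : ℤ) ^ t * (3 * n + s) = 2 ^ k * (2 ^ (K - k) * z - c') := by
      rw [hcc, hpow, pow_succ] at h
      linear_combination -h
    have h2 : (2 : ℤ) ^ k ∣ 3 * n + s := by
      have h3 : IsCoprime ((2 : ℤ) ^ k) (3 ^ t) := by
        apply IsCoprime.pow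
        exact ⟨-1, 1, by norm_num⟩
      exact h3.dvd_of_dvd_mul_left ⟨_, h1⟩
    obtain ⟨n', hn'⟩ := h2
    have h4 : 2 ^ (K - k) * z = 3 ^ t * n' + c' := by
      have h5 : (2 : ℤ) ^ k * (3 ^ t * n') = 2 ^ k * (2 ^ (K - k) * z - c') := by
        rw [← h1, hn']
        ring
      have h6 := mul_left_cancel₀ (pow_ne_zero k (two_ne_zero : (2 : ℤ) ≠ 0)) h5
      linarith
    have h7 := ih (K - k) c' n' z hc' hz hzW h4
    have h8 : Odd n' := odd_of_CS hc' hz h4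
    obtain ⟨h9, h10⟩ := h7
    have h11 : 3 ≤ n' := by
      obtain ⟨r, hr⟩ := h8
      omega
    obtain ⟨e, he⟩ := hk
    have h12 : (2 : ℤ) ^ k = 2 * 4 ^ e := by
      rw [he, pow_succ, pow_mul]
      norm_num
      ring
    have h13 : (1 : ℤ) ≤ 4 ^ e := one_le_pow₀ (by norm_num)
    have h14 : 3 * n + s = 2 * 4 ^ e * n' := by rw [hn', h12]
    have h15 : 6 ≤ 2 * (4 : ℤ) ^ e * n' := by nlinarith
    have h16 : 1 < n := by
      rcases hs with rfl | rfl <;> omega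
    have hnodd : Odd n := by
      have h17 : Even (3 * n + s) := by
        rw [h14]
        exact ⟨4 ^ e * n', by ring⟩
      have h18 : Odd (3 * n) := by
        rcases hs with rfl | rfl
        · have := h17.sub_odd (odd_one)
          simpa using this
        · have := h17.add_odd (odd_one)
          simpa using this
      exact (Int.odd_mul.mp h18).2
    refine ⟨h16, ?_⟩
    obtain ⟨m, rfl⟩ := Int.eq_ofNat_of_zero_le (show 0 ≤ n by omega)
    obtain ⟨m', rfl⟩ := Int.eq_ofNat_of_zero_le (show 0 ≤ n' by omega)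
    simp only [Int.toNat_natCast] at h10 ⊢
    apply step (n' := m') (e := e) _ (by exact_mod_cast h9) h10
    · rcases hs with rfl | rfl
      · left
        exact_mod_cast h14
      · right
        have h19 : (3 * m : ℤ) = 2 * 4 ^ e * m' + 1 := by linarith
        have h20 : 3 * m = 2 * 4 ^ e * m' + 1 := by exact_mod_cast h19
        omega
    · exact_mod_cast hnodd

end Pool.Agent.Lib.MP7f8c3e
end

section
/-!
# Modules SUB, IGN, MONO, TIGHT (helper88)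
-/
namespace Pool.Agent.Lib.MP7f8c3e

namespace SubM

/-- composition of solitaire constants -/
theorem comp : ∀ (t K : ℕ) (c : ℤ), c ∈ CS t K → ∀ (t' K' : ℕ) (c' : ℤ), c' ∈ CS t' K' →
    3 ^ t' * c + 2 ^ K * c' ∈ CS (t + t') (K + K') := by
  intro t
  induction t with
  | zero =>
    intro K c hc t' K' c' hc'
    obtain ⟨rfl, rfl⟩ := hc
    simpa using hc'
  | succ t ih =>
    intro K c hc t' K' c' hc'
    obtain ⟨s, k, c1, hs, hk, hkK, hc1, rfl⟩ := hc
    have h := ih (K - k) c1 hc1 t' K' c' hc'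
    have e1 : t + 1 + t' = (t + t') + 1 := by ring
    rw [e1]
    refine ⟨s, k, 3 ^ t' * c1 + 2 ^ (K - k) * c', hs, hk, by omega, ?_, ?_⟩
    · have e2 : K + K' - k = K - k + K' := by omega
      rw [e2]
      exact h
    · have e3 : (2 : ℤ) ^ K = 2 ^ k * 2 ^ (K - k) := by
        rw [← pow_add]; congr 1; omega
      rw [e3, pow_add]
      ring

theorem bound : ∀ (t K : ℕ) (c : ℤ), c ∈ CS t K → t ≤ K ∧
    |(c : ℝ)| ≤ (3 / 2 : ℝ) ^ t * 2 ^ K := by
  intro t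
  induction t with
  | zero =>
    intro K c hc
    obtain ⟨rfl, rfl⟩ := hc
    simp
  | succ t ih =>
    intro K c hc
    obtain ⟨s, k, c1, hs, hk, hkK, hc1, rfl⟩ := hc
    obtain ⟨h1, h2⟩ := ih (K - k) c1 hc1
    have hk1 : 1 ≤ k := hk.pos
    refine ⟨by omega, ?_⟩
    have hs1 : |(s : ℝ)| = 1 := by
      rcases hs with rfl | rfl <;> simp
    have e3 : (2 : ℝ) ^ K = 2 ^ k * 2 ^ (K - k) := by
      rw [← pow_add]; congr 1; omega
    have e4 : (2 : ℝ) ^ K = 2 ^ (t + 1) * 2 ^ (K - (t + 1)) := by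
      rw [← pow_add]; congr 1; omega
    push_cast
    calc |(3 : ℝ) ^ t * s + 2 ^ k * c1|
        ≤ |(3 : ℝ) ^ t * s| + |(2 : ℝ) ^ k * c1| := abs_add_le _ _
      _ = 3 ^ t + 2 ^ k * |(c1 : ℝ)| := by
          rw [abs_mul, abs_mul, hs1, abs_of_pos (by positivity : (0 : ℝ) < 3 ^ t),
            abs_of_pos (by positivity : (0 : ℝ) < 2 ^ k), mul_one]
      _ ≤ 3 ^ t + 2 ^ k * ((3 / 2 : ℝ) ^ t * 2 ^ (K - k)) := by gcongr
      _ = 3 ^ t + (3 / 2 : ℝ) ^ t * 2 ^ K := by rw [e3]; ring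
      _ ≤ (3 / 2 : ℝ) ^ (t + 1) * 2 ^ K := by
          have h5 : (3 : ℝ) ^ t ≤ (1 / 2) * ((3 / 2 : ℝ) ^ t * 2 ^ K) := by
            rw [e4]
            have h6 : (1 : ℝ) ≤ 2 ^ (K - (t + 1)) := one_le_pow₀ (by norm_num)
            have h7 : (3 : ℝ) ^ t = (3 / 2 : ℝ) ^ t * 2 ^ t := by
              rw [← mul_pow]; norm_num
            have h8 : (0 : ℝ) < (3 / 2 : ℝ) ^ t * 2 ^ t := by positivity
            calc (3 : ℝ) ^ t = (3 / 2 : ℝ) ^ t * 2 ^ t := h7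
              _ ≤ (3 / 2 : ℝ) ^ t * 2 ^ t * 2 ^ (K - (t + 1)) := le_mul_of_one_le_right h8.le h6
              _ = _ := by rw [pow_succ (2 : ℝ) t]; ring
          calc (3 : ℝ) ^ t + (3 / 2 : ℝ) ^ t * 2 ^ K
              ≤ (1 / 2) * ((3 / 2 : ℝ) ^ t * 2 ^ K) + (3 / 2 : ℝ) ^ t * 2 ^ K := by linarith
            _ = _ := by rw [pow_succ]; ring

theorem lv_bound {N : ℕ} {c : ℤ} (hc : c ∈ Lv N) :
    |(c : ℝ)| ≤ (3 / 2 : ℝ) ^ (10 * N) * 2 ^ (16 * N) := (bound _ _ _ hc).2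

theorem odd_of {t K : ℕ} {c : ℤ} (hc : c ∈ CS (t + 1) K) : Odd c := by
  obtain ⟨s, k, c1, hs, hk, hkK, hc1, rfl⟩ := hc
  have hk1 : 1 ≤ k := hk.pos
  have h1 : Odd ((3 : ℤ) ^ t * s) := by
    have h3 : Odd ((3 : ℤ) ^ t) := Odd.pow (by decide)
    rcases hs with rfl | rfl
    · simpa using h3
    · simpa using h3.neg
  have h2 : Even ((2 : ℤ) ^ k * c1) := by
    obtain ⟨j, rfl⟩ : ∃ j, k = j + 1 := ⟨k - 1, by omega⟩
    refine ⟨2 ^ j * c1, ?_⟩
    ring
  exact h1.add_even h2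

theorem lv_odd {N : ℕ} (hN : 1 ≤ N) {c : ℤ} (hc : c ∈ Lv N) : Odd c := by
  obtain ⟨j, rfl⟩ : ∃ j, N = j + 1 := ⟨N - 1, by omega⟩
  have : c ∈ CS ((10 * j + 9) + 1) (16 * (j + 1)) := hc
  exact odd_of this

theorem lv_comp {N N' : ℕ} {c c' : ℤ} (hc : c ∈ Lv N) (hc' : c' ∈ Lv N') :
    3 ^ (10 * N') * c + 2 ^ (16 * N) * c' ∈ Lv (N + N') := by
  have h := comp _ _ _ hc _ _ _ hc'
  have e1 : 10 * (N + N') = 10 * N + 10 * N' := by ring
  have e2 : 16 * (N + N') = 16 * N + 16 * N' := by ring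
  unfold Lv
  rw [e1, e2]
  exact h

theorem cls_fin (N : ℕ) (M : ℝ) : (Cls N M).Finite :=
  (Set.finite_lt_nat (2 ^ (16 * N + 1))).subset (fun _ h => h.1)

theorem cls2_fin (N : ℕ) : (Cls2 N).Finite :=
  (Set.finite_lt_nat (2 ^ (16 * N + 1))).subset (fun _ h => h.1)

theorem g_mono {N : ℕ} {M M' : ℝ} (h : M ≤ M') : g N M ≤ g N M' := by
  apply Set.ncard_le_ncard _ (cls_fin N M')
  rintro a ⟨h1, c, h2, h3, h4⟩
  refine ⟨h1, c, h2, h3.trans ?_, h4⟩
  gcongr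

/-- uniqueness of the residue -/
theorem res_unique {m a b : ℕ} (ha : a < m) (hb : b < m) (h : (a : ℤ) ≡ b [ZMOD m]) : a = b := by
  have h1 : a ≡ b [MOD m] := (Int.natCast_modEq_iff).1 h
  exact Nat.ModEq.eq_of_lt_of_lt h1 ha hb

/-- the residue of an integer as a natural number below the modulus -/
theorem res_exists (m : ℕ) (hm : 0 < m) (c : ℤ) : ∃ a : ℕ, a < m ∧ c ≡ a [ZMOD m] := by
  refine ⟨(c % m).toNat, ?_, ?_⟩
  · have h1 : 0 ≤ c % (m : ℤ) := Int.emod_nonneg _ (by omega)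
    have h2 : c % (m : ℤ) < m := Int.emod_lt_of_pos _ (by omega)
    omega
  · have h1 : 0 ≤ c % (m : ℤ) := Int.emod_nonneg _ (by omega)
    rw [Int.toNat_of_nonneg h1]
    exact (Int.mod_modEq c m).symm

/-- cancel an odd factor modulo a power of two -/
theorem cancel3 {t e : ℕ} {a b : ℤ} (h : 3 ^ t * a ≡ 3 ^ t * b [ZMOD 2 ^ e]) :
    a ≡ b [ZMOD 2 ^ e] := by
  have h1 : ((2 : ℤ) ^ e) ∣ 3 ^ t * (b - a) := by
    have := h.dvd
    rwa [← mul_sub] at this
  have h2 : IsCoprime ((2 : ℤ) ^ e) (3 ^ t) := by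
    apply IsCoprime.pow
    exact ⟨-1, 1, by norm_num⟩
  exact Int.modEq_of_dvd (h2.dvd_of_dvd_mul_left h1)

/-- odd multiples of `2^m` agree modulo `2^(m+1)` -/
theorem odd_mul {m : ℕ} {x y : ℤ} (hx : Odd x) (hy : Odd y) :
    2 ^ m * x ≡ 2 ^ m * y [ZMOD 2 ^ (m + 1)] := by
  obtain ⟨i, rfl⟩ := hx
  obtain ⟨j, rfl⟩ := hy
  apply Int.modEq_of_dvd
  refine ⟨j - i, ?_⟩
  rw [pow_succ]
  ring

theorem key_inj {N t : ℕ} {c1 c2 x1 x2 : ℤ} (hx1 : Odd x1) (hx2 : Odd x2)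
    (h : 3 ^ t * c1 + 2 ^ (16 * N) * x1 ≡ 3 ^ t * c2 + 2 ^ (16 * N) * x2 [ZMOD 2 ^ (16 * N + 1)]) :
    c1 ≡ c2 [ZMOD 2 ^ (16 * N + 1)] := by
  apply cancel3 (t := t)
  have h1 := odd_mul (m := 16 * N) hx1 hx2
  have h2 := h.sub h1
  simpa using h2

theorem size {N N' : ℕ} {c x : ℤ} {M M' : ℝ} (hc : |(c : ℝ)| ≤ M * 2 ^ (16 * N))
    (hx : |(x : ℝ)| ≤ M' * 2 ^ (16 * N')) :
    |((3 ^ (10 * N') * c + 2 ^ (16 * N) * x : ℤ) : ℝ)| ≤
      (M' + rho ^ N' * M) * 2 ^ (16 * (N + N')) := by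
  push_cast
  have e1 : (3 : ℝ) ^ (10 * N') = rho ^ N' * 2 ^ (16 * N') := by
    rw [pow_mul, pow_mul, rho, ← mul_pow]
    norm_num
  have e2 : (2 : ℝ) ^ (16 * (N + N')) = 2 ^ (16 * N) * 2 ^ (16 * N') := by
    rw [← pow_add]; congr 1; ring
  have hr : (0 : ℝ) < rho ^ N' := pow_pos (by unfold rho; norm_num) _
  calc |(3 : ℝ) ^ (10 * N') * c + 2 ^ (16 * N) * x|
      ≤ |(3 : ℝ) ^ (10 * N') * c| + |(2 : ℝ) ^ (16 * N) * x| := abs_add_le _ _
    _ = 3 ^ (10 * N') * |(c : ℝ)| + 2 ^ (16 * N) * |(x : ℝ)| := by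
        rw [abs_mul, abs_mul, abs_of_pos (by positivity : (0 : ℝ) < 3 ^ (10 * N')),
          abs_of_pos (by positivity : (0 : ℝ) < 2 ^ (16 * N))]
    _ ≤ 3 ^ (10 * N') * (M * 2 ^ (16 * N)) + 2 ^ (16 * N) * (M' * 2 ^ (16 * N')) := by gcongr
    _ = _ := by rw [e1, e2]; ring

end SubM

open SubM

theorem specSub : SpecSub := by
  intro N N' M M' hN hN' hM hM'
  classical
  have h0 : ∀ a : ℕ, ∃ c : ℤ, a ∈ Cls N M → c ∈ Lv N ∧ |(c : ℝ)| ≤ M * 2 ^ (16 * N) ∧
      c ≡ a [ZMOD 2 ^ (16 * N + 1)] := by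
    intro a
    by_cases ha : a ∈ Cls N M
    · obtain ⟨_, c, h1, h2, h3⟩ := ha
      exact ⟨c, fun _ => ⟨h1, h2, h3⟩⟩
    · exact ⟨0, fun h => absurd h ha⟩
  have h0' : ∀ a : ℕ, ∃ c : ℤ, a ∈ Cls N' M' → c ∈ Lv N' ∧ |(c : ℝ)| ≤ M' * 2 ^ (16 * N') ∧
      c ≡ a [ZMOD 2 ^ (16 * N' + 1)] := by
    intro a
    by_cases ha : a ∈ Cls N' M'
    · obtain ⟨_, c, h1, h2, h3⟩ := ha
      exact ⟨c, fun _ => ⟨h1, h2, h3⟩⟩
    · exact ⟨0, fun h => absurd h ha⟩
  choose c hc using h0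
  choose c' hc' using h0'
  have hm : 0 < 2 ^ (16 * (N + N') + 1) := by positivity
  choose r hr1 hr2 using fun z : ℤ => res_exists (2 ^ (16 * (N + N') + 1)) hm z
  have hprod : g N M * g N' M' = ((Cls N M) ×ˢ (Cls N' M')).ncard := by
    rw [Set.ncard_prod]; rfl
  rw [hprod]
  refine Set.ncard_le_ncard_of_injOn
    (fun p : ℕ × ℕ => r (3 ^ (10 * N') * c p.1 + 2 ^ (16 * N) * c' p.2)) ?_ ?_ (cls_fin _ _)
  · rintro ⟨a, a'⟩ ⟨ha, ha'⟩
    obtain ⟨h1, h2, h3⟩ := hc a ha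
    obtain ⟨h1', h2', h3'⟩ := hc' a' ha'
    refine ⟨hr1 _, _, lv_comp h1 h1', size h2 h2', ?_⟩
    have := hr2 (3 ^ (10 * N') * c a + 2 ^ (16 * N) * c' a')
    push_cast at this
    exact this
  · rintro ⟨a, a'⟩ ⟨ha, ha'⟩ ⟨b, b'⟩ ⟨hb, hb'⟩ hab
    obtain ⟨h1, h2, h3⟩ := hc a ha
    obtain ⟨h1', h2', h3'⟩ := hc' a' ha'
    obtain ⟨k1, k2, k3⟩ := hc b hb
    obtain ⟨k1', k2', k3'⟩ := hc' b' hb'
    have hq : 3 ^ (10 * N') * c a + 2 ^ (16 * N) * c' a' ≡
        3 ^ (10 * N') * c b + 2 ^ (16 * N) * c' b' [ZMOD 2 ^ (16 * (N + N') + 1)] := by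
      have e1 := hr2 (3 ^ (10 * N') * c a + 2 ^ (16 * N) * c' a')
      have e2 := hr2 (3 ^ (10 * N') * c b + 2 ^ (16 * N) * c' b')
      have e3 : r (3 ^ (10 * N') * c a + 2 ^ (16 * N) * c' a') =
        r (3 ^ (10 * N') * c b + 2 ^ (16 * N) * c' b') := hab
      rw [e3] at e1
      have := e1.trans e2.symm
      push_cast at this
      exact this
    have hdvd : (2 : ℤ) ^ (16 * N + 1) ∣ 2 ^ (16 * (N + N') + 1) := pow_dvd_pow 2 (by omega)
    have hab1 : a = b := by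
      have := key_inj (lv_odd hN' h1') (lv_odd hN' k1') (hq.of_dvd hdvd)
      have h5 : (a : ℤ) ≡ b [ZMOD 2 ^ (16 * N + 1)] := (h3.symm.trans this).trans k3
      apply res_unique ha.1 hb.1
      push_cast
      exact h5
    subst hab1
    have hq2 : 2 ^ (16 * N) * c' a' ≡ 2 ^ (16 * N) * c' b' [ZMOD 2 ^ (16 * (N + N') + 1)] := by
      have := hq.sub (Int.ModEq.refl (3 ^ (10 * N') * c a))
      simpa using this
    have hq3 : c' a' ≡ c' b' [ZMOD 2 ^ (16 * N' + 1)] := by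
      have e1 : (2 : ℤ) ^ (16 * (N + N') + 1) = 2 ^ (16 * N) * 2 ^ (16 * N' + 1) := by
        rw [← pow_add]; congr 1; ring
      rw [e1] at hq2
      exact Int.ModEq.mul_left_cancel' (by positivity) hq2
    have h6 : (a' : ℤ) ≡ b' [ZMOD 2 ^ (16 * N' + 1)] := (h3'.symm.trans hq3).trans k3'
    have : a' = b' := by
      apply res_unique ha'.1 hb'.1
      push_cast
      exact h6
    rw [this]

end Pool.Agent.Lib.MP7f8c3e
end

section
/-!
# Module IGN (helper88)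
-/
namespace Pool.Agent.Lib.MP7f8c3e

namespace IgnM

theorem w17 : (17 : ℤ) ∈ CS 10 16 := by
  have h10 : (0 : ℤ) ∈ CS 0 0 := ⟨rfl, rfl⟩
  have h9 : (1 : ℤ) ∈ CS 1 3 := ⟨1, 3, 0, by norm_num, by decide, by norm_num, h10, by norm_num⟩
  have h8 : (-1 : ℤ) ∈ CS 2 4 := ⟨-1, 1, 1, by norm_num, by decide, by norm_num, h9, by norm_num⟩
  have h7 : (-17 : ℤ) ∈ CS 3 7 := ⟨-1, 3, -1, by norm_num, by decide, by norm_num, h8, by norm_num⟩
  have h6 : (-61 : ℤ) ∈ CS 4 8 := ⟨-1, 1, -17, by norm_num, by decide, by norm_num, h7, by norm_num⟩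
  have h5 : (-203 : ℤ) ∈ CS 5 9 := ⟨-1, 1, -61, by norm_num, by decide, by norm_num, h6, by norm_num⟩
  have h4 : (-1867 : ℤ) ∈ CS 6 12 := ⟨-1, 3, -203, by norm_num, by decide, by norm_num, h5, by norm_num⟩
  have h3 : (-3005 : ℤ) ∈ CS 7 13 := ⟨1, 1, -1867, by norm_num, by decide, by norm_num, h4, by norm_num⟩
  have h2 : (-8197 : ℤ) ∈ CS 8 14 := ⟨-1, 1, -3005, by norm_num, by decide, by norm_num, h3, by norm_num⟩
  have h1 : (-9833 : ℤ) ∈ CS 9 15 := ⟨1, 1, -8197, by norm_num, by decide, by norm_num, h2, by norm_num⟩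
  have h0 : (17 : ℤ) ∈ CS 10 16 := ⟨1, 1, -9833, by norm_num, by decide, by norm_num, h1, by norm_num⟩
  exact h0

theorem w131089 : (131089 : ℤ) ∈ CS 10 16 := by
  have h10 : (0 : ℤ) ∈ CS 0 0 := ⟨rfl, rfl⟩
  have h9 : (-1 : ℤ) ∈ CS 1 1 := ⟨-1, 1, 0, by norm_num, by decide, by norm_num, h10, by norm_num⟩
  have h8 : (1 : ℤ) ∈ CS 2 2 := ⟨1, 1, -1, by norm_num, by decide, by norm_num, h9, by norm_num⟩
  have h7 : (-7 : ℤ) ∈ CS 3 3 := ⟨-1, 1, 1, by norm_num, by decide, by norm_num, h8, by norm_num⟩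
  have h6 : (13 : ℤ) ∈ CS 4 4 := ⟨1, 1, -7, by norm_num, by decide, by norm_num, h7, by norm_num⟩
  have h5 : (-55 : ℤ) ∈ CS 5 5 := ⟨-1, 1, 13, by norm_num, by decide, by norm_num, h6, by norm_num⟩
  have h4 : (133 : ℤ) ∈ CS 6 6 := ⟨1, 1, -55, by norm_num, by decide, by norm_num, h5, by norm_num⟩
  have h3 : (4985 : ℤ) ∈ CS 7 11 := ⟨1, 5, 133, by norm_num, by decide, by norm_num, h4, by norm_num⟩
  have h2 : (7783 : ℤ) ∈ CS 8 12 := ⟨-1, 1, 4985, by norm_num, by decide, by norm_num, h3, by norm_num⟩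
  have h1 : (55703 : ℤ) ∈ CS 9 15 := ⟨-1, 3, 7783, by norm_num, by decide, by norm_num, h2, by norm_num⟩
  have h0 : (131089 : ℤ) ∈ CS 10 16 := ⟨1, 1, 55703, by norm_num, by decide, by norm_num, h1, by norm_num⟩
  exact h0

end IgnM

open SubM IgnM

theorem specIgn : SpecIgn := by
  intro N
  classical
  have h0 : ∀ a : ℕ, ∃ c : ℤ, a ∈ Cls N ((3 / 2 : ℝ) ^ (10 * N)) → c ∈ Lv N ∧
      c ≡ a [ZMOD 2 ^ (16 * N + 1)] := by
    intro a
    by_cases ha : a ∈ Cls N ((3 / 2 : ℝ) ^ (10 * N))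
    · obtain ⟨_, c, h1, h2, h3⟩ := ha
      exact ⟨c, fun _ => ⟨h1, h3⟩⟩
    · exact ⟨0, fun h => absurd h ha⟩
  choose c hc using h0
  have hm : 0 < 2 ^ (16 * (N + 1) + 1) := by positivity
  choose r hr1 hr2 using fun z : ℤ => res_exists (2 ^ (16 * (N + 1) + 1)) hm z
  refine Set.ncard_le_ncard_of_injOn
    (fun a : ℕ => r (3 ^ 10 * c a + 2 ^ (16 * N) * 17)) ?_ ?_ (cls2_fin _)
  · intro a ha
    obtain ⟨h1, h3⟩ := hc a ha
    have e1 := comp _ _ _ h1 _ _ _ w17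
    have e2 := comp _ _ _ h1 _ _ _ w131089
    refine ⟨hr1 _, _, e1, ?_, ?_⟩
    · have e3 : (3 : ℤ) ^ 10 * c a + 2 ^ (16 * N) * 17 + 2 ^ (16 * (N + 1) + 1) =
          3 ^ 10 * c a + 2 ^ (16 * N) * 131089 := by
        have : 16 * (N + 1) + 1 = 16 * N + 17 := by ring
        rw [this, pow_add]
        ring
      rw [e3]
      exact e2
    · have := hr2 (3 ^ 10 * c a + 2 ^ (16 * N) * 17)
      push_cast at this
      exact this
  · intro a ha b hb hab
    obtain ⟨h1, h3⟩ := hc a ha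
    obtain ⟨k1, k3⟩ := hc b hb
    have e1 := hr2 (3 ^ 10 * c a + 2 ^ (16 * N) * 17)
    have e2 := hr2 (3 ^ 10 * c b + 2 ^ (16 * N) * 17)
    have e3 : r (3 ^ 10 * c a + 2 ^ (16 * N) * 17) = r (3 ^ 10 * c b + 2 ^ (16 * N) * 17) := hab
    rw [e3] at e1
    have hq := e1.trans e2.symm
    rw [Nat.cast_pow, Nat.cast_ofNat] at hq
    have hdvd : (2 : ℤ) ^ (16 * N + 1) ∣ 2 ^ (16 * (N + 1) + 1) := pow_dvd_pow 2 (by omega)
    have h17 : Odd (17 : ℤ) := by decide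
    have := key_inj h17 h17 (hq.of_dvd hdvd)
    have h5 : (a : ℤ) ≡ b [ZMOD 2 ^ (16 * N + 1)] := (h3.symm.trans this).trans k3
    apply res_unique ha.1 hb.1
    push_cast
    exact h5

end Pool.Agent.Lib.MP7f8c3e
end

section
/-!
# Module MONO (helper88)
-/
namespace Pool.Agent.Lib.MP7f8c3e

namespace MonoM

theorem int_fin (B : ℝ) : {x : ℤ | |(x : ℝ)| ≤ B}.Finite := by
  apply (Set.finite_Icc (-(⌈B⌉)) ⌈B⌉).subset
  intro x hx
  have h1 : |(x : ℝ)| ≤ B := hx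
  obtain ⟨h2, h3⟩ := abs_le.1 h1
  have h4 := Int.le_ceil B
  constructor
  · have : ((-⌈B⌉ : ℤ) : ℝ) ≤ x := by push_cast; linarith
    exact_mod_cast this
  · have : (x : ℝ) ≤ (⌈B⌉ : ℤ) := by linarith
    exact_mod_cast this

theorem u_fin (N : ℕ) (R : ℝ) : (uSet N R).Finite := (int_fin _).subset (fun _ h => h.2)

theorem d_fin (N : ℕ) (R : ℝ) : (dSet N R).Finite := (int_fin _).subset (fun _ h => h.1)

theorem dis_fin (N : ℕ) (R : ℝ) : (disSet N R).Finite := (int_fin _).subset (fun _ h => h.1)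

theorem cls2_sub (N : ℕ) : Cls2 N ⊆ Cls N ((3 / 2 : ℝ) ^ (10 * N)) := by
  rintro a ⟨h1, c, h2, h3, h4⟩
  exact ⟨h1, c, h2, SubM.lv_bound h2, h4⟩

end MonoM

open SubM MonoM

theorem specMono : SpecMono := by
  intro N N' R hN hN'
  classical
  set R' : ℝ := R - rho ^ N' * (3 / 2) ^ (10 * N) with hR'
  have h0 : ∀ a : ℕ, ∃ c : ℤ, (a ∈ Cls N ((3 / 2 : ℝ) ^ (10 * N)) → c ∈ Lv N ∧
      c ≡ a [ZMOD 2 ^ (16 * N + 1)]) ∧ (a ∈ Cls2 N → c + 2 ^ (16 * N + 1) ∈ Lv N) := by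
    intro a
    by_cases ha2 : a ∈ Cls2 N
    · obtain ⟨_, c, h1, h2, h3⟩ := ha2
      exact ⟨c, fun _ => ⟨h1, h3⟩, fun _ => h2⟩
    · by_cases ha : a ∈ Cls N ((3 / 2 : ℝ) ^ (10 * N))
      · obtain ⟨_, c, h1, h2, h3⟩ := ha
        exact ⟨c, fun _ => ⟨h1, h3⟩, fun h => absurd h ha2⟩
      · exact ⟨0, fun h => absurd h ha, fun h => absurd h ha2⟩
  choose c hc hc2 using h0
  set A : Set (ℕ × ℤ) := (Cls N ((3 / 2 : ℝ) ^ (10 * N))) ×ˢ (uSet N' R') with hA
  set B : Set (ℕ × ℤ) := (Cls2 N) ×ˢ (dSet N' R') with hB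
  have hAf : A.Finite := (cls_fin _ _).prod (u_fin _ _)
  have hBf : B.Finite := (cls2_fin _).prod (d_fin _ _)
  have hdisj : Disjoint A B := by
    rw [Set.disjoint_left]
    rintro ⟨a, x⟩ ⟨_, h1⟩ ⟨_, h2⟩
    exact h2.2.1 h1.1
  have hcard : g N ((3 / 2 : ℝ) ^ (10 * N)) * u N' R' + g2 N * d N' R' = (A ∪ B).ncard := by
    rw [Set.ncard_union_eq hdisj hAf hBf, hA, hB, Set.ncard_prod, Set.ncard_prod]
    rfl
  rw [hcard]
  have hodd : ∀ p ∈ A ∪ B, Odd p.2 := by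
    rintro ⟨a, x⟩ (⟨_, h1⟩ | ⟨_, h1⟩)
    · exact lv_odd hN' h1.1
    · have h2 := lv_odd hN' h1.2.2
      have h3 : Even (2 * 3 ^ (10 * N') : ℤ) := even_two_mul _
      have := h2.add_even h3
      simpa using this
  have hcl : ∀ p ∈ A ∪ B, p.1 ∈ Cls N ((3 / 2 : ℝ) ^ (10 * N)) := by
    rintro ⟨a, x⟩ (⟨h1, _⟩ | ⟨h1, _⟩)
    · exact h1
    · exact cls2_sub N h1
  have hsz : ∀ p ∈ A ∪ B, |((p.2 : ℤ) : ℝ)| ≤ R' * 2 ^ (16 * N') := by
    rintro ⟨a, x⟩ (⟨_, h1⟩ | ⟨_, h1⟩)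
    · exact h1.2
    · exact h1.1
  refine Set.ncard_le_ncard_of_injOn
    (fun p : ℕ × ℤ => 3 ^ (10 * N') * c p.1 + 2 ^ (16 * N) * p.2) ?_ ?_ (u_fin _ _)
  · intro p hp
    have h1 := hcl p hp
    obtain ⟨h2, h3⟩ := hc _ h1
    constructor
    · rcases hp with ⟨_, h4⟩ | ⟨h5, h4⟩
      · exact lv_comp h2 h4.1
      · have h6 := lv_comp (hc2 _ h5) h4.2.2
        have e1 : (3 : ℤ) ^ (10 * N') * (c p.1 + 2 ^ (16 * N + 1)) +
            2 ^ (16 * N) * (p.2 - 2 * 3 ^ (10 * N')) =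
            3 ^ (10 * N') * c p.1 + 2 ^ (16 * N) * p.2 := by
          rw [pow_succ]; ring
        rw [e1] at h6
        exact h6
    · have := size (lv_bound h2) (hsz p hp)
      have e2 : R' + rho ^ N' * (3 / 2 : ℝ) ^ (10 * N) = R := by rw [hR']; ring
      rw [e2] at this
      exact this
  · intro p hp q hq hpq
    have hpq1 : 3 ^ (10 * N') * c p.1 + 2 ^ (16 * N) * p.2 =
      3 ^ (10 * N') * c q.1 + 2 ^ (16 * N) * q.2 := hpq
    obtain ⟨h2, h3⟩ := hc _ (hcl p hp)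
    obtain ⟨k2, k3⟩ := hc _ (hcl q hq)
    have h4 : p.1 = q.1 := by
      have := key_inj (N := N) (t := 10 * N') (c1 := c p.1) (c2 := c q.1)
        (hodd p hp) (hodd q hq) (by rw [hpq1])
      have h5 : ((p.1 : ℕ) : ℤ) ≡ q.1 [ZMOD 2 ^ (16 * N + 1)] := (h3.symm.trans this).trans k3
      apply res_unique (hcl p hp).1 (hcl q hq).1
      push_cast
      exact h5
    rw [h4] at hpq1
    have h6 : (2 : ℤ) ^ (16 * N) * p.2 = 2 ^ (16 * N) * q.2 := by linarith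
    have h7 : p.2 = q.2 := mul_left_cancel₀ (by positivity) h6
    exact Prod.ext h4 h7

end Pool.Agent.Lib.MP7f8c3e
end

section
/-!
# Module PHA: cells with a positive fraction of full positions at all large heights.
-/
namespace Pool.Agent.Lib.MP7f8c3e

open CompM

theorem specPha (hSt : SpecStart) (hCh : SpecChain) : SpecPha := by
  intro W hB hR
  obtain ⟨R₀, hR1, hSt⟩ := hSt W hB hR
  have hR0 : 0 < R₀ + 1 := by linarith
  obtain ⟨S0, hS0⟩ := hCh W hB (1 / (64 * (R₀ + 1))) (by positivity)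
  obtain ⟨Sa, hSa, y, hy, hF⟩ := hSt S0
  refine ⟨R₀, y, 2 * Sa + 30, hR1, hy, ?_⟩
  intro S hS
  obtain ⟨D, hD⟩ : ∃ D, S = Sa + D := ⟨S - Sa, by omega⟩
  have hD30 : 30 ≤ D := by omega
  obtain ⟨Exc, h1, h2⟩ := hS0 Sa S hSa (by omega)
  have eD : S - Sa = D := by omega
  rw [eD] at h1
  set q : ℝ := rho ^ D with hqd
  have hq : 0 < q := rho_pow_pos D
  have hq8 : q ≤ 1 / 8 := (rho_pow_anti hD30).trans rho_thirty
  have hqi : 0 < q⁻¹ := inv_pos.mpr hq
  have hqi8 : 8 ≤ q⁻¹ := by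
    rw [le_inv_comm₀ (by norm_num) hq]
    linarith
  set P : ℝ := rho⁻¹ ^ Sa with hP
  set Q : ℝ := rho⁻¹ ^ S with hQ
  have hPpos : 0 < P := by
    rw [hP, inv_pow]
    exact inv_pos.mpr (rho_pow_pos Sa)
  have hQP : Q = P * q⁻¹ := by
    rw [hQ, hD, pow_add, hP, hqd, inv_pow, inv_pow]
  have hP1 : 1 ≤ P := by
    rw [hP, inv_pow]
    exact (one_le_inv₀ (rho_pow_pos Sa)).mpr (rho_pow_le_one Sa)
  have hQpos : 0 < Q := by rw [hQP]; positivity
  have hqQ : q * Q = P := by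
    rw [hQP]
    field_simp
  -- the sets
  set F : Set ℤ := {m : ℤ | Odd m ∧ |(m : ℝ) - P * y| ≤ R₀ * P ∧ Full W (rad Sa + 4) m} with hFd
  set T : Set ℤ := {m : ℤ | Odd m ∧ |(m : ℝ) - Q * y| ≤ (R₀ + 1) * Q ∧ Full W (rad S + 4) m}
    with hTd
  have hfinI : ∀ c r : ℝ, {m : ℤ | |(m : ℝ) - c| ≤ r}.Finite := by
    intro c r
    apply (Set.finite_Icc ⌈c - r⌉ ⌊c + r⌋).subset
    intro m hm
    have hm' : |(m : ℝ) - c| ≤ r := hm
    rw [abs_le] at hm'
    constructor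
    · rw [Int.ceil_le]
      linarith [hm'.1]
    · rw [Int.le_floor]
      linarith [hm'.2]
  have hFf : F.Finite := (hfinI (P * y) (R₀ * P)).subset (fun m hm => hm.2.1)
  have hTf : T.Finite := (hfinI (Q * y) ((R₀ + 1) * Q)).subset (fun m hm => hm.2.1)
  set a : ℤ := ⌊Q * y - (R₀ + 1) * Q⌋ with ha
  set b : ℤ := ⌊Q * y + (R₀ + 1) * Q⌋ + 1 with hb
  set G : Set ℤ := {n : ℤ | n ∈ Exc ∧ Odd n ∧ a ≤ n ∧ n < b} with hG
  have hGf : G.Finite := (Set.finite_Ico a b).subset (fun n hn => ⟨hn.2.2.1, hn.2.2.2⟩)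
  have hab1 : 2 * ((R₀ + 1) * Q) ≤ (b : ℝ) - a := by
    have h3 := Int.floor_le (Q * y - (R₀ + 1) * Q)
    have h4 := Int.lt_floor_add_one (Q * y + (R₀ + 1) * Q)
    rw [ha, hb]
    push_cast
    linarith
  have hab2 : (b : ℝ) - a ≤ 2 * ((R₀ + 1) * Q) + 2 := by
    have h3 := Int.lt_floor_add_one (Q * y - (R₀ + 1) * Q)
    have h4 := Int.floor_le (Q * y + (R₀ + 1) * Q)
    rw [ha, hb]
    push_cast
    linarith
  have hGc : (G.ncard : ℝ) ≤ Q / 32 + 1 / 64 := by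
    have h3 := h2 a b (by
      have h4 : Q ≤ 2 * ((R₀ + 1) * Q) := by nlinarith
      linarith)
    refine h3.trans ?_
    have h4 : 1 / (64 * (R₀ + 1)) * ((b : ℝ) - a)
        ≤ 1 / (64 * (R₀ + 1)) * (2 * ((R₀ + 1) * Q) + 2) :=
      mul_le_mul_of_nonneg_left hab2 (by positivity)
    refine h4.trans ?_
    have h5 : 1 / (64 * (R₀ + 1)) * (2 * ((R₀ + 1) * Q) + 2)
        = Q / 32 + 1 / (32 * (R₀ + 1)) := by
      field_simp
      ring
    rw [h5]
    have h6 : 1 / (32 * (R₀ + 1)) ≤ 1 / 64 := by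
      apply one_div_le_one_div_of_le (by norm_num)
      linarith
    linarith
  have hdown : F.ncard * (q⁻¹ - 1) ≤ ((T ∪ G).ncard : ℝ) := by
    apply count_down hq hFf (fun m hm => hm.1) (hTf.union hGf)
    intro n hn hm
    obtain ⟨hm1, hm2, hm3⟩ := hm
    have hmo := mo_abs (q * n)
    have hdist : |(n : ℝ) - Q * y| ≤ (R₀ + 1) * Q := by
      have h3 : |q * ((n : ℝ) - Q * y)| ≤ (R₀ + 1) * P := by
        have h4 : q * ((n : ℝ) - Q * y)
            = (q * n - (mo (q * n) : ℝ)) + ((mo (q * n) : ℝ) - P * y) := by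
          rw [← hqQ]; ring
        rw [h4]
        refine (abs_add_le _ _).trans ?_
        have h5 : |q * (n : ℝ) - (mo (q * n) : ℝ)| ≤ 1 := by
          rw [abs_sub_comm]; exact hmo
        linarith
      rw [abs_mul, abs_of_pos hq, ← hqQ] at h3
      have h6 : q * |(n : ℝ) - Q * y| ≤ q * ((R₀ + 1) * Q) := by linarith
      exact le_of_mul_le_mul_left h6 hq
    by_cases hE : n ∈ Exc
    · right
      rw [abs_le] at hdist
      refine ⟨hE, hn, ?_, ?_⟩
      · have h3 : (a : ℝ) ≤ n := by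
          have := Int.floor_le (Q * y - (R₀ + 1) * Q)
          rw [ha]
          linarith [hdist.1]
        exact_mod_cast h3
      · have h3 : n ≤ ⌊Q * y + (R₀ + 1) * Q⌋ := by
          rw [Int.le_floor]
          linarith [hdist.2]
        rw [hb]
        linarith
    · left
      refine ⟨hn, hdist, ?_⟩
      apply h1 n hn hE
      refine full_mono ?_ hm3
      have h5 : |q * (n : ℝ) - (mo (q * n) : ℝ)| ≤ 1 := by
        rw [abs_sub_comm]; exact hmo
      linarith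
  have hun : ((T ∪ G).ncard : ℝ) ≤ T.ncard + G.ncard := by
    exact_mod_cast Set.ncard_union_le T G
  have hFc : P / 4 ≤ (F.ncard : ℝ) := hF
  have h7 : P / 4 * (q⁻¹ - 1) ≤ F.ncard * (q⁻¹ - 1) :=
    mul_le_mul_of_nonneg_right hFc (by linarith)
  have h8 : P / 4 * (q⁻¹ - 1) = Q / 4 - P / 4 := by rw [hQP]; ring
  have h9 : 8 * P ≤ Q := by rw [hQP]; nlinarith
  have h10 : Q / 8 ≤ (T.ncard : ℝ) := by linarith
  exact h10

end Pool.Agent.Lib.MP7f8c3e
end

section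
/-!
# Module PIG: on average over `N ∈ [L, 2L)` there are few disagreements.
-/
set_option autoImplicit false
set_option linter.unusedSimpArgs false

namespace Pool.Agent.Lib.MP7f8c3e

open Filter

namespace PigM

theorem cs_neg : ∀ (t K : ℕ) (c : ℤ), c ∈ CS t K → -c ∈ CS t K := by
  intro t
  induction t with
  | zero =>
    intro K c hc
    obtain ⟨h1, h2⟩ := hc
    exact ⟨by rw [h1]; simp, h2⟩
  | succ t ih =>
    rintro K c ⟨s, k, c', hs, hk, hkK, hc', rfl⟩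
    refine ⟨-s, k, -c', ?_, hk, hkK, ih _ _ hc', by ring⟩
    rcases hs with h | h <;> simp [h]

theorem set_Ioc (A B : ℝ) : {x : ℤ | A < (x : ℝ) ∧ (x : ℝ) ≤ B} = Set.Ioc ⌊A⌋ ⌊B⌋ := by
  ext x
  simp only [Set.mem_ofPred_eq, Set.mem_Ioc, Int.floor_lt, Int.le_floor]

theorem fin_Ioc (A B : ℝ) : {x : ℤ | A < (x : ℝ) ∧ (x : ℝ) ≤ B}.Finite := by
  rw [set_Ioc]
  exact Set.finite_Ioc _ _

theorem card_Ioc {A B : ℝ} (h : A ≤ B) :
    (({x : ℤ | A < (x : ℝ) ∧ (x : ℝ) ≤ B}.ncard : ℕ) : ℝ) ≤ B - A + 1 := by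
  rw [set_Ioc, ← Finset.coe_Ioc, Set.ncard_coe_finset, Int.card_Ioc]
  have h1 : ⌊A⌋ ≤ ⌊B⌋ := Int.floor_le_floor h
  have h2 : (((⌊B⌋ - ⌊A⌋).toNat : ℤ) : ℝ) = ((⌊B⌋ - ⌊A⌋ : ℤ) : ℝ) := by
    rw [Int.toNat_of_nonneg (by linarith)]
  have h3 : (((⌊B⌋ - ⌊A⌋).toNat : ℕ) : ℝ) = ((⌊B⌋ - ⌊A⌋ : ℤ) : ℝ) := by
    rw [← h2]; push_cast; rfl
  rw [h3]
  push_cast
  have := Int.floor_le B
  have := Int.lt_floor_add_one A
  linarith

theorem fin_abs (B : ℝ) : {x : ℤ | |(x : ℝ)| ≤ B}.Finite := by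
  apply (fin_Ioc (-B - 1) B).subset
  intro x hx
  have h := abs_le.mp (show |(x : ℝ)| ≤ B from hx)
  exact ⟨by linarith [h.1], h.2⟩

theorem card_abs {B : ℝ} (hB : 0 ≤ B) :
    (({x : ℤ | |(x : ℝ)| ≤ B}.ncard : ℕ) : ℝ) ≤ 2 * B + 1 := by
  have h1 : {x : ℤ | |(x : ℝ)| ≤ B} = Set.Icc (-⌊B⌋) ⌊B⌋ := by
    ext x
    simp only [Set.mem_ofPred_eq, Set.mem_Icc, abs_le, Int.le_floor]
    constructor
    · rintro ⟨h1, h2⟩
      refine ⟨?_, h2⟩
      have : -x ≤ ⌊B⌋ := by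
        rw [Int.le_floor]; push_cast; linarith
      linarith
    · rintro ⟨h1, h2⟩
      refine ⟨?_, h2⟩
      have : -x ≤ ⌊B⌋ := by linarith
      rw [Int.le_floor] at this
      push_cast at this
      linarith
  have h0 : 0 ≤ ⌊B⌋ := Int.floor_nonneg.mpr hB
  rw [h1, ← Finset.coe_Icc, Set.ncard_coe_finset, Int.card_Icc]
  have h3 : (((⌊B⌋ + 1 - -⌊B⌋).toNat : ℕ) : ℝ) = ((⌊B⌋ + 1 - -⌊B⌋ : ℤ) : ℝ) := by
    have : (((⌊B⌋ + 1 - -⌊B⌋).toNat : ℤ) : ℝ) = ((⌊B⌋ + 1 - -⌊B⌋ : ℤ) : ℝ) := by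
      rw [Int.toNat_of_nonneg (by linarith)]
    rw [← this]; push_cast; rfl
  rw [h3]
  push_cast
  have := Int.floor_le B
  linarith

theorem fin_u (N : ℕ) (R : ℝ) : (uSet N R).Finite :=
  (fin_abs (R * 2 ^ (16 * N))).subset (fun _ h => h.2)

theorem fin_d (N : ℕ) (R : ℝ) : (dSet N R).Finite :=
  (fin_abs (R * 2 ^ (16 * N))).subset (fun _ h => h.1)

theorem u_le (N : ℕ) {R : ℝ} (hR : 0 ≤ R) : (u N R : ℝ) ≤ 2 * (R * 2 ^ (16 * N)) + 1 := by
  refine le_trans ?_ (card_abs (B := R * 2 ^ (16 * N)) (by positivity))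
  exact_mod_cast Set.ncard_le_ncard
    (show uSet N R ⊆ {x : ℤ | |(x : ℝ)| ≤ R * 2 ^ (16 * N)} from fun x hx => hx.2) (fin_abs _)

/-- the part of a window between two radii -/
theorem shell {A B : ℝ} (h : A ≤ B) {S T : Set ℤ} (hS : S.Finite)
    (hT : ∀ x ∈ T, x ∈ S ∨ (A < |(x : ℝ)| ∧ |(x : ℝ)| ≤ B)) :
    (T.ncard : ℝ) ≤ S.ncard + 2 * (B - A + 1) := by
  classical
  set P := {x : ℤ | A < (x : ℝ) ∧ (x : ℝ) ≤ B} with hP
  set Q := (fun x : ℤ => -x) '' P with hQ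
  have hPf : P.Finite := fin_Ioc A B
  have hQf : Q.Finite := hPf.image _
  have hsub : T ⊆ S ∪ (P ∪ Q) := by
    intro x hx
    rcases hT x hx with h1 | ⟨h1, h2⟩
    · exact Or.inl h1
    · right
      rcases abs_cases (x : ℝ) with ⟨h3, _⟩ | ⟨h3, _⟩
      · left
        rw [h3] at h1 h2
        exact ⟨h1, h2⟩
      · right
        rw [h3] at h1 h2
        refine ⟨-x, ⟨?_, ?_⟩, by ring⟩
        · push_cast; exact h1
        · push_cast; exact h2
  have h1 : T.ncard ≤ S.ncard + (P.ncard + Q.ncard) := by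
    refine (Set.ncard_le_ncard hsub (hS.union (hPf.union hQf))).trans ?_
    refine (Set.ncard_union_le _ _).trans ?_
    have := Set.ncard_union_le P Q
    omega
  have h2 : Q.ncard ≤ P.ncard := Set.ncard_image_le hPf
  have h3 := card_Ioc h
  have h4 : (T.ncard : ℝ) ≤ S.ncard + (P.ncard + P.ncard) := by
    have : T.ncard ≤ S.ncard + (P.ncard + P.ncard) := by omega
    exact_mod_cast this
  have h5 : ((P.ncard : ℕ) : ℝ) ≤ B - A + 1 := h3
  linarith

theorem u_shell (N : ℕ) (R e : ℝ) (he : 0 ≤ e) :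
    (u N R : ℝ) ≤ u N (R - e) + 2 * (e * 2 ^ (16 * N) + 1) := by
  have h := shell (A := (R - e) * 2 ^ (16 * N)) (B := R * 2 ^ (16 * N)) (by
      have : 0 ≤ e * 2 ^ (16 * N) := by positivity
      nlinarith) (S := uSet N (R - e)) (T := uSet N R) (fin_u _ _) (by
      rintro x ⟨h1, h2⟩
      by_cases h3 : |(x : ℝ)| ≤ (R - e) * 2 ^ (16 * N)
      · exact Or.inl ⟨h1, h3⟩
      · exact Or.inr ⟨not_le.mp h3, h2⟩)
  have e1 : R * 2 ^ (16 * N) - (R - e) * 2 ^ (16 * N) + 1 = e * 2 ^ (16 * N) + 1 := by ring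
  rw [e1] at h
  exact h

theorem d_shell (N : ℕ) (R e : ℝ) (he : 0 ≤ e) :
    (d N R : ℝ) ≤ d N (R - e) + 2 * (e * 2 ^ (16 * N) + 1) := by
  have h := shell (A := (R - e) * 2 ^ (16 * N)) (B := R * 2 ^ (16 * N)) (by
      have : 0 ≤ e * 2 ^ (16 * N) := by positivity
      nlinarith) (S := dSet N (R - e)) (T := dSet N R) (fin_d _ _) (by
      rintro x ⟨h1, h2⟩
      by_cases h3 : |(x : ℝ)| ≤ (R - e) * 2 ^ (16 * N)
      · exact Or.inl ⟨h3, h2⟩
      · exact Or.inr ⟨not_le.mp h3, h1⟩)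
  have e1 : R * 2 ^ (16 * N) - (R - e) * 2 ^ (16 * N) + 1 = e * 2 ^ (16 * N) + 1 := by ring
  rw [e1] at h
  exact h

theorem three_le (N : ℕ) : (3 : ℝ) ^ (10 * N) ≤ 2 ^ (16 * N) := by
  rw [pow_mul, pow_mul]
  exact pow_le_pow_left₀ (by positivity) (by norm_num) N

theorem dis_le (N : ℕ) (R : ℝ) : (dis N R : ℝ) ≤ 2 * d N (R + 2) := by
  classical
  set φ : ℤ → ℤ := fun x => 2 * 3 ^ (10 * N) - x with hφ
  have hinj : Function.Injective φ := by
    intro x y h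
    simp only [hφ] at h
    linarith
  have hf : (dSet N (R + 2)).Finite := fin_d _ _
  have hpre : (φ ⁻¹' (dSet N (R + 2))).Finite := hf.preimage hinj.injOn
  have hcard : (φ ⁻¹' (dSet N (R + 2))).ncard ≤ (dSet N (R + 2)).ncard := by
    rw [← Set.ncard_image_of_injective _ hinj]
    exact Set.ncard_le_ncard (Set.image_preimage_subset _ _) hf
  have hsub : disSet N R ⊆ dSet N (R + 2) ∪ (φ ⁻¹' (dSet N (R + 2))) := by
    rintro x ⟨h1, h2⟩
    have h3 := three_le N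
    have h4 : (0 : ℝ) < 2 ^ (16 * N) := by positivity
    by_cases hx : x ∈ Lv N
    · right
      have hx2 : x - 2 * 3 ^ (10 * N) ∉ Lv N := fun h => h2 ⟨fun _ => h, fun _ => hx⟩
      refine ⟨?_, ?_, ?_⟩
      · simp only [hφ]
        push_cast
        have : |2 * 3 ^ (10 * N) - (x : ℝ)| ≤ |(2 : ℝ) * 3 ^ (10 * N)| + |(x : ℝ)| := abs_sub _ _
        rw [abs_of_nonneg (by positivity : (0 : ℝ) ≤ 2 * 3 ^ (10 * N))] at this
        linarith
      · intro h
        apply hx2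
        have := cs_neg _ _ _ h
        simp only [hφ] at this
        rw [neg_sub] at this
        exact this
      · simp only [hφ]
        have := cs_neg _ _ _ hx
        have e : 2 * 3 ^ (10 * N) - x - 2 * 3 ^ (10 * N) = -x := by ring
        rw [e]
        exact this
    · left
      have hx2 : x - 2 * 3 ^ (10 * N) ∈ Lv N := by
        by_contra h
        exact h2 ⟨fun h' => absurd h' hx, fun h' => absurd h' h⟩
      refine ⟨?_, hx, hx2⟩
      linarith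
  have h1 : dis N R ≤ (dSet N (R + 2)).ncard + (φ ⁻¹' (dSet N (R + 2))).ncard :=
    (Set.ncard_le_ncard hsub (hf.union hpre)).trans (Set.ncard_union_le _ _)
  have h2 : dis N R ≤ 2 * d N (R + 2) := by
    have : (dSet N (R + 2)).ncard = d N (R + 2) := rfl
    omega
  exact_mod_cast h2

theorem rho_pos : 0 < rho := by unfold rho; norm_num
theorem rho_lt : rho < 1 := by unfold rho; norm_num

theorem pow_rho (N : ℕ) : rho ^ N ≤ 1 := pow_le_one₀ rho_pos.le rho_lt.le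

/-- the conditions on `n = √L` -/
theorem eventually_n (κ C : ℝ) (hκ : 0 < κ) (hκ1 : κ < 1) : ∀ᶠ n : ℕ in atTop,
    C * κ ^ (n - 1) ≤ 1 / 2 ∧ ((n : ℝ) + 1) ^ 2 * κ ^ n ≤ 1 ∧ rho ^ n * (3 / 2) ^ 10 ≤ rho ∧
      ((n : ℝ) + 1) ^ 2 * rho ^ n ≤ 1 ∧ 2 ≤ n := by
  have hsq : ∀ r : ℝ, 0 < r → r < 1 → ∀ᶠ n : ℕ in atTop, ((n : ℝ) + 1) ^ 2 * r ^ n ≤ 1 := by
    intro r h0 h1
    have h2 := tendsto_pow_const_mul_const_pow_of_abs_lt_one 2 (r := r) (by
      rw [abs_of_pos h0]; exact h1)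
    have h3 : Tendsto (fun n : ℕ => 4 * ((n : ℝ) ^ 2 * r ^ n)) atTop (nhds (4 * 0)) :=
      h2.const_mul 4
    rw [mul_zero] at h3
    have h4 := h3.eventually (gt_mem_nhds (show (0 : ℝ) < 1 by norm_num))
    filter_upwards [h4, eventually_ge_atTop 1] with n hn hn1
    have hn1' : (1 : ℝ) ≤ n := by exact_mod_cast hn1
    have : ((n : ℝ) + 1) ^ 2 ≤ 4 * (n : ℝ) ^ 2 := by nlinarith
    have hr : 0 ≤ r ^ n := by positivity
    nlinarith [mul_le_mul_of_nonneg_right this hr]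
  have h1 : ∀ᶠ n : ℕ in atTop, C * κ ^ (n - 1) ≤ 1 / 2 := by
    have h2 : Tendsto (fun n : ℕ => C * κ ^ n) atTop (nhds (C * 0)) :=
      (tendsto_pow_atTop_nhds_zero_of_lt_one hκ.le hκ1).const_mul C
    rw [mul_zero] at h2
    have h3 : Tendsto (fun n : ℕ => n - 1) atTop atTop := tendsto_sub_atTop_nat 1
    have h4 := (h2.comp h3).eventually (gt_mem_nhds (show (0 : ℝ) < 1 / 2 by norm_num))
    filter_upwards [h4] with n hn
    exact hn.le
  have h3 : ∀ᶠ n : ℕ in atTop, rho ^ n * (3 / 2) ^ 10 ≤ rho := by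
    have h2 : Tendsto (fun n : ℕ => rho ^ n * (3 / 2) ^ 10) atTop (nhds (0 * (3 / 2) ^ 10)) :=
      (tendsto_pow_atTop_nhds_zero_of_lt_one rho_pos.le rho_lt).mul_const _
    rw [zero_mul] at h2
    have h4 := h2.eventually (gt_mem_nhds rho_pos)
    filter_upwards [h4] with n hn
    exact hn.le
  filter_upwards [h1, hsq κ hκ hκ1, h3, hsq rho rho_pos rho_lt, eventually_ge_atTop 2] with
    n a1 a2 a3 a4 a5
  exact ⟨a1, a2, a3, a4, a5⟩

end PigM

open PigM

theorem specPig (hMono : SpecMono) (hTinf : SpecTinf) (hIgn : SpecIgn) : SpecPig := by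
  classical
  obtain ⟨κ, C, hκ, hκ1, hC, hT⟩ := hTinf
  obtain ⟨n₀, hn₀⟩ := eventually_atTop.mp (eventually_n κ C hκ hκ1)
  refine ⟨2 ^ 18 * (15 + 7 * C), by positivity, n₀ ^ 2, ?_⟩
  intro L R₁ hL hR₁
  set n := Nat.sqrt L with hn
  have hnn₀ : n₀ ≤ n := by
    rw [hn, Nat.le_sqrt']
    exact hL
  obtain ⟨c1, c2, c3, c4, c5⟩ := hn₀ n hnn₀
  have hnL : n ^ 2 ≤ L := by rw [hn]; exact Nat.sqrt_le' L
  have hLn : L ≤ (n + 1) ^ 2 := by rw [hn]; exact (Nat.lt_succ_sqrt' L).le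
  have hL1 : 1 ≤ L := by nlinarith
  have hLR : (L : ℝ) ≤ ((n : ℝ) + 1) ^ 2 := by exact_mod_cast hLn
  set R := R₁ + 2 with hR
  have hR3 : 3 ≤ R := by linarith
  set uh : ℕ → ℝ := fun N => (u N R : ℝ) / 2 ^ (16 * N) with huh
  have huh0 : ∀ N, 0 ≤ uh N := fun N => by simp only [huh]; positivity
  have huh1 : ∀ N, uh N ≤ 2 * R + 1 := by
    intro N
    simp only [huh]
    rw [div_le_iff₀ (by positivity)]
    have h1 := u_le N (R := R) (by linarith)
    have h2 : (1 : ℝ) ≤ 2 ^ (16 * N) := one_le_pow₀ (by norm_num)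
    linarith
  set M : ℝ := (3 / 2 : ℝ) ^ (10 * n) with hM
  have hM0 : 0 < M := by positivity
  -- the main inequality
  have key : ∀ N : ℕ, L ≤ N → (d N R : ℝ) / 2 ^ (16 * N) ≤
      2 ^ 17 * (uh (n + N) - uh N + (C * κ ^ n * (2 * R + 1) + 4 * (rho ^ N * M) +
        4 * (1 / 2 : ℝ) ^ (16 * N))) := by
    intro N hN
    set e := rho ^ N * M with he
    have he0 : 0 ≤ e := by have := rho_pos; positivity
    have hm := hMono n N R (by omega) (by omega)
    rw [← hM, ← he] at hm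
    have hm' : (g n M : ℝ) * u N (R - e) + g2 n * d N (R - e) ≤ u (n + N) R := by
      exact_mod_cast hm
    have hg1 := hT n
    rw [← hM] at hg1
    have hg2 : (2 : ℝ) ^ (16 * n) / 2 ^ 17 ≤ g2 n := by
      have h1 := hIgn (n - 1)
      rw [show n - 1 + 1 = n by omega] at h1
      have h2 := hT (n - 1)
      have h3 : (g (n - 1) ((3 / 2 : ℝ) ^ (10 * (n - 1))) : ℝ) ≤ g2 n := by exact_mod_cast h1
      have h4 : (2 : ℝ) ^ (16 * n) = 2 ^ (16 * (n - 1)) * 2 ^ 16 := by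
        rw [← pow_add]; congr 1; omega
      have h5 : (1 / 2 : ℝ) * 2 ^ (16 * (n - 1)) ≤ (1 - C * κ ^ (n - 1)) * 2 ^ (16 * (n - 1)) := by
        apply mul_le_mul_of_nonneg_right _ (by positivity)
        linarith
      rw [h4]
      have h6 : (2 : ℝ) ^ (16 * (n - 1)) * 2 ^ 16 / 2 ^ 17 = (1 / 2 : ℝ) * 2 ^ (16 * (n - 1)) := by
        ring
      rw [h6]
      linarith
    have hus := u_shell N R e he0
    have hds := d_shell N R e he0
    set Q : ℝ := 2 ^ (16 * N) with hQ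
    set P : ℝ := 2 ^ (16 * n) with hP
    have hQ0 : 0 < Q := by positivity
    have hP0 : 0 < P := by positivity
    have hPQ : (2 : ℝ) ^ (16 * (n + N)) = P * Q := by rw [mul_add, pow_add]
    have hinv : (1 / 2 : ℝ) ^ (16 * N) = 1 / Q := by rw [hQ, one_div_pow]
    have hκn : C * κ ^ n ≤ 1 := by
      have h1 : κ ^ n ≤ κ ^ (n - 1) := pow_le_pow_of_le_one hκ.le hκ1.le (by omega)
      nlinarith
    have hκ0 : 0 ≤ C * κ ^ n := by positivity
    -- lower bounds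
    have l1 : (1 - C * κ ^ n) * P * (u N R - 2 * (e * Q + 1)) ≤ (g n M : ℝ) * u N (R - e) := by
      have a1 : (1 - C * κ ^ n) * P * (u N R - 2 * (e * Q + 1)) ≤
          (1 - C * κ ^ n) * P * u N (R - e) := by
        apply mul_le_mul_of_nonneg_left _ (mul_nonneg (by linarith) hP0.le)
        linarith
      have a2 : (1 - C * κ ^ n) * P * u N (R - e) ≤ (g n M : ℝ) * u N (R - e) :=
        mul_le_mul_of_nonneg_right hg1 (by positivity)
      linarith
    have l2 : P / 2 ^ 17 * (d N R - 2 * (e * Q + 1)) ≤ (g2 n : ℝ) * d N (R - e) := by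
      have a1 : P / 2 ^ 17 * (d N R - 2 * (e * Q + 1)) ≤ P / 2 ^ 17 * d N (R - e) := by
        apply mul_le_mul_of_nonneg_left _ (by positivity)
        linarith
      have a2 : P / 2 ^ 17 * d N (R - e) ≤ (g2 n : ℝ) * d N (R - e) :=
        mul_le_mul_of_nonneg_right hg2 (by positivity)
      linarith
    have hu1 := huh1 N
    have huN : (u N R : ℝ) = uh N * Q := by
      simp only [huh]; rw [hQ]; field_simp
    have hunN : (u (n + N) R : ℝ) = uh (n + N) * (P * Q) := by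
      simp only [huh]; rw [hPQ]; field_simp
    rw [hinv, div_le_iff₀ hQ0]
    -- combine
    have l3 : (1 - C * κ ^ n) * P * (uh N * Q - 2 * (e * Q + 1)) +
        P / 2 ^ 17 * (d N R - 2 * (e * Q + 1)) ≤ uh (n + N) * (P * Q) := by
      rw [← huN, ← hunN]; linarith
    have l4 : (1 - C * κ ^ n) * (uh N * Q - 2 * (e * Q + 1)) +
        1 / 2 ^ 17 * (d N R - 2 * (e * Q + 1)) ≤ uh (n + N) * Q := by
      have : P * ((1 - C * κ ^ n) * (uh N * Q - 2 * (e * Q + 1)) +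
        1 / 2 ^ 17 * (d N R - 2 * (e * Q + 1))) ≤ P * (uh (n + N) * Q) := by
        calc P * ((1 - C * κ ^ n) * (uh N * Q - 2 * (e * Q + 1)) +
              1 / 2 ^ 17 * (d N R - 2 * (e * Q + 1))) =
              (1 - C * κ ^ n) * P * (uh N * Q - 2 * (e * Q + 1)) +
              P / 2 ^ 17 * (d N R - 2 * (e * Q + 1)) := by ring
          _ ≤ _ := l3
          _ = _ := by ring
      exact le_of_mul_le_mul_left this hP0
    have l5 : C * κ ^ n * (uh N * Q) ≤ C * κ ^ n * ((2 * R + 1) * Q) :=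
      mul_le_mul_of_nonneg_left (mul_le_mul_of_nonneg_right hu1 hQ0.le) hκ0
    have l6 : (0 : ℝ) ≤ e * Q + 1 := by positivity
    have l7 : 0 ≤ C * κ ^ n * (2 * (e * Q + 1)) := by positivity
    have e1 : 2 ^ 17 * (uh (n + N) - uh N + (C * κ ^ n * (2 * R + 1) + 4 * e + 4 * (1 / Q))) * Q =
        2 ^ 17 * ((uh (n + N) - uh N) * Q + C * κ ^ n * ((2 * R + 1) * Q) + 4 * (e * Q + 1)) := by
      field_simp
      ring
    rw [e1]
    have l8 : 1 / 2 ^ 17 * (d N R : ℝ) ≤ (uh (n + N) - uh N) * Q +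
        C * κ ^ n * ((2 * R + 1) * Q) + 4 * (e * Q + 1) := by
      have l9 : (1 : ℝ) / 2 ^ 17 * (2 * (e * Q + 1)) ≤ 2 * (e * Q + 1) := by
        have : (1 : ℝ) / 2 ^ 17 ≤ 1 := by norm_num
        nlinarith
      linarith
    linarith
  -- the sum
  have hsum1 : ∑ N ∈ Finset.Ico L (2 * L), (dis N R₁ : ℝ) / 2 ^ (16 * N) ≤
      ∑ N ∈ Finset.Ico L (2 * L), 2 ^ 18 * (uh (n + N) - uh N + (C * κ ^ n * (2 * R + 1) +
        4 * (rho ^ N * M) + 4 * (1 / 2 : ℝ) ^ (16 * N))) := by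
    apply Finset.sum_le_sum
    intro N hN
    rw [Finset.mem_Ico] at hN
    have h1 := dis_le N R₁
    rw [← hR] at h1
    have h2 := key N hN.1
    calc (dis N R₁ : ℝ) / 2 ^ (16 * N) ≤ 2 * d N R / 2 ^ (16 * N) :=
          div_le_div_of_nonneg_right h1 (by positivity)
      _ = 2 * (d N R / 2 ^ (16 * N)) := by ring
      _ ≤ 2 * _ := mul_le_mul_of_nonneg_left h2 (by norm_num)
      _ = _ := by ring
  refine hsum1.trans ?_
  rw [← Finset.mul_sum, Finset.sum_add_distrib]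
  -- telescoping
  have htel : ∑ N ∈ Finset.Ico L (2 * L), (uh (n + N) - uh N) ≤ n * (2 * R + 1) := by
    have h1 : ∀ k : ℕ, ∑ N ∈ Finset.Ico L (2 * L), (uh (k + N) - uh N) ≤ k * (2 * R + 1) := by
      intro k
      induction k with
      | zero => simp
      | succ k ih =>
        have h2 : ∑ N ∈ Finset.Ico L (2 * L), (uh (k + 1 + N) - uh (k + N)) =
            uh (k + 2 * L) - uh (k + L) := by
          have : ∀ N, uh (k + 1 + N) - uh (k + N) =
              (fun N => uh (k + N)) (N + 1) - (fun N => uh (k + N)) N := by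
            intro N
            simp only
            rw [show k + (N + 1) = k + 1 + N by ring]
          rw [Finset.sum_congr rfl (fun N _ => this N),
            Finset.sum_Ico_sub (fun N => uh (k + N)) (by omega)]
        have h3 : ∑ N ∈ Finset.Ico L (2 * L), (uh (k + 1 + N) - uh N) =
            ∑ N ∈ Finset.Ico L (2 * L), (uh (k + 1 + N) - uh (k + N)) +
            ∑ N ∈ Finset.Ico L (2 * L), (uh (k + N) - uh N) := by
          rw [← Finset.sum_add_distrib]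
          apply Finset.sum_congr rfl
          intro N _
          ring
        rw [h3, h2]
        have h4 := huh1 (k + 2 * L)
        have h5 := huh0 (k + L)
        push_cast
        nlinarith
    exact h1 n
  have hcard : (Finset.Ico L (2 * L)).card = L := by simp; omega
  have hsum2 : ∑ N ∈ Finset.Ico L (2 * L), (C * κ ^ n * (2 * R + 1) +
        4 * (rho ^ N * M) + 4 * (1 / 2 : ℝ) ^ (16 * N)) ≤ C * (2 * R + 1) + 8 := by
    have h1 : ∀ N ∈ Finset.Ico L (2 * L), (C * κ ^ n * (2 * R + 1) +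
        4 * (rho ^ N * M) + 4 * (1 / 2 : ℝ) ^ (16 * N)) ≤ C * κ ^ n * (2 * R + 1) +
        4 * (rho ^ L * M) + 4 * (1 / 2 : ℝ) ^ (16 * L) := by
      intro N hN
      rw [Finset.mem_Ico] at hN
      have a1 : rho ^ N ≤ rho ^ L := pow_le_pow_of_le_one rho_pos.le rho_lt.le hN.1
      have a2 : (1 / 2 : ℝ) ^ (16 * N) ≤ (1 / 2 : ℝ) ^ (16 * L) :=
        pow_le_pow_of_le_one (by norm_num) (by norm_num) (by omega)
      have a3 := mul_le_mul_of_nonneg_right a1 hM0.le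
      linarith
    refine (Finset.sum_le_sum h1).trans ?_
    rw [Finset.sum_const, hcard, nsmul_eq_mul]
    have b1 : (L : ℝ) * κ ^ n ≤ 1 := (mul_le_mul_of_nonneg_right hLR (by positivity)).trans c2
    have b2 : (L : ℝ) * (rho ^ L * M) ≤ 1 := by
      have a1 : rho ^ L ≤ rho ^ (n ^ 2) := pow_le_pow_of_le_one rho_pos.le rho_lt.le hnL
      have a2 : rho ^ (n ^ 2) * M = (rho ^ n * (3 / 2) ^ 10) ^ n := by
        rw [hM, mul_pow, ← pow_mul, ← pow_mul, pow_two]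
      have a3 : (rho ^ n * (3 / 2) ^ 10) ^ n ≤ rho ^ n :=
        pow_le_pow_left₀ (by have := rho_pos; positivity) c3 n
      have a4 : rho ^ L * M ≤ rho ^ n := by
        calc rho ^ L * M ≤ rho ^ (n ^ 2) * M := mul_le_mul_of_nonneg_right a1 hM0.le
          _ = _ := a2
          _ ≤ _ := a3
      calc (L : ℝ) * (rho ^ L * M) ≤ L * rho ^ n := mul_le_mul_of_nonneg_left a4 (by positivity)
        _ ≤ ((n : ℝ) + 1) ^ 2 * rho ^ n :=
          mul_le_mul_of_nonneg_right hLR (by have := rho_pos; positivity)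
        _ ≤ 1 := c4
    have b3 : (L : ℝ) * (1 / 2 : ℝ) ^ (16 * L) ≤ 1 := by
      have a1 : (L : ℝ) ≤ 2 ^ (16 * L) := by
        have h2 : L ≤ 2 ^ (16 * L) := by
          have h3 : L < 2 ^ L := Nat.lt_two_pow_self
          have h4 : 2 ^ L ≤ 2 ^ (16 * L) := Nat.pow_le_pow_right (by norm_num) (by omega)
          omega
        exact_mod_cast h2
      rw [one_div_pow, mul_one_div, div_le_one (by positivity)]
      exact a1
    have b4 : 0 ≤ C * (2 * R + 1) := mul_nonneg hC.le (by linarith)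
    nlinarith [mul_le_mul_of_nonneg_left b1 b4]
  have hnsq : (n : ℝ) ≤ Real.sqrt L := by
    apply Real.le_sqrt_of_sq_le
    exact_mod_cast hnL
  have hs1 : (1 : ℝ) ≤ Real.sqrt L := by
    apply Real.one_le_sqrt.mpr
    exact_mod_cast hL1
  have hfin : ∑ N ∈ Finset.Ico L (2 * L), (uh (n + N) - uh N) +
      ∑ N ∈ Finset.Ico L (2 * L), (C * κ ^ n * (2 * R + 1) +
        4 * (rho ^ N * M) + 4 * (1 / 2 : ℝ) ^ (16 * N)) ≤ (15 + 7 * C) * R₁ * Real.sqrt L := by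
    have d1 : 2 * R + 1 ≤ 7 * R₁ := by rw [hR]; linarith
    have d2 : (n : ℝ) * (2 * R + 1) ≤ Real.sqrt L * (7 * R₁) :=
      mul_le_mul hnsq d1 (by linarith) (by positivity)
    have d3 : C * (2 * R + 1) ≤ C * (7 * R₁) * Real.sqrt L := by
      have : C * (2 * R + 1) ≤ C * (7 * R₁) := mul_le_mul_of_nonneg_left d1 hC.le
      have h7 : 0 ≤ C * (7 * R₁) := by positivity
      nlinarith
    have d4 : (8 : ℝ) ≤ 8 * R₁ * Real.sqrt L := by nlinarith
    nlinarith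
  calc 2 ^ 18 * (∑ N ∈ Finset.Ico L (2 * L), (uh (n + N) - uh N) +
      ∑ N ∈ Finset.Ico L (2 * L), (C * κ ^ n * (2 * R + 1) +
        4 * (rho ^ N * M) + 4 * (1 / 2 : ℝ) ^ (16 * N))) ≤
        2 ^ 18 * ((15 + 7 * C) * R₁ * Real.sqrt L) :=
          mul_le_mul_of_nonneg_left hfin (by norm_num)
    _ = _ := by ring

end Pool.Agent.Lib.MP7f8c3e
end

section
/-!
RES: arbitrarily large odd winners in every class modulo `3^j`.
-/
namespace Pool.Agent.Lib.MP7f8c3e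

namespace ResM

open GameM

theorem five_win : 5 ∈ Win := by
  have h8 : 8 ∈ Win := by
    have := four_mul (n := 2) (by norm_num) two_win
    simpa using this
  apply closed_win
  refine ⟨16, Or.inr ⟨by decide, Or.inl rfl⟩, Or.inr ?_⟩
  intro m'' h
  rcases h with ⟨_, h3⟩ | ⟨h3, _⟩
  · have : m'' = 8 := by omega
    subst this
    exact ⟨by norm_num, h8⟩
  · exfalso
    rw [Nat.odd_iff] at h3
    omega

/-- `4 ^ (3 ^ j) = 1 + 3 ^ (j + 1) u` with `u = 1 mod 3` -/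
theorem four_pow (j : ℕ) : ∃ u : ℤ, (4 : ℤ) ^ (3 ^ j) = 1 + 3 ^ (j + 1) * (3 * u + 1) := by
  induction j with
  | zero => exact ⟨0, by norm_num⟩
  | succ j ih =>
    obtain ⟨u, hu⟩ := ih
    refine ⟨u + 3 ^ j * (3 * u + 1) ^ 2 + 3 ^ (2 * j) * (3 * u + 1) ^ 3, ?_⟩
    rw [pow_succ 3 j, pow_mul, hu]
    ring

/-- every residue `1 mod 3` is `10 * 4 ^ e` -/
theorem lift (j : ℕ) (a : ℤ) (ha : a ≡ 1 [ZMOD 3]) :
    ∃ e : ℕ, 10 * (4 : ℤ) ^ e ≡ a [ZMOD 3 ^ (j + 1)] := by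
  induction j with
  | zero =>
    refine ⟨0, ?_⟩
    have : (10 : ℤ) * 4 ^ 0 ≡ 1 [ZMOD 3 ^ (0 + 1)] := by decide
    exact this.trans (by simpa using ha.symm)
  | succ j ih =>
    obtain ⟨e, he⟩ := ih
    obtain ⟨D, hD⟩ := (Int.modEq_iff_dvd.mp he.symm)
    obtain ⟨u, hu⟩ := four_pow j
    -- 10 * 4^e - a = 3^(j+1) * D
    have h10 : ∃ w : ℤ, 10 * (4 : ℤ) ^ e = 3 * w + 1 := by
      have h1 : (10 : ℤ) * 4 ^ e ≡ 1 [ZMOD 3] := by
        have h2 : (4 : ℤ) ^ e ≡ 1 ^ e [ZMOD 3] := Int.ModEq.pow e (by decide)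
        rw [one_pow] at h2
        have h3 : (10 : ℤ) ≡ 1 [ZMOD 3] := by decide
        simpa using h3.mul h2
      obtain ⟨w, hw⟩ := Int.modEq_iff_dvd.mp h1.symm
      exact ⟨w, by linarith⟩
    obtain ⟨w, hw⟩ := h10
    -- choose i with 3 ∣ D + i
    obtain ⟨i, hi⟩ : ∃ i : ℕ, (3 : ℤ) ∣ D + i := by
      refine ⟨((-D) % 3).toNat, ?_⟩
      have h1 : 0 ≤ (-D) % 3 := Int.emod_nonneg _ (by norm_num)
      rw [Int.toNat_of_nonneg h1]
      omega
    obtain ⟨q, hq⟩ := hi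
    refine ⟨e + i * 3 ^ j, ?_⟩
    -- (1 + 3^(j+1) v)^i = 1 + i 3^(j+1) v  mod 3^(j+2)
    have hpow : ∀ i : ℕ, ∃ r : ℤ, (4 : ℤ) ^ (i * 3 ^ j) = 1 + i * 3 ^ (j + 1) * (3 * u + 1)
        + 3 ^ (j + 2) * r := by
      intro i
      induction i with
      | zero => exact ⟨0, by simp⟩
      | succ i ih =>
        obtain ⟨r, hr⟩ := ih
        refine ⟨r + 3 ^ j * i * (3 * u + 1) ^ 2 + 3 ^ (j + 1) * r * (3 * u + 1), ?_⟩
        rw [add_mul, pow_add, hr, one_mul, hu]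
        push_cast
        ring
    obtain ⟨r, hr⟩ := hpow i
    apply (Int.modEq_iff_dvd.mpr _).symm
    refine ⟨q + u * i + w * i * (3 * u + 1) + 10 * 4 ^ e * r, ?_⟩
    have hD' : 10 * (4 : ℤ) ^ e = a + 3 ^ (j + 1) * D := by linarith
    have hDq : D = 3 * q - i := by linarith
    rw [pow_add, hr]
    have e1 : 10 * ((4 : ℤ) ^ e * (1 + i * 3 ^ (j + 1) * (3 * u + 1) + 3 ^ (j + 2) * r)) - a
        = (10 * 4 ^ e - a) + (10 * 4 ^ e) * (i * 3 ^ (j + 1) * (3 * u + 1))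
          + 3 ^ (j + 2) * (10 * 4 ^ e * r) := by ring
    rw [e1]
    have e2 : 10 * (4 : ℤ) ^ e - a = 3 ^ (j + 1) * (3 * q - i) := by
      rw [hD', hDq]; ring
    rw [e2]
    have e3 : (10 * (4 : ℤ) ^ e) * (i * 3 ^ (j + 1) * (3 * u + 1))
        = (3 * w + 1) * (i * 3 ^ (j + 1) * (3 * u + 1)) := by rw [hw]
    rw [e3]
    ring

end ResM

open GameM ResM in
theorem specRes : SpecRes := by
  intro j ζ B
  obtain ⟨e₀, he₀⟩ := lift j (3 * ζ + 1) (by
    apply (Int.modEq_iff_dvd.mpr _).symm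
    exact ⟨ζ, by ring⟩)
  obtain ⟨u, hu⟩ := four_pow j
  obtain ⟨M, hM⟩ := exists_nat_gt B
  set e : ℕ := e₀ + M * 3 ^ j with he
  have hcong : 10 * (4 : ℤ) ^ e ≡ 3 * ζ + 1 [ZMOD 3 ^ (j + 1)] := by
    have h1 : (4 : ℤ) ^ (3 ^ j) ≡ 1 [ZMOD 3 ^ (j + 1)] := by
      rw [hu]
      apply (Int.modEq_iff_dvd.mpr _).symm
      exact ⟨3 * u + 1, by ring⟩
    have h2 : (4 : ℤ) ^ e ≡ 4 ^ e₀ [ZMOD 3 ^ (j + 1)] := by
      have h3 : (4 : ℤ) ^ e = 4 ^ e₀ * (4 ^ (3 ^ j)) ^ M := by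
        rw [he, pow_add, ← pow_mul, mul_comm M]
      rw [h3]
      have := (h1.pow M).mul_left (4 ^ e₀)
      simpa using this
    exact (h2.mul_left 10).trans he₀
  obtain ⟨D, hD⟩ := Int.modEq_iff_dvd.mp hcong.symm
  -- y = ζ + 3^j D
  refine ⟨ζ + 3 ^ j * D, ?_⟩
  have hy : 3 * (ζ + 3 ^ j * D) + 1 = 10 * 4 ^ e := by
    rw [pow_succ] at hD
    linarith
  set y : ℤ := ζ + 3 ^ j * D with hydef
  have h4 : (e : ℤ) + 1 ≤ 4 ^ e := by
    have : e + 1 ≤ 4 ^ e := Nat.lt_pow_self (by norm_num)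
    exact_mod_cast this
  have heM : (M : ℤ) ≤ e := by
    have h3 : 1 ≤ 3 ^ j := Nat.one_le_pow _ _ (by norm_num)
    have : M ≤ e := by
      rw [he]
      nlinarith
    exact_mod_cast this
  have hyM : (M : ℤ) + 3 ≤ y := by
    have : (0 : ℤ) ≤ M := by positivity
    linarith
  have hyodd : Odd y := by
    have h5 : Odd (3 * y) := by
      have h6 : 3 * y = 2 * (5 * 4 ^ e - 1) + 1 := by linarith
      exact ⟨_, h6⟩
    exact (Int.odd_mul.mp h5).2
  have hMnn : (0 : ℤ) ≤ M := by positivity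
  refine ⟨hyodd, ?_, ⟨by omega, ?_⟩, ?_⟩
  · have h7 : ((M : ℤ) : ℝ) + 3 ≤ (y : ℝ) := by exact_mod_cast hyM
    push_cast at h7
    linarith
  · obtain ⟨m, hm⟩ := Int.eq_ofNat_of_zero_le (show 0 ≤ y by omega)
    rw [hm] at hyodd hy ⊢
    simp only [Int.toNat_natCast]
    apply step (n' := 5) (e := e) _ (by norm_num) five_win
    · left
      have h8 : (3 * m + 1 : ℤ) = 2 * 4 ^ e * 5 := by linarith
      exact_mod_cast h8
    · exact_mod_cast hyodd
  · apply (Int.modEq_iff_dvd.mpr _).symm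
    exact ⟨D, by rw [hydef]; ring⟩

end Pool.Agent.Lib.MP7f8c3e
end

section
/-!
# ROUTE: routes `i` moves `U`, then down to the height `Sj` (Beanstalk density theorem)
-/
namespace Pool.Agent.Lib.MP7f8c3e

namespace RouteM

lemma rho_pos : 0 < rho := by unfold rho; norm_num

lemma rho_lt_one : rho < 1 := by unfold rho; norm_num

lemma one_lt_inv : 1 < rho⁻¹ := by unfold rho; norm_num

lemma rho_mul_inv (k : ℕ) : rho ^ k * rho⁻¹ ^ k = 1 := by
  rw [← mul_pow, mul_inv_cancel₀ rho_pos.ne', one_pow]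

/-- The move `U`. -/
def U (n : ℤ) : ℤ := if n % 4 = 1 then (3 * n - 1) / 2 else (3 * n + 1) / 2

lemma U_odd {n : ℤ} (hn : Odd n) : Odd (U n) := by
  rw [Int.odd_iff] at hn ⊢
  unfold U
  split_ifs with h <;> omega

lemma U_spec {n : ℤ} (hn : Odd n) : ∃ s : ℤ, (s = 1 ∨ s = -1) ∧ 2 * U n = 3 * n + s := by
  rw [Int.odd_iff] at hn
  unfold U
  split_ifs with h
  · exact ⟨-1, Or.inr rfl, by omega⟩
  · exact ⟨1, Or.inl rfl, by omega⟩

lemma U_inj {n n' : ℤ} (hn : Odd n) (hn' : Odd n') (h : U n = U n') : n = n' := by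
  rw [Int.odd_iff] at hn hn'
  unfold U at h
  split_ifs at h <;> omega

lemma iter_odd : ∀ (i : ℕ) {n : ℤ}, Odd n → Odd (U^[i] n)
  | 0, _, hn => hn
  | (i+1), n, hn => by
      rw [Function.iterate_succ_apply]
      exact iter_odd i (U_odd hn)

lemma iter_inj : ∀ (i : ℕ) {n n' : ℤ}, Odd n → Odd n' → U^[i] n = U^[i] n' → n = n'
  | 0, _, _, _, _, h => h
  | (i+1), n, n', hn, hn', h => by
      rw [Function.iterate_succ_apply, Function.iterate_succ_apply] at h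
      exact U_inj hn hn' (iter_inj i (U_odd hn) (U_odd hn') h)

lemma iter_mem : ∀ (i : ℕ) {n : ℤ}, Odd n → ∃ c ∈ CS i i, 2 ^ i * U^[i] n = 3 ^ i * n + c
  | 0, n, _ => ⟨0, ⟨rfl, rfl⟩, by simp⟩
  | (i+1), n, hn => by
      obtain ⟨s, hs, hU⟩ := U_spec hn
      obtain ⟨c, hc, h⟩ := iter_mem i (U_odd hn)
      refine ⟨3 ^ i * s + 2 ^ 1 * c, ⟨s, 1, c, hs, odd_one, by omega, ?_, rfl⟩, ?_⟩
      · rw [Nat.add_sub_cancel]; exact hc
      · rw [Function.iterate_succ_apply]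
        calc (2 : ℤ) ^ (i + 1) * U^[i] (U n) = 2 * (2 ^ i * U^[i] (U n)) := by ring
          _ = 2 * (3 ^ i * U n + c) := by rw [h]
          _ = 3 ^ i * (2 * U n) + 2 * c := by ring
          _ = 3 ^ i * (3 * n + s) + 2 * c := by rw [hU]
          _ = _ := by ring

lemma iter_close : ∀ (i : ℕ) {n : ℤ}, Odd n →
    |((U^[i] n : ℤ) : ℝ) - (3 / 2) ^ i * n| ≤ (3 / 2) ^ i - 1
  | 0, n, _ => by simp
  | (i+1), n, hn => by
      obtain ⟨s, hs, hU⟩ := U_spec hn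
      have h := iter_close i (U_odd hn)
      have hU' : 2 * ((U n : ℤ) : ℝ) = 3 * n + s := by exact_mod_cast hU
      have hU2 : ((U n : ℤ) : ℝ) = 3 / 2 * n + s / 2 := by linarith
      have hs1 : |(s : ℝ)| ≤ 1 := by rcases hs with rfl | rfl <;> simp
      rw [Function.iterate_succ_apply]
      have h1 : ((U^[i] (U n) : ℤ) : ℝ) - (3 / 2) ^ (i + 1) * n =
          (((U^[i] (U n) : ℤ) : ℝ) - (3 / 2) ^ i * ((U n : ℤ) : ℝ)) + (3 / 2) ^ i * (s / 2) := by
        rw [hU2]; ring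
      rw [h1]
      have hp : (0 : ℝ) < (3 / 2) ^ i := by positivity
      have h2 : |(3 / 2 : ℝ) ^ i * (s / 2)| ≤ (3 / 2) ^ i * (1 / 2) := by
        rw [abs_mul, abs_of_pos hp, abs_div]
        apply mul_le_mul_of_nonneg_left _ hp.le
        rw [abs_of_pos (by norm_num : (0 : ℝ) < 2)]
        linarith
      calc _ ≤ |((U^[i] (U n) : ℤ) : ℝ) - (3 / 2) ^ i * ((U n : ℤ) : ℝ)| +
            |(3 / 2 : ℝ) ^ i * (s / 2)| := abs_add_le _ _
        _ ≤ ((3 / 2) ^ i - 1) + (3 / 2) ^ i * (1 / 2) := add_le_add h h2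
        _ = _ := by ring

lemma CS_odd : ∀ {t K : ℕ} {c : ℤ}, 1 ≤ t → c ∈ CS t K → Odd c
  | 0, _, _, h, _ => absurd h (by omega)
  | (t+1), K, c, _, hc => by
      obtain ⟨s, k, c', hs, hk, -, -, rfl⟩ := hc
      have h1 : Odd ((3 : ℤ) ^ t * s) := by
        apply Odd.mul
        · exact Odd.pow (by decide)
        · rcases hs with rfl | rfl <;> decide
      have h2 : Even ((2 : ℤ) ^ k * c') := by
        apply Even.mul_right
        apply Even.pow_of_ne_zero (by decide)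
        intro h0
        rw [h0] at hk
        exact absurd hk (by decide)
      exact h1.add_even h2

/-- A finite set of integers in one class modulo `Q` and of diameter at most `ℓ`. -/
lemma spaced {s : Finset ℤ} {Q : ℕ} (hQ : 0 < Q) {ℓ : ℝ} (hℓ : 0 ≤ ℓ)
    (h1 : ∀ z ∈ s, ∀ z' ∈ s, (Q : ℤ) ∣ z - z') (h2 : ∀ z ∈ s, ∀ z' ∈ s, (z : ℝ) - z' ≤ ℓ) :
    (s.card : ℝ) ≤ ℓ / Q + 1 := by
  classical
  have hQ' : (0 : ℝ) < Q := by exact_mod_cast hQ
  rcases s.eq_empty_or_nonempty with rfl | hs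
  · simp; positivity
  obtain ⟨a, ha, hmin⟩ : ∃ a ∈ s, ∀ z ∈ s, a ≤ z := ⟨s.min' hs, s.min'_mem hs, fun z hz => s.min'_le z hz⟩
  have hcard : s.card ≤ (Finset.range (⌊ℓ / Q⌋₊ + 1)).card := by
    apply Finset.card_le_card_of_injOn (fun z => ((z - a) / Q).toNat)
    · intro z hz
      have hz' : z ∈ s := hz
      obtain ⟨k, hk⟩ := h1 z hz' a ha
      have hk0 : 0 ≤ k := by
        by_contra hc
        push Not at hc
        have h3 : 0 ≤ z - a := by linarith [hmin z hz']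
        have h4 : (0 : ℤ) < Q := by exact_mod_cast hQ
        nlinarith
      have hzk : ((z - a) / (Q : ℤ)).toNat = k.toNat := by
        rw [hk, Int.mul_ediv_cancel_left _ (by exact_mod_cast hQ.ne')]
      simp only [Finset.coe_range, Set.mem_Iio]
      rw [hzk, Nat.lt_succ_iff]
      apply Nat.le_floor
      rw [le_div_iff₀ hQ']
      have h5 : ((k.toNat : ℕ) : ℝ) = k := by
        have : ((k.toNat : ℕ) : ℤ) = k := Int.toNat_of_nonneg hk0
        exact_mod_cast this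
      rw [h5]
      have h6 := h2 z hz' a ha
      have h7 : ((z - a : ℤ) : ℝ) = Q * k := by rw [hk]; push_cast; ring
      push_cast at h7
      linarith
    · intro z hz z' hz' heq
      have hz1 : z ∈ s := hz
      have hz1' : z' ∈ s := hz'
      obtain ⟨k, hk⟩ := h1 z hz1 a ha
      obtain ⟨k', hk'⟩ := h1 z' hz1' a ha
      have h4 : (0 : ℤ) < Q := by exact_mod_cast hQ
      have hk0 : 0 ≤ k := by
        by_contra hc
        push Not at hc
        have h3 : 0 ≤ z - a := by linarith [hmin z hz1]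
        nlinarith
      have hk0' : 0 ≤ k' := by
        by_contra hc
        push Not at hc
        have h3 : 0 ≤ z' - a := by linarith [hmin z' hz1']
        nlinarith
      simp only at heq
      rw [hk, hk', Int.mul_ediv_cancel_left _ h4.ne', Int.mul_ediv_cancel_left _ h4.ne'] at heq
      have h5 : k = k' := by omega
      rw [h5] at hk
      linarith
  rw [Finset.card_range] at hcard
  have h3 : ((⌊ℓ / Q⌋₊ : ℕ) : ℝ) ≤ ℓ / Q := Nat.floor_le (by positivity)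
  have h4 : (s.card : ℝ) ≤ ((⌊ℓ / Q⌋₊ + 1 : ℕ) : ℝ) := by exact_mod_cast hcard
  push_cast at h4
  linarith

lemma fiber {β : Type} [DecidableEq β] {s : Finset ℤ} {T : Finset β} {f : ℤ → β}
    (hf : ∀ z ∈ s, f z ∈ T) {c : ℝ}
    (h : ∀ b ∈ T, ((s.filter (fun z => f z = b)).card : ℝ) ≤ c) :
    (s.card : ℝ) ≤ T.card * c := by
  have h1 := Finset.card_eq_sum_card_fiberwise (s := s) (t := T) (f := f) hf
  rw [h1]
  push_cast
  calc ∑ b ∈ T, ((s.filter (fun z => f z = b)).card : ℝ) ≤ ∑ b ∈ T, c :=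
        Finset.sum_le_sum h
    _ = _ := by simp

lemma card_odd_range (k : ℕ) : ((Finset.range (2 * k)).filter (fun a => Odd a)).card = k := by
  induction k with
  | zero => simp
  | succ k ih =>
      have h1 : 2 * (k + 1) = (2 * k + 1) + 1 := by ring
      rw [h1, Finset.range_add_one, Finset.range_add_one, Finset.filter_insert,
        Finset.filter_insert]
      have h2 : Odd (2 * k + 1) := ⟨k, rfl⟩
      have h3 : ¬ Odd (2 * k) := by
        rw [Nat.not_odd_iff_even]; exact even_two_mul k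
      rw [if_pos h2, if_neg h3, Finset.card_insert_of_notMem, ih]
      simp

open Classical in
/-- The number of odd classes not represented. -/
lemma bad_card {N : ℕ} (hN : 1 ≤ N) (M : ℝ) :
    ((((Finset.range (2 ^ (16 * N + 1))).filter (fun a => Odd a)).filter
      (fun a => ¬ a ∈ Cls N M)).card : ℝ) + g N M = 2 ^ (16 * N) := by
  have h1 := Finset.card_filter_add_card_filter_not
    (s := (Finset.range (2 ^ (16 * N + 1))).filter (fun a => Odd a)) (fun a => a ∈ Cls N M)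
  have h2 : ((Finset.range (2 ^ (16 * N + 1))).filter (fun a => Odd a)).card = 2 ^ (16 * N) := by
    have : 2 ^ (16 * N + 1) = 2 * 2 ^ (16 * N) := by ring
    rw [this]
    exact card_odd_range _
  have h3 : g N M = (((Finset.range (2 ^ (16 * N + 1))).filter (fun a => Odd a)).filter
      (fun a => a ∈ Cls N M)).card := by
    unfold g
    have : Cls N M = ((((Finset.range (2 ^ (16 * N + 1))).filter (fun a => Odd a)).filter
      (fun a => a ∈ Cls N M) : Finset ℕ) : Set ℕ) := by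
      ext a
      simp only [Finset.coe_filter, Finset.mem_filter, Finset.mem_range, Set.mem_ofPred_eq]
      constructor
      · intro ha
        refine ⟨⟨ha.1, ?_⟩, ha⟩
        obtain ⟨hlt, c, hc, -, hmod⟩ := ha
        have hodd : Odd c := CS_odd (by omega) hc
        have h4 : (2 : ℤ) ∣ 2 ^ (16 * N + 1) := dvd_pow_self 2 (by omega)
        have h5 : c ≡ a [ZMOD 2] := hmod.of_dvd h4
        rw [Int.odd_iff] at hodd
        unfold Int.ModEq at h5
        rw [Nat.odd_iff]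
        omega
      · rintro ⟨-, h⟩
        exact h
    conv_lhs => rw [this]
    rw [Set.ncard_coe_finset]
  rw [h3]
  have h4 : (2 : ℝ) ^ (16 * N) = ((2 ^ (16 * N) : ℕ) : ℝ) := by push_cast; ring
  rw [h4, ← h2, ← h1]
  push_cast
  ring

lemma exists_pow_small {x : ℝ} (h1 : 0 < x) (h2 : x < 1) {e : ℝ} (he : 0 < e) :
    ∃ n : ℕ, ∀ m : ℕ, n ≤ m → x ^ m ≤ e := by
  obtain ⟨n, hn⟩ := exists_pow_lt_of_lt_one he h2
  exact ⟨n, fun m hm => (pow_le_pow_of_le_one h1.le h2.le hm).trans hn.le⟩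

lemma log_bound (S : ℕ) : Nat.log 2 S / 200 ≤ S / 1000 := by
  have h1 : S < 2 ^ (200 * (S / 1000 + 1)) := by
    have h2 : S < 1000 * (S / 1000 + 1) := by omega
    have h3 : S / 1000 + 1 < 2 ^ (S / 1000 + 1) := Nat.lt_two_pow_self
    have h4 : (2 : ℕ) ^ 10 * 2 ^ (S / 1000 + 1) ≤ 2 ^ (200 * (S / 1000 + 1)) := by
      rw [← pow_add]
      exact Nat.pow_le_pow_right (by norm_num) (by omega)
    have h5 : (2 : ℕ) ^ 10 = 1024 := by norm_num
    rw [h5] at h4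
    omega
  have h2 : Nat.log 2 S < 200 * (S / 1000 + 1) := by
    rcases Nat.eq_zero_or_pos S with h0 | h0
    · rw [h0]; simp
    · exact Nat.log_lt_of_lt_pow h0.ne' h1
  omega

end RouteM

open RouteM in
theorem specRoute (hChain : SpecChain) (hTight : SpecTight) : SpecRoute := by
  classical
  intro W hW ε hε
  obtain ⟨S₀, hCh⟩ := hChain W hW (ε / 8) (by positivity)
  obtain ⟨κ, C, hκ0, hκ1, hC, hT⟩ := hTight
  refine ⟨S₀, fun Sj i hSj => ?_⟩
  have h32 : (0 : ℝ) < (3 / 2 : ℝ) ^ i := by positivity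
  have h321 : (1 : ℝ) ≤ (3 / 2 : ℝ) ^ i := one_le_pow₀ (by norm_num)
  -- thresholds
  obtain ⟨N₀, hN₀⟩ := exists_pow_small rho_pos rho_lt_one
    (e := 1 / (4 * (3 / 2 : ℝ) ^ i)) (by positivity)
  obtain ⟨E₀, hE₀⟩ := exists_pow_small rho_pos rho_lt_one (e := 1 / 20) (by norm_num)
  obtain ⟨B₀, hB₀⟩ := exists_pow_small hκ0 hκ1
    (e := ε / (2 * (C * (2 * (3 / 2 : ℝ) ^ i + 1)))) (by positivity)
  refine ⟨1000 * (N₀ + i + 1) + 2 * Sj + 2 * 2 ^ (200 * B₀) + 2 * E₀, fun S hS => ?_⟩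
  obtain ⟨N, hN⟩ : ∃ N, N = S / 1000 := ⟨_, rfl⟩
  obtain ⟨Sb, hSb⟩ : ∃ Sb, Sb = S - N := ⟨_, rfl⟩
  have hSbS : Sb + N = S := by omega
  have hSb2 : S ≤ 2 * Sb := by omega
  have hN0 : N₀ + i + 1 ≤ N := by omega
  have hSbj : Sj ≤ Sb := by omega
  have h101 : 101 * Sj ≤ 100 * Sb := by omega
  have hSbE : E₀ ≤ Sb := by omega
  have hbN : bS Sb ≤ N := by
    have h1 := log_bound Sb
    unfold bS
    omega
  have hbB : B₀ ≤ bS Sb := by
    unfold bS
    have h1 : 2 ^ (200 * B₀) ≤ Sb := by omega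
    have h2 : 200 * B₀ ≤ Nat.log 2 Sb := Nat.le_log_of_pow_le (by norm_num) h1
    omega
  obtain ⟨Exc1, hEx1, hEx2⟩ := hCh Sj Sb hSj h101
  obtain ⟨b₀, hb₀⟩ : ∃ b, b = bS Sb := ⟨_, rfl⟩
  obtain ⟨h, hh⟩ : ∃ h : ℝ, h = (3 / 2 : ℝ) ^ (20 * b₀) := ⟨_, rfl⟩
  have hhpos : 0 < h := by rw [hh]; positivity
  have hrad : rad Sb = h + 8 := by unfold rad; rw [hh, hb₀]
  obtain ⟨σ, hσ⟩ : ∃ s : ℝ, s = rho ^ N * (3 / 2 : ℝ) ^ i := ⟨_, rfl⟩
  have hσ0 : 0 < σ := by rw [hσ]; exact mul_pos (pow_pos rho_pos _) h32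
  have hσ1 : σ ≤ 1 / 4 := by
    rw [hσ]
    have h1 := hN₀ N (by omega)
    rw [le_div_iff₀ (by positivity)] at h1
    linarith
  obtain ⟨m, hm⟩ : ∃ m : ℤ → ℤ, ∀ n, m n = 2 * ⌊σ * n / 2⌋ + 1 := ⟨fun n => _, fun n => rfl⟩
  have hmodd : ∀ n, Odd (m n) := fun n => ⟨_, hm n⟩
  have hm1 : ∀ n : ℤ, σ * n - 1 < m n := by
    intro n
    have := Int.lt_floor_add_one (σ * n / 2)
    rw [hm n]
    push_cast
    linarith
  have hm2 : ∀ n : ℤ, (m n : ℝ) ≤ σ * n + 1 := by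
    intro n
    have := Int.floor_le (σ * n / 2)
    rw [hm n]
    push_cast
    linarith
  obtain ⟨Q, hQ⟩ : ∃ Q : ℕ, Q = 2 ^ (16 * N + 1) := ⟨_, rfl⟩
  have hQpos : 0 < Q := by rw [hQ]; positivity
  obtain ⟨Bad, hBad⟩ : ∃ Bad : ℤ → Prop, ∀ z, Bad z ↔ ¬ ∃ c ∈ Lv N, |(c : ℝ)| ≤ h * 2 ^ (16 * N) ∧
      c ≡ 2 ^ (16 * N) - 3 ^ (10 * N) * z [ZMOD 2 ^ (16 * N + 1)] := ⟨fun z => _, fun z => Iff.rfl⟩
  refine ⟨{n : ℤ | m n ∈ Exc1 ∨ Bad (U^[i] n)}, ?_, ?_⟩
  · -- the transfer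
    intro n hn hnpos hnE hfull
    have hnE1 : m n ∉ Exc1 := fun h => hnE (Or.inl h)
    have hnE2 : ¬ Bad (U^[i] n) := fun h => hnE (Or.inr h)
    have hfm : Full W (rad Sb + 4) (m n) := by
      apply hEx1 (m n) (hmodd n) hnE1
      intro z hz hzm
      apply hfull z hz
      have h1 : rho ^ (S - Sj) = rho ^ (Sb - Sj) * rho ^ N := by
        rw [← pow_add]; congr 1; omega
      have h2 : rho ^ (S - Sj) * (3 / 2) ^ i * (n : ℝ) = rho ^ (Sb - Sj) * (σ * n) := by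
        rw [h1, hσ]; ring
      rw [h2]
      have hr0 : 0 < rho ^ (Sb - Sj) := pow_pos rho_pos _
      have hr1 : rho ^ (Sb - Sj) ≤ 1 := pow_le_one₀ rho_pos.le rho_lt_one.le
      have h3 : |rho ^ (Sb - Sj) * (m n : ℝ) - rho ^ (Sb - Sj) * (σ * n)| ≤ rho ^ (Sb - Sj) := by
        rw [← mul_sub, abs_mul, abs_of_pos hr0]
        have h4 : |(m n : ℝ) - σ * n| ≤ 1 := by
          rw [abs_le]
          have := hm1 n
          have := hm2 n
          constructor <;> linarith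
        calc rho ^ (Sb - Sj) * |(m n : ℝ) - σ * n| ≤ rho ^ (Sb - Sj) * 1 :=
              mul_le_mul_of_nonneg_left h4 hr0.le
          _ = _ := mul_one _
      have h5 := abs_sub_le (z : ℝ) (rho ^ (Sb - Sj) * (m n : ℝ)) (rho ^ (Sb - Sj) * (σ * n))
      linarith
    rw [hBad] at hnE2
    push Not at hnE2
    obtain ⟨c, hc, hcb, hmod⟩ := hnE2
    have hdvd : (2 : ℤ) ^ (16 * N + 1) ∣ c - (2 ^ (16 * N) - 3 ^ (10 * N) * U^[i] n) :=
      hmod.symm.dvd
    obtain ⟨w, hw⟩ := hdvd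
    have hz : (2 : ℤ) ^ (16 * N) * (2 * w + 1) = 3 ^ (10 * N) * U^[i] n + c := by
      rw [pow_succ] at hw
      linarith
    have hzodd : Odd (2 * w + 1) := ⟨w, rfl⟩
    have hn'odd : Odd (U^[i] n) := iter_odd i hn
    have hzW : 2 * w + 1 ∈ W := by
      apply hfm _ hzodd
      have hzr : (2 : ℝ) ^ (16 * N) * ((2 * w + 1 : ℤ) : ℝ) =
          3 ^ (10 * N) * ((U^[i] n : ℤ) : ℝ) + c := by exact_mod_cast hz
      have h2p : (0 : ℝ) < 2 ^ (16 * N) := by positivity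
      have hrho : rho ^ N = 3 ^ (10 * N) / 2 ^ (16 * N) := by
        unfold rho
        rw [div_pow, pow_mul, pow_mul]
        norm_num
      have h1 : ((2 * w + 1 : ℤ) : ℝ) - rho ^ N * ((U^[i] n : ℤ) : ℝ) = c / 2 ^ (16 * N) := by
        rw [hrho]
        field_simp
        linarith
      have h2 : |((2 * w + 1 : ℤ) : ℝ) - rho ^ N * ((U^[i] n : ℤ) : ℝ)| ≤ h := by
        rw [h1, abs_div, abs_of_pos h2p, div_le_iff₀ h2p]
        exact hcb
      have hr0 : 0 < rho ^ N := pow_pos rho_pos _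
      have h3 : |rho ^ N * ((U^[i] n : ℤ) : ℝ) - σ * n| ≤ σ := by
        have h4 := iter_close i hn
        have h5 : rho ^ N * ((U^[i] n : ℤ) : ℝ) - σ * n =
            rho ^ N * (((U^[i] n : ℤ) : ℝ) - (3 / 2) ^ i * n) := by rw [hσ]; ring
        rw [h5, abs_mul, abs_of_pos hr0, hσ]
        apply mul_le_mul_of_nonneg_left _ hr0.le
        linarith
      have h4 : |σ * n - (m n : ℝ)| ≤ 1 := by
        rw [abs_le]
        have := hm1 n
        have := hm2 n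
        constructor <;> linarith
      have h5 := abs_sub_le ((2 * w + 1 : ℤ) : ℝ) (rho ^ N * ((U^[i] n : ℤ) : ℝ)) (σ * n)
      have h6 := abs_sub_le ((2 * w + 1 : ℤ) : ℝ) (σ * n) (m n : ℝ)
      rw [hrad]
      linarith
    have hn'W : U^[i] n ∈ W := hW (10 * N) (16 * N) c (U^[i] n) (2 * w + 1) hc hzodd hzW hz
    obtain ⟨c', hc', hc2⟩ := iter_mem i hn
    exact hW i i c' n (U^[i] n) hc' hn'odd hn'W hc2
  · -- the count
    intro X hX
    have hSpos : 0 < rho⁻¹ ^ S := by have := inv_pos.mpr rho_pos; positivity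
    have hX0 : (0 : ℝ) < X := by
      by_contra hc
      push Not at hc
      have : (3 / 2 : ℝ) ^ i * X ≤ 0 := mul_nonpos_of_nonneg_of_nonpos h32.le hc
      linarith
    have hX1 : (1 : ℝ) ≤ X := by
      have : 0 < X := by exact_mod_cast hX0
      exact_mod_cast this
    -- sigma X
    have hσX : rho⁻¹ ^ Sb ≤ σ * X := by
      have h1 : rho⁻¹ ^ S = rho⁻¹ ^ Sb * rho⁻¹ ^ N := by rw [← pow_add, hSbS]
      have h2 : rho ^ N * (rho⁻¹ ^ Sb * rho⁻¹ ^ N) ≤ rho ^ N * ((3 / 2 : ℝ) ^ i * X) := by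
        rw [← h1]
        exact mul_le_mul_of_nonneg_left hX (pow_pos rho_pos _).le
      have h3 : rho ^ N * (rho⁻¹ ^ Sb * rho⁻¹ ^ N) = rho⁻¹ ^ Sb := by
        calc rho ^ N * (rho⁻¹ ^ Sb * rho⁻¹ ^ N) = rho⁻¹ ^ Sb * (rho ^ N * rho⁻¹ ^ N) := by ring
          _ = _ := by rw [rho_mul_inv, mul_one]
      rw [h3] at h2
      rw [hσ]
      linarith
    have h20 : (20 : ℝ) ≤ rho⁻¹ ^ Sb := by
      have h1 := hE₀ Sb hSbE
      have h2 := rho_mul_inv Sb
      have h3 : 0 < rho⁻¹ ^ Sb := by have := inv_pos.mpr rho_pos; positivity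
      nlinarith
    have hw20 : 20 ≤ σ * X := h20.trans hσX
    -- the two parts
    obtain ⟨s, hs⟩ : ∃ s : Finset ℤ, s = (Finset.Ico (X : ℤ) (2 * X)).filter (fun n => Odd n) :=
      ⟨_, rfl⟩
    have hs' : ∀ n, n ∈ s ↔ ((X : ℤ) ≤ n ∧ n < 2 * X) ∧ Odd n := by
      intro n; rw [hs, Finset.mem_filter, Finset.mem_Ico]
    have hset : {n : ℤ | n ∈ {n : ℤ | m n ∈ Exc1 ∨ Bad (U^[i] n)} ∧ Odd n ∧ (X : ℤ) ≤ n ∧
        n < 2 * X} = ((s.filter (fun n => m n ∈ Exc1) ∪ s.filter (fun n => Bad (U^[i] n)) :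
          Finset ℤ) : Set ℤ) := by
      ext n
      simp only [Finset.coe_union, Finset.coe_filter, Set.mem_union, Set.mem_ofPred_eq, hs']
      tauto
    rw [hset, Set.ncard_coe_finset]
    have hcu := Finset.card_union_le (s.filter (fun n => m n ∈ Exc1))
      (s.filter (fun n => Bad (U^[i] n)))
    have hcu' : ((s.filter (fun n => m n ∈ Exc1) ∪ s.filter (fun n => Bad (U^[i] n))).card : ℝ) ≤
        (s.filter (fun n => m n ∈ Exc1)).card + (s.filter (fun n => Bad (U^[i] n))).card := by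
      exact_mod_cast hcu
    -- first part
    have hp1 : ((s.filter (fun n => m n ∈ Exc1)).card : ℝ) ≤ ε / 4 * X := by
      obtain ⟨a₁, ha₁⟩ : ∃ a : ℤ, a = ⌊σ * X⌋ - 1 := ⟨_, rfl⟩
      obtain ⟨b₁, hb₁⟩ : ∃ b : ℤ, b = ⌊2 * (σ * X)⌋ + 2 := ⟨_, rfl⟩
      have hab1 : (b₁ : ℝ) - a₁ ≤ σ * X + 4 := by
        have h1 := Int.floor_le (2 * (σ * X))
        have h2 := Int.lt_floor_add_one (σ * X)
        rw [ha₁, hb₁]; push_cast; linarith
      have hab2 : σ * X ≤ (b₁ : ℝ) - a₁ := by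
        have h1 := Int.floor_le (σ * X)
        have h2 := Int.lt_floor_add_one (2 * (σ * X))
        rw [ha₁, hb₁]; push_cast; linarith
      have hcount := hEx2 a₁ b₁ (hσX.trans hab2)
      obtain ⟨T, hTdef⟩ : ∃ T : Finset ℤ, T = (Finset.Ico a₁ b₁).filter
        (fun m => m ∈ Exc1 ∧ Odd m) := ⟨_, rfl⟩
      have hTset : {n : ℤ | n ∈ Exc1 ∧ Odd n ∧ a₁ ≤ n ∧ n < b₁} = (T : Set ℤ) := by
        ext n
        rw [hTdef]
        simp only [Finset.coe_filter, Finset.mem_Ico, Set.mem_ofPred_eq]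
        tauto
      rw [hTset, Set.ncard_coe_finset] at hcount
      have hfib := fiber (s := s.filter (fun n => m n ∈ Exc1)) (T := T) (f := m)
        (by
          intro n hn
          rw [Finset.mem_filter, hs'] at hn
          obtain ⟨⟨⟨h1, h2⟩, h3⟩, h4⟩ := hn
          rw [hTdef, Finset.mem_filter, Finset.mem_Ico]
          have h1' : (X : ℝ) ≤ n := by exact_mod_cast h1
          have h2' : (n : ℝ) < 2 * X := by exact_mod_cast h2
          refine ⟨⟨?_, ?_⟩, h4, hmodd n⟩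
          · have h5 := hm1 n
            have h6 := Int.floor_le (σ * X)
            have h7 : σ * X ≤ σ * n := mul_le_mul_of_nonneg_left h1' hσ0.le
            have h8 : ((⌊σ * X⌋ : ℤ) : ℝ) < m n + 1 := by linarith
            have h9 : ⌊σ * X⌋ < m n + 1 := by exact_mod_cast h8
            omega
          · have h5 := hm2 n
            have h6 := Int.lt_floor_add_one (2 * (σ * X))
            have h7 : σ * n ≤ σ * (2 * X) := mul_le_mul_of_nonneg_left h2'.le hσ0.le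
            have h8 : (m n : ℝ) < ((⌊2 * (σ * X)⌋ : ℤ) : ℝ) + 2 := by linarith
            have h9 : m n < ⌊2 * (σ * X)⌋ + 2 := by exact_mod_cast h8
            omega)
        (c := 2 / σ / (2 : ℕ) + 1)
        (by
          intro b hb
          apply spaced (by norm_num) (by positivity)
          · intro z hz z' hz'
            rw [Finset.mem_filter, Finset.mem_filter, hs'] at hz hz'
            obtain ⟨u, hu⟩ := hz.1.1.2
            obtain ⟨v, hv⟩ := hz'.1.1.2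
            exact ⟨u - v, by rw [hu, hv]; push_cast; ring⟩
          · intro z hz z' hz'
            rw [Finset.mem_filter] at hz hz'
            have h1 : m z = m z' := hz.2.trans hz'.2.symm
            rw [hm z, hm z'] at h1
            have h2 : ⌊σ * z / 2⌋ = ⌊σ * z' / 2⌋ := by omega
            have h3 := Int.floor_le (σ * z' / 2)
            have h4 := Int.lt_floor_add_one (σ * z / 2)
            rw [h2] at h4
            rw [le_div_iff₀ hσ0]
            nlinarith)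
      have h1 : (2 / σ / (2 : ℕ) + 1 : ℝ) = 1 / σ + 1 := by push_cast; ring
      rw [h1] at hfib
      have h2 : (T.card : ℝ) ≤ ε / 8 * (σ * X + 4) :=
        hcount.trans (mul_le_mul_of_nonneg_left hab1 (by positivity))
      have h3 : 1 / σ ≤ X / 20 := by
        rw [div_le_div_iff₀ hσ0 (by norm_num)]
        linarith
      have h4 : 4 ≤ 1 / σ := by
        rw [le_div_iff₀ hσ0]; linarith
      calc ((s.filter (fun n => m n ∈ Exc1)).card : ℝ) ≤ T.card * (1 / σ + 1) := hfib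
        _ ≤ (ε / 8 * (σ * X + 4)) * (1 / σ + 1) :=
            mul_le_mul_of_nonneg_right h2 (by positivity)
        _ = ε / 8 * (X + σ * X + 4 * (1 / σ) + 4) := by field_simp; ring
        _ ≤ ε / 8 * (2 * X) := by
            apply mul_le_mul_of_nonneg_left _ (by positivity)
            have h5 : σ * X ≤ 1 / 4 * X := mul_le_mul_of_nonneg_right hσ1 hX0.le
            linarith
        _ = ε / 4 * X := by ring
    -- second part
    have hp2 : ((s.filter (fun n => Bad (U^[i] n))).card : ℝ) ≤ ε / 2 * X := by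
      obtain ⟨T, hTdef⟩ : ∃ T : Finset ℕ, T = (((Finset.range (2 ^ (16 * N + 1))).filter
        (fun a => Odd a)).filter (fun a => ¬ a ∈ Cls N h)) := ⟨_, rfl⟩
      have hTc : (T.card : ℝ) + g N h = 2 ^ (16 * N) := by
        rw [hTdef]; exact bad_card (by omega) h
      have hTc2 : (T.card : ℝ) ≤ C * κ ^ b₀ * 2 ^ (16 * N) := by
        have h1 := hT N b₀ (by rw [hb₀]; exact hbN)
        rw [← hh] at h1
        linarith
      obtain ⟨ℓ, hℓ⟩ : ∃ ℓ : ℝ, ℓ = (3 / 2 : ℝ) ^ i * (X + 2) := ⟨_, rfl⟩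
      have hℓ0 : 0 ≤ ℓ := by rw [hℓ]; positivity
      have hfib := fiber (s := s.filter (fun n => Bad (U^[i] n))) (T := T)
        (f := fun n => ((2 ^ (16 * N) - 3 ^ (10 * N) * U^[i] n) % 2 ^ (16 * N + 1)).toNat)
        (by
          intro n hn
          rw [Finset.mem_filter, hs'] at hn
          obtain ⟨⟨⟨h1, h2⟩, h3⟩, h4⟩ := hn
          rw [hBad] at h4
          have hM : (0 : ℤ) < 2 ^ (16 * N + 1) := by positivity
          obtain ⟨r, hr⟩ : ∃ r : ℤ, r = (2 ^ (16 * N) - 3 ^ (10 * N) * U^[i] n) %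
            2 ^ (16 * N + 1) := ⟨_, rfl⟩
          have hr0 : 0 ≤ r := by rw [hr]; exact Int.emod_nonneg _ hM.ne'
          have hr1 : r < 2 ^ (16 * N + 1) := by rw [hr]; exact Int.emod_lt_of_pos _ hM
          have hrn : ((r.toNat : ℕ) : ℤ) = r := Int.toNat_of_nonneg hr0
          rw [← hr, hTdef, Finset.mem_filter, Finset.mem_filter, Finset.mem_range]
          have hrmod : r ≡ 2 ^ (16 * N) - 3 ^ (10 * N) * U^[i] n [ZMOD 2 ^ (16 * N + 1)] := by
            rw [hr]; exact Int.mod_modEq _ _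
          refine ⟨⟨?_, ?_⟩, ?_⟩
          · have : ((r.toNat : ℕ) : ℤ) < ((2 ^ (16 * N + 1) : ℕ) : ℤ) := by
              rw [hrn]; push_cast; exact hr1
            exact_mod_cast this
          · have h5 : Odd (2 ^ (16 * N) - 3 ^ (10 * N) * U^[i] n) := by
              apply Even.sub_odd
              · apply Even.pow_of_ne_zero (by decide); omega
              · apply Odd.mul
                · exact Odd.pow (by decide)
                · exact iter_odd i h3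
            have h6 : (2 : ℤ) ∣ 2 ^ (16 * N + 1) := dvd_pow_self 2 (by omega)
            have h7 := hrmod.of_dvd h6
            rw [Int.odd_iff] at h5
            unfold Int.ModEq at h7
            rw [Nat.odd_iff]
            omega
          · rintro ⟨-, c, hc, hcb, hmod⟩
            apply h4
            refine ⟨c, hc, hcb, ?_⟩
            rw [hrn] at hmod
            exact hmod.trans hrmod)
        (c := ℓ / Q + 1)
        (by
          intro b hb
          have hinj : ((s.filter (fun n => Bad (U^[i] n))).filter (fun n =>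
            ((2 ^ (16 * N) - 3 ^ (10 * N) * U^[i] n) % 2 ^ (16 * N + 1)).toNat = b)).card =
            (((s.filter (fun n => Bad (U^[i] n))).filter (fun n =>
            ((2 ^ (16 * N) - 3 ^ (10 * N) * U^[i] n) % 2 ^ (16 * N + 1)).toNat = b)).image
              (fun n => U^[i] n)).card := by
            rw [Finset.card_image_of_injOn]
            intro z hz z' hz' heq
            rw [Finset.mem_coe, Finset.mem_filter, Finset.mem_filter, hs'] at hz hz'
            exact iter_inj i hz.1.1.2 hz'.1.1.2 heq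
          rw [hinj]
          apply spaced hQpos hℓ0
          · intro w hw w' hw'
            rw [Finset.mem_image] at hw hw'
            obtain ⟨z, hz, rfl⟩ := hw
            obtain ⟨z', hz', rfl⟩ := hw'
            rw [Finset.mem_filter] at hz hz'
            have hM : (0 : ℤ) < 2 ^ (16 * N + 1) := by positivity
            have e0 := Int.emod_nonneg (2 ^ (16 * N) - 3 ^ (10 * N) * U^[i] z) hM.ne'
            have e0' := Int.emod_nonneg (2 ^ (16 * N) - 3 ^ (10 * N) * U^[i] z') hM.ne'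
            have h1 : (2 ^ (16 * N) - 3 ^ (10 * N) * U^[i] z) % 2 ^ (16 * N + 1) =
                (2 ^ (16 * N) - 3 ^ (10 * N) * U^[i] z') % 2 ^ (16 * N + 1) := by
              have h2 := hz.2
              have h2' := hz'.2
              rw [← Int.toNat_of_nonneg e0, ← Int.toNat_of_nonneg e0', h2, h2']
            have h2 : (2 : ℤ) ^ (16 * N + 1) ∣ 3 ^ (10 * N) * (U^[i] z - U^[i] z') := by
              have h3 := Int.ModEq.dvd h1
              have h4 : 3 ^ (10 * N) * (U^[i] z - U^[i] z') =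
                (2 ^ (16 * N) - 3 ^ (10 * N) * U^[i] z') -
                  (2 ^ (16 * N) - 3 ^ (10 * N) * U^[i] z) := by ring
              rw [h4]
              exact h3
            have hcop : IsCoprime ((2 : ℤ) ^ (16 * N + 1)) (3 ^ (10 * N)) := by
              apply IsCoprime.pow
              exact ⟨-1, 1, by norm_num⟩
            rw [hQ]
            push_cast
            exact hcop.dvd_of_dvd_mul_left h2
          · intro w hw w' hw'
            rw [Finset.mem_image] at hw hw'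
            obtain ⟨z, hz, rfl⟩ := hw
            obtain ⟨z', hz', rfl⟩ := hw'
            rw [Finset.mem_filter, Finset.mem_filter, hs'] at hz hz'
            have h1 := abs_le.mp (iter_close i hz.1.1.2)
            have h2 := abs_le.mp (iter_close i hz'.1.1.2)
            have h3 : (z : ℝ) ≤ 2 * X := by exact_mod_cast hz.1.1.1.2.le
            have h4 : (X : ℝ) ≤ z' := by exact_mod_cast hz'.1.1.1.1
            have h5 : (3 / 2 : ℝ) ^ i * z ≤ (3 / 2) ^ i * (2 * X) :=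
              mul_le_mul_of_nonneg_left h3 h32.le
            have h6 : (3 / 2 : ℝ) ^ i * X ≤ (3 / 2) ^ i * z' :=
              mul_le_mul_of_nonneg_left h4 h32.le
            rw [hℓ]
            linarith)
      have h1 : (2 : ℝ) ^ (16 * N) * (ℓ / Q + 1) = ℓ / 2 + 2 ^ (16 * N) := by
        rw [hQ]
        push_cast
        rw [pow_succ]
        field_simp
      have h2 : (2 : ℝ) ^ (16 * N) ≤ X := by
        have h3 : (3 / 2 : ℝ) ^ i ≤ 2 ^ N := by
          calc (3 / 2 : ℝ) ^ i ≤ 2 ^ i := pow_le_pow_left₀ (by norm_num) (by norm_num) i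
            _ ≤ 2 ^ N := pow_le_pow_right₀ (by norm_num) (by omega)
        have h4 : (2 : ℝ) ≤ rho⁻¹ ^ 8 := by unfold rho; norm_num
        have h5 : (2 : ℝ) ^ (17 * N) ≤ rho⁻¹ ^ S := by
          calc (2 : ℝ) ^ (17 * N) ≤ (rho⁻¹ ^ 8) ^ (17 * N) :=
                pow_le_pow_left₀ (by norm_num) h4 _
            _ = rho⁻¹ ^ (8 * (17 * N)) := by rw [← pow_mul]
            _ ≤ rho⁻¹ ^ S := pow_le_pow_right₀ one_lt_inv.le (by omega)
        have h6 : (2 : ℝ) ^ (17 * N) = 2 ^ (16 * N) * 2 ^ N := by rw [← pow_add]; congr 1; ring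
        have h7 : (2 : ℝ) ^ (16 * N) * 2 ^ N ≤ 2 ^ N * X := by
          calc (2 : ℝ) ^ (16 * N) * 2 ^ N ≤ rho⁻¹ ^ S := by rw [← h6]; exact h5
            _ ≤ (3 / 2 : ℝ) ^ i * X := hX
            _ ≤ 2 ^ N * X := mul_le_mul_of_nonneg_right h3 hX0.le
        have h8 : (0 : ℝ) < 2 ^ N := by positivity
        rw [mul_comm] at h7
        exact le_of_mul_le_mul_left h7 h8
      have h3 : ℓ / 2 + 2 ^ (16 * N) ≤ (2 * (3 / 2 : ℝ) ^ i + 1) * X := by
        rw [hℓ]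
        have h4 : (3 / 2 : ℝ) ^ i * (X + 2) ≤ (3 / 2) ^ i * (3 * X) :=
          mul_le_mul_of_nonneg_left (by linarith) h32.le
        have h5 : 0 ≤ (3 / 2 : ℝ) ^ i * X := by positivity
        nlinarith
      have hCk : 0 ≤ C * κ ^ b₀ := by positivity
      have h4 : C * κ ^ b₀ * (2 * (3 / 2 : ℝ) ^ i + 1) ≤ ε / 2 := by
        have h5 := hB₀ b₀ (by rw [hb₀]; exact hbB)
        rw [le_div_iff₀ (by positivity)] at h5
        linarith
      calc ((s.filter (fun n => Bad (U^[i] n))).card : ℝ) ≤ T.card * (ℓ / Q + 1) := hfib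
        _ ≤ (C * κ ^ b₀ * 2 ^ (16 * N)) * (ℓ / Q + 1) :=
            mul_le_mul_of_nonneg_right hTc2 (by positivity)
        _ = C * κ ^ b₀ * (2 ^ (16 * N) * (ℓ / Q + 1)) := by ring
        _ = C * κ ^ b₀ * (ℓ / 2 + 2 ^ (16 * N)) := by rw [h1]
        _ ≤ C * κ ^ b₀ * ((2 * (3 / 2 : ℝ) ^ i + 1) * X) := mul_le_mul_of_nonneg_left h3 hCk
        _ = C * κ ^ b₀ * (2 * (3 / 2 : ℝ) ^ i + 1) * X := by ring
        _ ≤ ε / 2 * X := mul_le_mul_of_nonneg_right h4 hX0.le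
    have hεX : 0 ≤ ε * X := by positivity
    linarith

end Pool.Agent.Lib.MP7f8c3e
end

section
/-!
# Module TIGHT (helper88)
-/
namespace Pool.Agent.Lib.MP7f8c3e

namespace TightM

theorem num85 : rho ^ 85 * (3 / 2 : ℝ) ^ 20 ≤ 1 / 2 := by
  unfold rho
  norm_num

theorem rho_pos : (0 : ℝ) < rho := by unfold rho; norm_num

theorem rho_lt : rho < 1 := by unfold rho; norm_num

theorem window {b : ℕ} (hb : 85 ≤ b) :
    (3 / 2 : ℝ) ^ (10 * b) + rho ^ b * (3 / 2 : ℝ) ^ (20 * (b + 1)) ≤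
      (3 / 2 : ℝ) ^ (20 * b) := by
  have h1 : (2 : ℝ) ≤ (3 / 2 : ℝ) ^ (10 * b) := by
    calc (2 : ℝ) ≤ (3 / 2 : ℝ) ^ 2 := by norm_num
      _ ≤ (3 / 2 : ℝ) ^ (10 * b) := pow_le_pow_right₀ (by norm_num) (by omega)
  have h2 : (3 / 2 : ℝ) ^ (20 * b) = (3 / 2 : ℝ) ^ (10 * b) * (3 / 2 : ℝ) ^ (10 * b) := by
    rw [← pow_add]; congr 1; ring
  have h3 : (3 / 2 : ℝ) ^ (10 * b) ≤ 1 / 2 * (3 / 2 : ℝ) ^ (20 * b) := by
    rw [h2]
    nlinarith [pow_pos (by norm_num : (0 : ℝ) < 3 / 2) (10 * b)]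
  have h4 : rho ^ b ≤ rho ^ 85 := pow_le_pow_of_le_one rho_pos.le rho_lt.le hb
  have h5 : (3 / 2 : ℝ) ^ (20 * (b + 1)) = (3 / 2 : ℝ) ^ 20 * (3 / 2 : ℝ) ^ (20 * b) := by
    rw [← pow_add]; congr 1; ring
  have h6 : rho ^ b * (3 / 2 : ℝ) ^ (20 * (b + 1)) ≤ 1 / 2 * (3 / 2 : ℝ) ^ (20 * b) := by
    rw [h5, ← mul_assoc]
    apply mul_le_mul_of_nonneg_right _ (by positivity)
    exact (mul_le_mul_of_nonneg_right h4 (by positivity)).trans num85
  linarith

end TightM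

open SubM TightM

theorem specTight (hT : SpecTinf) (hS : SpecSub) : SpecTight := by
  obtain ⟨κ, C, hκ0, hκ1, hC, h⟩ := hT
  have h1κ : 0 < 1 - κ := by linarith
  have key : ∀ N b : ℕ, 85 ≤ b → b ≤ N →
      (1 - C / (1 - κ) * κ ^ b) * 2 ^ (16 * N) ≤ (g N ((3 / 2 : ℝ) ^ (20 * b)) : ℝ) := by
    intro N
    induction N using Nat.strong_induction_on with
    | _ N ih =>
      intro b hb hbN
      rcases le_or_gt (1 - C / (1 - κ) * κ ^ b) 0 with hneg | hpos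
      · have h2 : (1 - C / (1 - κ) * κ ^ b) * 2 ^ (16 * N) ≤ 0 :=
          mul_nonpos_of_nonpos_of_nonneg hneg (by positivity)
        exact h2.trans (Nat.cast_nonneg _)
      · rcases le_or_gt N (2 * b) with hN | hN
        · calc (1 - C / (1 - κ) * κ ^ b) * 2 ^ (16 * N)
              ≤ (1 - C * κ ^ N) * 2 ^ (16 * N) := by
                apply mul_le_mul_of_nonneg_right _ (by positivity)
                have h2 : κ ^ N ≤ κ ^ b := pow_le_pow_of_le_one hκ0.le hκ1.le hbN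
                have h3 : C ≤ C / (1 - κ) := by
                  rw [le_div_iff₀ h1κ]
                  nlinarith
                have h4 : C * κ ^ N ≤ C / (1 - κ) * κ ^ b :=
                  mul_le_mul h3 h2 (by positivity) (by positivity)
                linarith
            _ ≤ (g N ((3 / 2 : ℝ) ^ (10 * N)) : ℝ) := h N
            _ ≤ (g N ((3 / 2 : ℝ) ^ (20 * b)) : ℝ) := by
                have : g N ((3 / 2 : ℝ) ^ (10 * N)) ≤ g N ((3 / 2 : ℝ) ^ (20 * b)) := by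
                  apply g_mono
                  exact pow_le_pow_right₀ (by norm_num) (by omega)
                exact_mod_cast this
        · have h2 := ih (N - b) (by omega) (b + 1) (by omega) (by omega)
          have h3 := h b
          have h4 := hS (N - b) b ((3 / 2 : ℝ) ^ (20 * (b + 1))) ((3 / 2 : ℝ) ^ (10 * b))
            (by omega) (by omega) (by positivity) (by positivity)
          have e1 : N - b + b = N := by omega
          rw [e1] at h4
          have h5 : g N ((3 / 2 : ℝ) ^ (10 * b) + rho ^ b * (3 / 2 : ℝ) ^ (20 * (b + 1))) ≤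
              g N ((3 / 2 : ℝ) ^ (20 * b)) := g_mono (window hb)
          have h6 : ((g (N - b) ((3 / 2 : ℝ) ^ (20 * (b + 1))) : ℕ) : ℝ) *
              ((g b ((3 / 2 : ℝ) ^ (10 * b)) : ℕ) : ℝ) ≤
              ((g N ((3 / 2 : ℝ) ^ (20 * b)) : ℕ) : ℝ) := by
            exact_mod_cast h4.trans h5
          have hE : C / (1 - κ) * κ ^ b = C / (1 - κ) * κ ^ (b + 1) + C * κ ^ b := by
            rw [pow_succ]
            field_simp
            ring
          have hp1 : 0 < C / (1 - κ) * κ ^ (b + 1) := by positivity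
          have hp2 : 0 < C * κ ^ b := by positivity
          have hq1 : 0 < 1 - C / (1 - κ) * κ ^ (b + 1) := by linarith
          have hq2 : 0 < 1 - C * κ ^ b := by linarith
          calc (1 - C / (1 - κ) * κ ^ b) * 2 ^ (16 * N)
              ≤ ((1 - C / (1 - κ) * κ ^ (b + 1)) * (1 - C * κ ^ b)) * 2 ^ (16 * N) := by
                apply mul_le_mul_of_nonneg_right _ (by positivity)
                nlinarith [mul_pos hp1 hp2]
            _ = ((1 - C / (1 - κ) * κ ^ (b + 1)) * 2 ^ (16 * (N - b))) *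
                ((1 - C * κ ^ b) * 2 ^ (16 * b)) := by
                have e2 : (2 : ℝ) ^ (16 * N) = 2 ^ (16 * (N - b)) * 2 ^ (16 * b) := by
                  rw [← pow_add]; congr 1; omega
                rw [e2]; ring
            _ ≤ ((g (N - b) ((3 / 2 : ℝ) ^ (20 * (b + 1))) : ℕ) : ℝ) *
                ((g b ((3 / 2 : ℝ) ^ (10 * b)) : ℕ) : ℝ) :=
                mul_le_mul h2 h3 (by positivity) (by positivity)
            _ ≤ _ := h6
  refine ⟨κ, max (C / (1 - κ)) (κ⁻¹ ^ 85), hκ0, hκ1, lt_max_of_lt_left (by positivity), ?_⟩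
  intro N b hbN
  rcases le_or_gt 85 b with hb | hb
  · refine le_trans ?_ (key N b hb hbN)
    apply mul_le_mul_of_nonneg_right _ (by positivity)
    have : C / (1 - κ) * κ ^ b ≤ max (C / (1 - κ)) (κ⁻¹ ^ 85) * κ ^ b :=
      mul_le_mul_of_nonneg_right (le_max_left _ _) (by positivity)
    linarith
  · have h2 : 1 ≤ max (C / (1 - κ)) (κ⁻¹ ^ 85) * κ ^ b := by
      calc (1 : ℝ) = κ⁻¹ ^ 85 * κ ^ 85 := by
            rw [← mul_pow, inv_mul_cancel₀ hκ0.ne', one_pow]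
        _ ≤ κ⁻¹ ^ 85 * κ ^ b :=
            mul_le_mul_of_nonneg_left (pow_le_pow_of_le_one hκ0.le hκ1.le hb.le) (by positivity)
        _ ≤ _ := mul_le_mul_of_nonneg_right (le_max_right _ _) (by positivity)
    have h3 : (1 - max (C / (1 - κ)) (κ⁻¹ ^ 85) * κ ^ b) * 2 ^ (16 * N) ≤ 0 :=
      mul_nonpos_of_nonpos_of_nonneg (by linarith) (by positivity)
    exact h3.trans (Nat.cast_nonneg _)

end Pool.Agent.Lib.MP7f8c3e
end
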